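import Mathlib.Algebra.Order.Archimedean.Real.Hom
import Mathlib.Algebra.Ring.IsFormallyReal
import Mathlib.Geometry.Manifold.PartitionOfUnity
import Mathlib.Analysis.SpecialFunctions.Gaussian.FourierTransform
import Mathlib.Analysis.SpecialFunctions.Gamma.Beta
import Mathlib.MeasureTheory.Integral.BoundedContinuousFunction
import Mathlib.Geometry.Manifold.Instances.Sphere
import Mathlib.Tactic.Polynomial.Basic
import Pool.Agent.MP_c98b3a_gt.Defs
import Pool.Agent.MP_c98b3a_gt.yam.Main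

-- ======== part 0: formerly Pool.Agent.MP_c98b3a_gt.cf.Defs
section MrgPart0

/-! Metrics on the sphere that are conformal to the round metric. -/

open scoped Manifold ContDiff

namespace Pool.Agent.MP_c98b3a_gt

/-- The unit sphere `S^m` in `ℝ^{m+1}`. -/
abbrev Sph (m : ℕ) : Type := Metric.sphere (0 : Euc (Fin (m + 1))) 1

/-- The differential of the inclusion `S^m → ℝ^{m+1}`. -/
noncomputable def dinc {m : ℕ} (x : Sph m) (v : TangentSpace 𝓘(ℝ, Euc (Fin m)) x) :
    Euc (Fin (m + 1)) :=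
  mfderiv 𝓘(ℝ, Euc (Fin m)) 𝓘(ℝ, Euc (Fin (m + 1))) (fun p : Sph m => (p : Euc (Fin (m + 1)))) x v

/-- `g = e^{2 s} g_round` with `s` smooth. -/
def Conf {m : ℕ} (g : Metrics 𝓘(ℝ, Euc (Fin m)) (Sph m)) (s : Sph m → ℝ) : Prop :=
  ContMDiff 𝓘(ℝ, Euc (Fin m)) 𝓘(ℝ, ℝ) ∞ s ∧
    ∀ x v w, gin g x v w = Real.exp (2 * s x) * inner ℝ (dinc x v) (dinc x w)

end Pool.Agent.MP_c98b3a_gt

end MrgPart0

-- ======== part 1: formerly Pool.Agent.MP_c98b3a_gt.cf.Spec
section MrgPart1

/-! The entropy in the conformal class of the round sphere: row statements. -/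

open scoped Manifold ContDiff Matrix
open MeasureTheory Real

noncomputable section

namespace Pool.Agent.MP_c98b3a_gt.CF

/-! One variable. -/

def rr (L S : ℝ) : ℝ := √(1 + S ^ 2 / L ^ 2)

def gg (L S : ℝ) : ℝ := S / rr L S

def BB (L S : ℝ) : ℝ := S - L ^ 2 / 2 * (rr L S - 1)

def ww (L S : ℝ) : ℝ := BB L S - 2 * S - (1 + 1 / L) * gg L S ^ 2 / 4

def uu (L S : ℝ) : ℝ := exp (ww L S / (2 * L ^ 4))

def YY (L S : ℝ) : ℝ := ∫ x in (0 : ℝ)..S, uu L x

/-- the curvature and volume term -/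
def GG (m b S : ℝ) : ℝ := m ^ 3 / 2 * exp (b / m) * (exp (-2 * S / m) - 1 + 2 * S / m)

/-- the entropy term -/
def KK (m b : ℝ) : ℝ := m ^ 2 * (exp (b / m) - 1 - exp (b / m) * (b / m))

/-- the limit polynomial -/
def QQ (q : ℝ) : ℝ := -3 / 2 * q ^ 2 + 13 / 12 * q ^ 3 - 11 / 96 * q ^ 4

/-- Taylor expansions on bounded sets -/
def S_OT : Prop := ∀ R δ : ℝ, 0 < R → 0 < δ → ∃ L0, ∀ L ≥ L0, ∀ S, |S| ≤ R →
  GG (L ^ 4) (BB L S) S - L ^ 4 * YY L S ^ 2 ≤ 5 / 6 * S ^ 3 - S ^ 4 / 12 + δ * S ^ 2 ∧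
  KK (L ^ 4) (BB L S) ≤ -(S - S ^ 2 / 4) ^ 2 / 2 + δ * S ^ 2 ∧ |YY L S - S| ≤ δ * |S|

/-- the global bound -/
def S_OG : Prop := ∃ C > 0, ∃ L0, ∀ L ≥ L0, ∀ S,
  GG (L ^ 4) (BB L S) S - L ^ 4 * YY L S ^ 2 ≤ C + YY L S ^ 2 / 2

/-- the density is almost linear -/
def S_OD : Prop := ∀ L ≥ (100 : ℝ), ∀ S,
  |L ^ 4 * (exp (BB L S / L ^ 4) - 1) - YY L S| ≤ 3 / 10 * YY L S ^ 2

/-- from one variable to two -/
def S_TWO : Prop := ∀ C δ : ℝ, 0 < C → 0 < δ → ∃ R > 0, ∃ δ' > 0, ∃ m0, ∀ m ≥ m0, ∀ S Y T q : ℝ,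
  T ≤ C → (R ≤ |S| → R / 2 ≤ |Y|) → (|S| ≤ R → T ≤ QQ S + δ' * S ^ 2 ∧ |Y - S| ≤ δ' * |S|) →
  T - m / 4 * (Y - q) ^ 2 ≤ QQ q + δ * (q ^ 2 + q ^ 6)

/-- the profile of the test function -/
structure OD (m C δ : ℝ) (B Y : ℝ → ℝ) : Prop where
  smB : ContDiff ℝ ∞ B
  smY : ContDiff ℝ ∞ Y
  zero : Y 0 = 0
  mono : StrictMono Y
  bdd : ∃ A, ∀ S, Y S ≤ A
  win : ∀ S, (m - 1) * deriv Y S ^ 2 ≤ (m - 1 - (1 - deriv B S) ^ 2) * exp ((B S - 2 * S) / m)
  glob : ∀ S, GG m (B S) S - (m + 1) * Y S ^ 2 ≤ C - Y S ^ 2 / 2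
  loc : ∀ S q, GG m (B S) S - (m + 1) * Y S ^ 2 + KK m (B S) - m / 4 * (Y S - q) ^ 2 ≤
    QQ q + δ * (q ^ 2 + q ^ 6)
  lin : ∀ S, |m * (exp (B S / m) - 1) - Y S| ≤ 3 / 10 * Y S ^ 2

def S_ONE : Prop := ∃ C > 0, ∀ δ > 0, ∃ m0 : ℝ, ∀ m ≥ m0, ∃ B Y, OD m C δ B Y

/-! Calculus on a round sphere. -/

/-- smooth functions, the product of gradients and the coordinates of a round `m`-sphere -/
structure SC (m : ℕ) (M : Type) [TopologicalSpace M] [MeasurableSpace M] (μ : Measure M) where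
  Sm : (M → ℝ) → Prop
  Γ : (M → ℝ) → (M → ℝ) → M → ℝ
  x : Fin (m + 1) → M → ℝ
  cont : ∀ {F}, Sm F → Continuous F
  const : ∀ c, Sm fun _ => c
  add : ∀ {F G}, Sm F → Sm G → Sm fun p => F p + G p
  mul : ∀ {F G}, Sm F → Sm G → Sm fun p => F p * G p
  comp : ∀ {φ : ℝ → ℝ} {F}, ContDiff ℝ ∞ φ → Sm F → Sm fun p => φ (F p)
  Γcont : ∀ {F G}, Sm F → Sm G → Continuous (Γ F G)
  Γsymm : ∀ {F G}, Sm F → Sm G → ∀ p, Γ F G p = Γ G F p
  Γnonneg : ∀ {F}, Sm F → ∀ p, 0 ≤ Γ F F p
  Γconst : ∀ c G p, Γ (fun _ => c) G p = 0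
  Γadd : ∀ {F G H}, Sm F → Sm G → Sm H → ∀ p, Γ (fun p => F p + G p) H p = Γ F H p + Γ G H p
  Γmul : ∀ {F G H}, Sm F → Sm G → Sm H → ∀ p,
    Γ (fun p => F p * G p) H p = F p * Γ G H p + G p * Γ F H p
  Γcomp : ∀ {φ : ℝ → ℝ} {F G}, ContDiff ℝ ∞ φ → Sm F → Sm G → ∀ p,
    Γ (fun p => φ (F p)) G p = deriv φ (F p) * Γ F G p
  xsm : ∀ i, Sm (x i)
  xsq : ∀ p, ∑ i, x i p ^ 2 = 1
  Γx : ∀ i j p, Γ (x i) (x j) p = (if i = j then 1 else 0) - x i p * x j p
  stein : ∀ i {F}, Sm F → ∫ p, Γ (x i) F p ∂μ = m * ∫ p, x i p * F p ∂μ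
  sep : ∀ p p', (∀ i, x i p = x i p') → p = p'

/-- a quadratic form in the coordinates -/
def SC.qf {m : ℕ} {M : Type} [TopologicalSpace M] [MeasurableSpace M] {μ : Measure M}
    (c : SC m M μ) (A : Matrix (Fin (m + 1)) (Fin (m + 1)) ℝ) (p : M) : ℝ :=
  ∑ i, ∑ j, A i j * (c.x i p * c.x j p)

/-- quantification over round spheres -/
def AllS (P : ∀ (m : ℕ) (M : Type) [TopologicalSpace M] [MeasurableSpace M] (μ : Measure M),
    SC m M μ → Prop) : Prop :=
  ∀ (m : ℕ) (M : Type) [TopologicalSpace M] [CompactSpace M] [T2Space M] [MeasurableSpace M]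
    [BorelSpace M] (μ : Measure M) [IsProbabilityMeasure μ] (c : SC m M μ), P m M μ c

/-- first moments and the quadratic harmonic part of a function -/
def S_PRJ : Prop := AllS fun m _ _ _ μ c => ∀ F, Continuous F → ∫ p, F p ∂μ = 0 →
  (∀ i, ∫ p, F p * c.x i p ∂μ = 0) → ∃ A : Matrix (Fin (m + 1)) (Fin (m + 1)) ℝ,
    A.IsSymm ∧ A.trace = 0 ∧ ∫ p, c.qf A p ∂μ = 0 ∧ (∀ i, ∫ p, c.qf A p * c.x i p ∂μ = 0) ∧
      (∀ i j, ∫ p, (F p - c.qf A p) * (c.x i p * c.x j p) ∂μ = 0) ∧
      ∀ G, c.Sm G → ∫ p, c.Γ (c.qf A) G p ∂μ = 2 * (m + 1) * ∫ p, c.qf A p * G p ∂μ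

/-- the spectral gap above the harmonics of degree two -/
def S_GAP : Prop := AllS fun m _ _ _ μ c => ∀ F, c.Sm F → ∫ p, F p ∂μ = 0 →
  (∀ i, ∫ p, F p * c.x i p ∂μ = 0) → (∀ i j, ∫ p, F p * (c.x i p * c.x j p) ∂μ = 0) →
    3 * (m + 2) * ∫ p, F p ^ 2 ∂μ ≤ ∫ p, c.Γ F F p ∂μ

/-- moments of quadratic harmonics -/
def S_MOM : Prop := ∃ C > (0 : ℝ), ∃ m0 : ℕ, AllS fun m _ _ _ μ c => m0 ≤ m →
  ∀ A : Matrix (Fin (m + 1)) (Fin (m + 1)) ℝ, A.IsSymm → A.trace = 0 →
    ∫ p, c.qf A p ^ 6 ∂μ ≤ C * (∫ p, c.qf A p ^ 2 ∂μ) ^ 3 ∧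
    ∫ p, QQ (c.qf A p) ∂μ + 9 / 100 * (∫ p, c.qf A p ^ 2 ∂μ) ^ 2 ≤ -(1 / 50) * ∫ p, c.qf A p ^ 2 ∂μ

/-- the entropy excess of the test function -/
def Psi {m : ℕ} {M : Type} [TopologicalSpace M] [MeasurableSpace M] {μ : Measure M} (c : SC m M μ)
    (B : ℝ → ℝ) (s : M → ℝ) : ℝ :=
  ∫ p, exp (B (m * s p) / m) * (m / 2 * (exp (-2 * s p) - 1 + 2 * s p) - B (m * s p) / m -
      (m - 1 - (1 - deriv B (m * s p)) ^ 2) * exp (-2 * s p) * c.Γ s s p / (2 * (m - 1))) ∂μ +
    (∫ p, exp (B (m * s p) / m) ∂μ) * log (∫ p, exp (B (m * s p) / m) ∂μ)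

/-- the balanced inequality -/
def S_ABS : Prop := ∀ C > (0 : ℝ), ∃ δ > (0 : ℝ), ∃ m0 : ℕ, AllS fun m _ _ _ μ c => m0 ≤ m →
  ∀ B Y, OD m C δ B Y → ∀ s, c.Sm s → ∫ p, Y (m * s p) ∂μ = 0 →
    (∀ i, ∫ p, Y (m * s p) * c.x i p ∂μ = 0) →
      Psi c B s ≤ 0 ∧ (0 ≤ Psi c B s → ∫ p, Y (m * s p) ^ 2 ∂μ = 0)

/-! The light cone. -/

section

variable {ι : Type} [Fintype ι] [DecidableEq ι]

/-- the Lorentz product -/
def lor (v w : ℝ × Euc ι) : ℝ := v.1 * w.1 - inner ℝ v.2 w.2

/-- the product with the null vector over `z` -/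
def aff (v : ℝ × Euc ι) (z : Euc ι) : ℝ := v.1 - inner ℝ v.2 z

/-- the orthonormal frame orthogonal to a unit vector -/
def fr (v : ℝ × Euc ι) (i : ι) : ℝ × Euc ι :=
  (v.2 i, EuclideanSpace.single i 1 + (v.2 i / (1 + v.1)) • v.2)

/-- quadratic polynomials -/
def quad (t : ℝ × Euc ι × ℝ) (y : Euc ι) : ℝ := t.1 * ‖y‖ ^ 2 + inner ℝ t.2.1 y + t.2.2

/-- their discriminant form -/
def disc (t u : ℝ × Euc ι × ℝ) : ℝ := 2 * t.1 * u.2.2 + 2 * u.1 * t.2.2 - inner ℝ t.2.1 u.2.1

/-- the product of gradients in coordinates -/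
def gamC (G : Euc ι → Matrix ι ι ℝ) (φ ψ : Euc ι → ℝ) (y : Euc ι) : ℝ :=
  ∑ i, ∑ j, ginv G i j y * pd i φ y * pd j ψ y

variable {M : Type} [TopologicalSpace M] [ChartedSpace (Euc ι) M] [IsManifold 𝓘(ℝ, Euc ι) ∞ M]

/-- the product of gradients -/
def gam (g : Metrics 𝓘(ℝ, Euc ι) M) (F G : M → ℝ) (x : M) : ℝ :=
  gamC (gmat g (chartAt (Euc ι) x)) (F ∘ (chartAt (Euc ι) x).symm) (G ∘ (chartAt (Euc ι) x).symm)
    (chartAt (Euc ι) x x)

variable (ι) in
/-- smooth functions -/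
abbrev Smo (F : M → ℝ) : Prop := ContMDiff 𝓘(ℝ, Euc ι) 𝓘(ℝ, ℝ) ∞ F

/-- the rules of the product of gradients -/
structure GamF (g : Metrics 𝓘(ℝ, Euc ι) M) : Prop where
  cont : ∀ {F G}, Smo ι F → Smo ι G → Continuous (gam g F G)
  symm : ∀ F G p, gam g F G p = gam g G F p
  nonneg : ∀ F p, 0 ≤ gam g F F p
  const : ∀ c G p, gam g (fun _ => c) G p = 0
  add : ∀ {F G}, Smo ι F → Smo ι G → ∀ H p,
    gam g (fun p => F p + G p) H p = gam g F H p + gam g G H p
  mul : ∀ {F G}, Smo ι F → Smo ι G → ∀ H p,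
    gam g (fun p => F p * G p) H p = F p * gam g G H p + G p * gam g F H p
  comp : ∀ {φ : ℝ → ℝ} {d : ℝ} {F}, Smo ι F → ∀ G p, HasDerivAt φ d (F p) →
    gam g (fun p => φ (F p)) G p = d * gam g F G p
  chart : ∀ {F G e}, Smo ι F → Smo ι G → IsChart e → ∀ y ∈ e.target,
    gam g F G (e.symm y) = gamC (gmat g e) (F ∘ e.symm) (G ∘ e.symm) y

/-- a conformally flat chart from the complement of a point onto the whole space -/
structure Flat (g : Metrics 𝓘(ℝ, Euc ι) M) (e : OpenPartialHomeomorph M (Euc ι)) (σ : Euc ι → ℝ)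
    (a : M) : Prop where
  chart : IsChart e
  tgt : e.target = Set.univ
  src : e.source = {a}ᶜ
  sm : ContDiff ℝ ∞ σ
  gm : ∀ y, gmat g e y = exp (2 * σ y) • (1 : Matrix ι ι ℝ)

end

/-- the volume of the unit sphere -/
def volS (m : ℕ) : ℝ := 2 * π ^ (((m : ℝ) + 1) / 2) / Gamma (((m : ℝ) + 1) / 2)

/-- quantification over closed Riemannian manifolds -/
def AllM (P : ∀ (ι M : Type) [Fintype ι] [DecidableEq ι] [TopologicalSpace M]
    [ChartedSpace (Euc ι) M] [IsManifold 𝓘(ℝ, Euc ι) ∞ M] [MeasurableSpace M],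
    Metrics 𝓘(ℝ, Euc ι) M → Prop) : Prop :=
  ∀ (ι M : Type) [Fintype ι] [DecidableEq ι] [Nonempty ι] [TopologicalSpace M] [T2Space M]
    [CompactSpace M] [ChartedSpace (Euc ι) M] [IsManifold 𝓘(ℝ, Euc ι) ∞ M] [MeasurableSpace M]
    [BorelSpace M] (g : Metrics 𝓘(ℝ, Euc ι) M), P ι M g

def S_GAM : Prop := AllM fun _ _ _ _ _ _ _ _ g => GamF g ∧
  ∀ F, Continuous F → (∀ p, 0 ≤ F p) → ∫ p, F p ∂vol g = 0 → ∀ p, F p = (0 : ℝ)

/-- conformally flat metrics in coordinates -/
def S_SCAL : Prop := ∀ (ι : Type) [Fintype ι] [DecidableEq ι] (σ : Euc ι → ℝ), ContDiff ℝ ∞ σ →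
  ∀ y, scal (fun z => exp (2 * σ z) • (1 : Matrix ι ι ℝ)) y = -exp (-2 * σ y) *
      (2 * (Fintype.card ι - 1) * ∑ k, pd k (pd k σ) y +
        (Fintype.card ι - 1) * (Fintype.card ι - 2) * ∑ k, pd k σ y ^ 2) ∧
    (∀ φ ψ, gamC (fun z => exp (2 * σ z) • (1 : Matrix ι ι ℝ)) φ ψ y =
      exp (-2 * σ y) * ∑ k, pd k φ y * pd k ψ y) ∧
    √(exp (2 * σ y) • (1 : Matrix ι ι ℝ)).det = exp (Fintype.card ι * σ y)

/-- integration by parts with two conformally flat charts -/
def S_DIV : Prop := AllM fun ι _ _ _ _ _ _ _ g => ∀ e σ a e' σ' a', Flat g e σ a →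
  Flat g e' σ' a' → a ≠ a' →
    (∀ F, Continuous F → ∫ p, F p ∂vol g = ∫ y, F (e.symm y) * exp (Fintype.card ι * σ y)) ∧
    ∀ w φ ψ, Smo ι w → Smo ι φ → Continuous ψ →
      (∀ y, ∑ k, pd k (fun z => w (e.symm z) * exp ((Fintype.card ι - 2) * σ z) *
        pd k (φ ∘ e.symm) z) y = ψ (e.symm y) * exp (Fintype.card ι * σ y)) →
      (∀ y, ∑ k, pd k (fun z => w (e'.symm z) * exp ((Fintype.card ι - 2) * σ' z) *
        pd k (φ ∘ e'.symm) z) y = ψ (e'.symm y) * exp (Fintype.card ι * σ' y)) →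
      ∀ F, Smo ι F → ∫ p, w p * gam g φ F p ∂vol g = -∫ p, ψ p * F p ∂vol g

/-- identities for quadratic polynomials -/
def S_QE : Prop := ∀ (ι : Type) [Fintype ι] [DecidableEq ι] (t : ℝ × Euc ι × ℝ), 0 < t.1 →
  disc t t = 1 → (∀ y, 0 < quad t y) ∧
    (∀ u, disc u t = 0 → ∀ y, ∑ k, pd k (fun z => exp ((2 - Fintype.card ι) * log (quad t z)) *
      pd k (fun z => quad u z / quad t z) z) y =
        -Fintype.card ι * (quad u y / quad t y) * exp (-Fintype.card ι * log (quad t y))) ∧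
    (∀ u u', disc u t = 0 → disc u' t = 0 → ∀ y,
      ∑ k, pd k (fun z => quad u z / quad t z) y * pd k (fun z => quad u' z / quad t z) y =
        (-disc u u' - quad u y / quad t y * (quad u' y / quad t y)) / quad t y ^ 2) ∧
    ∀ σ : Euc ι → ℝ, ContDiff ℝ ∞ σ → ∀ y,
      2 * ∑ k, pd k (fun z => exp ((Fintype.card ι - 2) * σ z) *
        pd k (fun z => σ z + log (quad t z)) z) y = exp ((Fintype.card ι - 2) * σ y) *
        (Fintype.card ι / quad t y ^ 2 +
          (Fintype.card ι - 2) * ∑ k, pd k (fun z => σ z + log (quad t z)) y ^ 2 +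
          2 * ∑ k, pd k (pd k σ) y + (Fintype.card ι - 2) * ∑ k, pd k σ y ^ 2)

/-- the volume of the sphere in stereographic coordinates -/
def S_MASS : Prop := ∀ (m : ℕ) (t : ℝ × Euc (Fin m) × ℝ), 1 ≤ m → 0 < t.1 → 0 < disc t t →
  (∀ y, 0 < quad t y) ∧
    ∫ y, exp (-m * log (quad t y)) = volS m * exp (-(m / 2) * log (disc t t))

/-- the frame -/
def S_FR : Prop := ∀ (ι : Type) [Fintype ι] [DecidableEq ι] (v : ℝ × Euc ι), 0 < v.1 →
  lor v v = 1 → ‖v.2‖ < v.1 ∧ (∀ i, lor (fr v i) v = 0) ∧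
    (∀ i j, lor (fr v i) (fr v j) = -if i = j then 1 else 0) ∧
    (∀ z : Euc ι, ‖z‖ = 1 → 0 < aff v z ∧ ∑ i, (aff (fr v i) z / aff v z) ^ 2 = 1) ∧
    ∀ z z' : Euc ι, ‖z‖ = 1 → ‖z'‖ = 1 →
      (∀ i, aff (fr v i) z / aff v z = aff (fr v i) z' / aff v z') → z = z'

/-- the balanced gauge -/
def S_BAL : Prop := ∀ (ι M : Type) [Fintype ι] [DecidableEq ι] [TopologicalSpace M]
  [CompactSpace M] [T2Space M] [MeasurableSpace M] [BorelSpace M] (μ : Measure M)
  [IsFiniteMeasure μ] (s : M → ℝ) (z : M → Euc ι) (m κ : ℝ) (Y : ℝ → ℝ), Continuous s →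
  Continuous z → (∀ p, ‖z p‖ = 1) → 1 ≤ m → 0 < κ → Continuous Y → StrictMono Y → Y 0 = 0 →
  (∃ A, ∀ S, Y S ≤ A) → (∀ v : ℝ × Euc ι, ‖v.2‖ < v.1 →
    ∫ p, exp (-m * (s p + log (aff v (z p)))) ∂μ = κ * exp (-(m / 2) * log (lor v v))) →
  ∃ v : ℝ × Euc ι, 0 < v.1 ∧ lor v v = 1 ∧ ∃ c : ℝ, ∀ w : ℝ × Euc ι,
    ∫ p, exp (-m * (s p + log (aff v (z p)))) * (Y (m * (s p + log (aff v (z p)) + c)) *
      (aff w (z p) / aff v (z p))) ∂μ = 0

/-- stereographic charts -/
def S_CH : Prop := ∀ (m : ℕ) (g : Metrics 𝓘(ℝ, Euc (Fin m)) (Sph m)) (s : Sph m → ℝ), Conf g s →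
  ∀ a : Sph m, ∃ (e : OpenPartialHomeomorph (Sph m) (Euc (Fin m))) (σ : Euc (Fin m) → ℝ)
    (t : ℝ × Euc (Fin (m + 1)) → ℝ × Euc (Fin m) × ℝ), Flat g e σ a ∧
      (∀ v y, exp (s (e.symm y)) * aff v (e.symm y) = exp (σ y) * quad (t v) y) ∧
      (∀ v w, disc (t v) (t w) = lor v w) ∧ ∀ v, ‖v.2‖ < v.1 → 0 < (t v).1

/-- the round metric of a gauge -/
def S_GEO : Prop := ∀ (m : ℕ) (g : Metrics 𝓘(ℝ, Euc (Fin m)) (Sph m)) (s : Sph m → ℝ), 2 ≤ m →
  Conf g s → (∀ v : ℝ × Euc (Fin (m + 1)), ‖v.2‖ < v.1 →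
    ∫ p, exp (-m * (s p + log (aff v p))) ∂vol g = volS m * exp (-(m / 2) * log (lor v v))) ∧
  ∀ v : ℝ × Euc (Fin (m + 1)), 0 < v.1 → lor v v = 1 → ∀ S : Sph m → ℝ,
    (S = fun p => s p + log (aff v p)) → Smo (Fin m) S ∧ (∀ p : Sph m, 0 < aff v p) ∧
    (∃ (μ : Measure (Sph m)) (_ : IsProbabilityMeasure μ) (c : SC m (Sph m) μ),
      (∀ F, Smo (Fin m) F → c.Sm F) ∧ (∀ F G p, c.Γ F G p = exp (2 * S p) * gam g F G p) ∧
      (∀ i p, c.x i p = aff (fr v i) p / aff v p) ∧
      ∀ F, Continuous F → volS m * ∫ p, F p ∂μ = ∫ p, exp (-m * S p) * F p ∂vol g) ∧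
    ∀ F, Smo (Fin m) F → ∫ p, scalM g p * F p ∂vol g =
      ∫ p, (m * (m - 1) * exp (-2 * S p) * F p + 2 * (m - 1) * gam g S F p +
        (m - 1) * (m - 2) * gam g S S p * F p) ∂vol g

end Pool.Agent.MP_c98b3a_gt.CF

end

end MrgPart1

-- ======== part 2: formerly Pool.Agent.MP_c98b3a_gt.cf.CH
section MrgPart2

/-! Stereographic charts of a metric conformal to the round metric. -/

open scoped Manifold ContDiff Matrix
open MeasureTheory Real

noncomputable section

namespace Pool.Agent.MP_c98b3a_gt.CF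

namespace CH

variable {E F : Type} [NormedAddCommGroup E] [InnerProductSpace ℝ E] [NormedAddCommGroup F]
  [InnerProductSpace ℝ F]

/-- the inverse stereographic map is conformal -/
theorem conf (T : E →L[ℝ] F) (a : F) (hT : ∀ x y, inner ℝ (T x) (T y) = inner ℝ x y)
    (hTa : ∀ x, inner ℝ (T x) a = 0) (ha : inner ℝ a a = (1 : ℝ)) (y h k : E) :
    inner ℝ (fderiv ℝ (fun y => a + (‖y‖ ^ 2 + 4)⁻¹ • ((4 : ℝ) • T y - (8 : ℝ) • a)) y h)
      (fderiv ℝ (fun y => a + (‖y‖ ^ 2 + 4)⁻¹ • ((4 : ℝ) • T y - (8 : ℝ) • a)) y k) =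
      (4 / (‖y‖ ^ 2 + 4)) ^ 2 * inner ℝ h k := by
  have p : ‖y‖ ^ 2 + 4 ≠ 0 := by positivity
  have d1 := (hasDerivAt_inv p).comp_hasFDerivAt y
    ((hasStrictFDerivAt_norm_sq y).hasFDerivAt.add_const 4)
  have d2 := ((T.hasFDerivAt (x := y)).const_smul (4 : ℝ)).sub_const ((8 : ℝ) • a)
  have d := ((d1.smul d2).const_add a).fderiv
  have e : ∀ h, fderiv ℝ (fun y => a + (‖y‖ ^ 2 + 4)⁻¹ • ((4 : ℝ) • T y - (8 : ℝ) • a)) y h =
      (‖y‖ ^ 2 + 4)⁻¹ • (4 : ℝ) • T h + (-((‖y‖ ^ 2 + 4) ^ 2)⁻¹ * (2 * inner ℝ y h)) •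
        ((4 : ℝ) • T y - (8 : ℝ) • a) := fun h => by
    refine (congrArg (fun L : E →L[ℝ] F => L h) d).trans ?_
    simp
  have hTa' : ∀ x, inner ℝ a (T x) = 0 := fun x => by rw [real_inner_comm, hTa]
  rw [e, e]
  simp only [inner_add_left, inner_add_right, inner_sub_left, inner_sub_right, real_inner_smul_left,
    real_inner_smul_right, hT, hTa, hTa', ha, real_inner_self_eq_norm_sq, real_inner_comm y h]
  field_simp
  ring

/-- the stereographic chart in terms of an isometry onto the orthogonal complement -/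
theorem chart (m : ℕ) (a : Sph m) : ∃ (e : OpenPartialHomeomorph (Sph m) (Euc (Fin m)))
    (T : Euc (Fin m) →L[ℝ] Euc (Fin (m + 1))) (P : Euc (Fin (m + 1)) → Euc (Fin m)),
    IsChart e ∧ e.target = Set.univ ∧ e.source = {a}ᶜ ∧
    (∀ x y, inner ℝ (T x) (T y) = inner ℝ x y) ∧ (∀ x, inner ℝ (T x) a.1 = 0) ∧
    (∀ v y, inner ℝ (P v) y = inner ℝ v (T y)) ∧
    (∀ v w, inner ℝ (P v) (P w) = inner ℝ v w - inner ℝ v a.1 * inner ℝ w a.1) ∧
    ∀ y, (e.symm y).1 = a.1 + (‖y‖ ^ 2 + 4)⁻¹ • ((4 : ℝ) • T y - (8 : ℝ) • a.1) := by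
  have := Fact.mk (@finrank_euclideanSpace_fin ℝ _ (m + 1))
  let U : (ℝ ∙ a.1)ᗮ ≃ₗᵢ[ℝ] Euc (Fin m) :=
    (OrthonormalBasis.fromOrthogonalSpanSingleton m (ne_zero_of_mem_unit_sphere a)).repr
  have k : ∀ (v : Euc (Fin (m + 1))) (y : Euc (Fin m)),
      inner ℝ (U ((ℝ ∙ a.1)ᗮ.orthogonalProjectionOnto v)) y = inner ℝ v (U.symm y).1 := fun v y => by
    rw [← U.symm.inner_map_map, U.symm_apply_apply]
    exact Submodule.inner_orthogonalProjectionOnto_eq_of_mem_right _ _
  refine ⟨stereographic' m a, (ℝ ∙ a.1)ᗮ.subtypeL.comp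
      U.symm.toContinuousLinearEquiv.toContinuousLinearMap,
    fun v => U ((ℝ ∙ a.1)ᗮ.orthogonalProjectionOnto v), ?_, stereographic'_target a,
    stereographic'_source a, fun x y => U.symm.inner_map_map x y,
    fun x => Submodule.mem_orthogonal_singleton_iff_inner_left.1 (U.symm x).2, k, fun v w => ?_,
    fun y => ?_⟩
  · have h := isChart_at (ι := Fin m) (-a)
    rwa [show chartAt (Euc (Fin m)) (-a) = stereographic' m (- -a) from rfl, neg_neg] at h
  · rw [k, U.symm_apply_apply]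
    have h := (ℝ ∙ a.1).starProjection_add_starProjection_orthogonal w
    rw [Submodule.starProjection_unit_singleton ℝ (norm_eq_of_mem_sphere a) w] at h
    have h' := congrArg (inner ℝ v) h
    rw [inner_add_right, real_inner_smul_right, real_inner_comm w] at h'
    change inner ℝ v ((ℝ ∙ a.1)ᗮ.starProjection w) = _
    linarith
  · rw [stereographic'_symm_apply]
    have h : ‖((U.symm y : (ℝ ∙ a.1)ᗮ) : Euc (Fin (m + 1)))‖ = ‖y‖ := U.symm.norm_map y
    have p : ‖y‖ ^ 2 + 4 ≠ 0 := by positivity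
    change (‖(U.symm y).1‖ ^ 2 + 4)⁻¹ • (4 : ℝ) • (U.symm y).1 +
      (‖(U.symm y).1‖ ^ 2 + 4)⁻¹ • (‖(U.symm y).1‖ ^ 2 - 4) • a.1 =
      a.1 + (‖y‖ ^ 2 + 4)⁻¹ • ((4 : ℝ) • (U.symm y).1 - (8 : ℝ) • a.1)
    rw [h]
    match_scalars
    · ring
    · field_simp
      ring

end CH

theorem ch : S_CH := by
  intro m g s hs a
  have := Fact.mk (@finrank_euclideanSpace_fin ℝ _ (m + 1))
  obtain ⟨e, T, P, h1, h2, h3, h4, h5, h6, h7, h8⟩ := CH.chart m a
  have p : ∀ y : Euc (Fin m), 0 < ‖y‖ ^ 2 + 4 := fun y => by positivity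
  have ex : ∀ y : Euc (Fin m), exp (s (e.symm y) - log ((‖y‖ ^ 2 + 4) / 4)) =
      exp (s (e.symm y)) * (4 / (‖y‖ ^ 2 + 4)) := fun y => by
    rw [exp_sub, exp_log (by positivity), div_div_eq_mul_div, mul_div_assoc]
  refine ⟨e, fun y => s (e.symm y) - log ((‖y‖ ^ 2 + 4) / 4),
    fun v => ((v.1 - inner ℝ v.2 a.1) / 4, -P v.2, v.1 + inner ℝ v.2 a.1),
    ⟨h1, h2, h3, ?_, fun y => ?_⟩, fun v y => ?_, fun v w => ?_, fun v hv => ?_⟩
  · have c := h1.cdOn hs.1
    rw [h2, contDiffOn_univ] at c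
    exact c.sub ((((contDiff_norm_sq ℝ).add contDiff_const).div_const 4).log
      fun y => by positivity)
  · have d : ∀ h, dinc (e.symm y) (dparam 𝓘(ℝ, Euc (Fin m)) e.symm y h) = fderiv ℝ
        (fun y => a.1 + (‖y‖ ^ 2 + 4)⁻¹ • ((4 : ℝ) • T y - (8 : ℝ) • a.1)) y h := fun h => by
      have c := mfderiv_comp (I := 𝓘(ℝ, Euc (Fin m))) (I' := 𝓘(ℝ, Euc (Fin m)))
        (I'' := 𝓘(ℝ, Euc (Fin (m + 1)))) y (g := fun p : Sph m => (p : Euc (Fin (m + 1))))
        (f := e.symm) ((contMDiff_coe_sphere (m := 1) (n := m)).mdifferentiableAt (by simp))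
        (h1.mdiff.mdifferentiableAt_symm (h2 ▸ Set.mem_univ y))
      rw [mfderiv_eq_fderiv] at c
      rw [← funext h8]
      exact (congrArg (fun L : Euc (Fin m) →L[ℝ] Euc (Fin (m + 1)) => L h) c).symm
    ext i j
    have e2 : ∀ x : ℝ, exp (2 * x) = exp x ^ 2 := fun x => by rw [← exp_nat_mul, Nat.cast_ofNat]
    rw [gmat, Matrix.of_apply, hs.2, d, d, CH.conf T a.1 h4 h5 (by simp), e2, e2, ex]
    simp only [mul_pow, Matrix.smul_apply, smul_eq_mul, mul_assoc, Matrix.one_apply,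
      EuclideanSpace.inner_single_left, PiLp.single_apply, conj_trivial, one_mul]
  · have := (p y).ne'
    simp only [ex, aff, quad, h8, inner_add_right, inner_sub_right, real_inner_smul_right,
      inner_neg_left, h6]
    field_simp
    ring
  · simp only [disc, lor, inner_neg_neg, h7]
    ring
  · have := real_inner_le_norm v.2 a.1
    rw [norm_eq_of_mem_sphere a, mul_one] at this
    exact div_pos (by linarith) four_pos

end Pool.Agent.MP_c98b3a_gt.CF

end

end MrgPart2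

-- ======== part 3: formerly Pool.Agent.MP_c98b3a_gt.cf.ABS
section MrgPart3

/-! The balanced inequality on a round sphere. -/

open scoped ContDiff
open MeasureTheory Real

noncomputable section

namespace Pool.Agent.MP_c98b3a_gt.CF

namespace ABS

variable {m : ℕ} {M : Type} [TopologicalSpace M] [MeasurableSpace M] {μ : Measure M}

theorem sm_sum (c : SC m M μ) {ι : Type} (t : Finset ι) (f : ι → M → ℝ) (h : ∀ i, c.Sm (f i)) :
    c.Sm fun p => ∑ i ∈ t, f i p := by
  classical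
  induction t using Finset.induction_on with
  | empty => simpa using c.const 0
  | insert i t hi ih => simpa [Finset.sum_insert hi] using c.add (h i) ih

theorem sm_qf (c : SC m M μ) (A : Matrix (Fin (m + 1)) (Fin (m + 1)) ℝ) : c.Sm (c.qf A) :=
  sm_sum c _ _ fun i => sm_sum c _ _ fun j => c.mul (c.const _) (c.mul (c.xsm i) (c.xsm j))

theorem sm_sub (c : SC m M μ) {F G : M → ℝ} (hF : c.Sm F) (hG : c.Sm G) :
    c.Sm fun p => F p - G p := by
  simpa [sub_eq_add_neg] using c.add hF (c.mul (c.const (-1)) hG)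

theorem intg [CompactSpace M] [T2Space M] [BorelSpace M] [IsProbabilityMeasure μ] {f : M → ℝ}
    (h : Continuous f) : Integrable f μ :=
  h.integrable_of_hasCompactSupport (HasCompactSupport.of_compactSpace f)

/-- The Poincaré inequality with the quadratic harmonic part removed. -/
theorem poin (h1 : S_PRJ) (h2 : S_GAP) [CompactSpace M] [T2Space M] [BorelSpace M]
    [IsProbabilityMeasure μ] (c : SC m M μ) {F : M → ℝ} (hF : c.Sm F) (h0 : ∫ p, F p ∂μ = 0)
    (hx : ∀ i, ∫ p, F p * c.x i p ∂μ = 0) : ∃ A : Matrix (Fin (m + 1)) (Fin (m + 1)) ℝ,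
      A.IsSymm ∧ A.trace = 0 ∧
      ∫ p, F p ^ 2 ∂μ = ∫ p, c.qf A p ^ 2 ∂μ + ∫ p, (F p - c.qf A p) ^ 2 ∂μ ∧
      2 * (m + 1) * ∫ p, c.qf A p ^ 2 ∂μ + 3 * (m + 2) * ∫ p, (F p - c.qf A p) ^ 2 ∂μ ≤
        ∫ p, c.Γ F F p ∂μ := by
  obtain ⟨A, a1, a2, a3, a4, a5, a6⟩ := h1 m M μ c F (c.cont hF) h0 hx
  have sq := sm_qf c A
  have s3 := sm_sub c hF sq
  have cF := c.cont hF
  have cq := c.cont sq
  have cx := fun i => c.cont (c.xsm i)
  have o : ∫ p, c.qf A p * (F p - c.qf A p) ∂μ = 0 := by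
    have e : ∀ p, c.qf A p * (F p - c.qf A p) =
        ∑ i, ∑ j, A i j * ((F p - c.qf A p) * (c.x i p * c.x j p)) := by
      intro p
      rw [SC.qf, Finset.sum_mul]
      refine Finset.sum_congr rfl fun i _ => ?_
      rw [Finset.sum_mul]
      exact Finset.sum_congr rfl fun j _ => by ring
    simp only [e]
    rw [integral_finsetSum _ fun i _ => intg (by fun_prop)]
    refine Finset.sum_eq_zero fun i _ => ?_
    rw [integral_finsetSum _ fun j _ => intg (by fun_prop)]
    refine Finset.sum_eq_zero fun j _ => ?_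
    rw [integral_const_mul, a5, mul_zero]
  have g := h2 m M μ c _ s3
    (by rw [integral_sub (intg cF) (intg cq), h0, a3, sub_zero])
    (fun i => by
      have := cx i
      simp only [sub_mul]
      rw [integral_sub (intg (by fun_prop)) (intg (by fun_prop)), hx, a4, sub_zero]) a5
  have eF : F = fun p => c.qf A p + (F p - c.qf A p) := funext fun p => by ring
  have eΓ : ∀ p, c.Γ F F p = c.Γ (c.qf A) (c.qf A) p +
      2 * c.Γ (c.qf A) (fun p => F p - c.qf A p) p +
      c.Γ (fun p => F p - c.qf A p) (fun p => F p - c.qf A p) p := by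
    intro p
    have e1 := c.Γadd sq s3 hF p
    have e2 := c.Γadd sq s3 sq p
    have e3 := c.Γadd sq s3 s3 p
    rw [← eF] at e1 e2 e3
    rw [e1, c.Γsymm sq hF, c.Γsymm s3 hF, e2, e3, c.Γsymm s3 sq]
    ring
  have c1 := c.Γcont sq sq
  have c2 := c.Γcont sq s3
  have c3 := c.Γcont s3 s3
  refine ⟨A, a1, a2, ?_, ?_⟩
  · have e : ∀ p, F p ^ 2 = c.qf A p ^ 2 + 2 * (c.qf A p * (F p - c.qf A p)) +
        (F p - c.qf A p) ^ 2 := fun p => by ring
    rw [integral_congr_ae (Filter.Eventually.of_forall e),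
      integral_add (intg (by fun_prop)) (intg (by fun_prop)),
      integral_add (intg (by fun_prop)) (intg (by fun_prop)), integral_const_mul, o]
    ring
  · rw [integral_congr_ae (Filter.Eventually.of_forall eΓ),
      integral_add (intg (by fun_prop)) (intg c3),
      integral_add (intg c1) (intg (by fun_prop)), integral_const_mul, a6 _ sq, a6 _ s3, o]
    simp only [← pow_two]
    linarith

theorem point {m C δ : ℝ} {B Y : ℝ → ℝ} (h : OD m C δ B Y) (hm : 1 < m) (s γ : ℝ) (hγ : 0 ≤ γ) :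
    m ^ 2 * (exp (B (m * s) / m) * (m / 2 * (exp (-2 * s) - 1 + 2 * s) - B (m * s) / m -
      (m - 1 - (1 - deriv B (m * s)) ^ 2) * exp (-2 * s) * γ / (2 * (m - 1)))) ≤
    GG m (B (m * s)) (m * s) - m ^ 2 * (exp (B (m * s) / m) * (B (m * s) / m)) -
      1 / 2 * ((deriv Y (m * s) * m) * ((deriv Y (m * s) * m) * γ)) := by
  have m0 : m ≠ 0 := by linarith
  have m1 : 0 < m - 1 := by linarith
  have w := h.win (m * s)
  have e1 : -2 * (m * s) / m = -2 * s := by field_simp
  have e2 : 2 * (m * s) / m = 2 * s := by field_simp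
  have e3 : exp ((B (m * s) - 2 * (m * s)) / m) = exp (B (m * s) / m) * exp (-2 * s) := by
    rw [← exp_add]; congr 1; field_simp; ring
  rw [e3] at w
  rw [GG, e1, e2]
  have k : deriv Y (m * s) ^ 2 ≤ (m - 1 - (1 - deriv B (m * s)) ^ 2) *
      (exp (B (m * s) / m) * exp (-2 * s)) / (m - 1) := by
    rw [le_div_iff₀ m1]; linarith
  have k2 := mul_le_mul_of_nonneg_right k (mul_nonneg (sq_nonneg m) hγ)
  have e4 : m ^ 2 * (exp (B (m * s) / m) *
      ((m - 1 - (1 - deriv B (m * s)) ^ 2) * exp (-2 * s) * γ / (2 * (m - 1)))) =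
      1 / 2 * ((m - 1 - (1 - deriv B (m * s)) ^ 2) *
        (exp (B (m * s) / m) * exp (-2 * s)) / (m - 1) * (m ^ 2 * γ)) := by
    field_simp
  nlinarith

theorem arith {m C C6 δ P a1 a2 E V V2 V3 Z lZ Q M6 : ℝ} (hC : 0 < C) (h6 : 0 < C6) (hδ : 0 < δ)
    (hd : δ * (1 + 16 * C6 * C ^ 2) ≤ 1 / 100) (hm : 4 * C ≤ m) (v2 : 0 ≤ V2) (v3 : 0 ≤ V3)
    (hV : V = V2 + V3) (hE : 2 * (m + 1) * V2 + 3 * (m + 2) * V3 ≤ E)
    (hP : m ^ 2 * P ≤ a1 - m ^ 2 * a2 - 1 / 2 * E) (gl : a1 - (m + 1) * V ≤ C - V / 2)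
    (lo : a1 - (m + 1) * V + m ^ 2 * (Z - 1 - a2) - m / 4 * V3 ≤ Q + δ * (V2 + M6))
    (li : |m * (Z - 1)| ≤ 3 / 10 * V) (je : Z * lZ ≤ a2) (lz : Z * lZ ≤ Z * (Z - 1))
    (m6 : M6 ≤ C6 * V2 ^ 3) (mq : Q + 9 / 100 * V2 ^ 2 ≤ -(1 / 50) * V2) :
    m ^ 2 * (P + Z * lZ) ≤ -V / 100 := by
  have m0 : 0 < m := by linarith
  have mv := mul_nonneg m0.le v3
  rcases le_total (4 * C) V with k | k
  · have := mul_le_mul_of_nonneg_left je (sq_nonneg m)
    subst hV
    nlinarith
  · have k1 := mul_le_mul_of_nonneg_left lz (sq_nonneg m)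
    have k2 : (m * (Z - 1)) ^ 2 ≤ (3 / 10 * V) ^ 2 := sq_le_sq' (abs_le.1 li).1 (abs_le.1 li).2
    have k3 : V2 ^ 2 ≤ (4 * C) ^ 2 := pow_le_pow_left₀ v2 (by linarith) 2
    have k4 : M6 ≤ 16 * C6 * C ^ 2 * V2 := by
      have := mul_le_mul_of_nonneg_left k3 (mul_nonneg h6.le v2)
      nlinarith
    have k5 : δ * (V2 + M6) ≤ 1 / 100 * V2 := by
      have := mul_le_mul_of_nonneg_right hd v2
      have := mul_le_mul_of_nonneg_left k4 hδ.le
      nlinarith
    have k6 := mul_le_mul_of_nonneg_right (k.trans hm) v3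
    have k7 := mul_nonneg v3 v3
    subst hV
    nlinarith

end ABS

open ABS in
theorem abs_ (h1 : S_PRJ) (h2 : S_GAP) (h3 : S_MOM) : S_ABS := by
  intro C hC
  obtain ⟨C6, h6, m1, hM⟩ := h3
  have hp : 0 < 1 + 16 * C6 * C ^ 2 := by positivity
  refine ⟨1 / 100 / (1 + 16 * C6 * C ^ 2), by positivity, max m1 (max 2 ⌈4 * C⌉₊), ?_⟩
  intro m M _ _ _ _ _ μ _ c hm B Y h s hs h0 hx
  have hm1 : m1 ≤ m := (le_max_left _ _).trans hm
  have hm2 : (1 : ℝ) < m := by
    have : 2 ≤ m := (le_max_left _ _).trans ((le_max_right _ _).trans hm)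
    exact_mod_cast this
  have hm3 : 4 * C ≤ m := Nat.ceil_le.1 ((le_max_right _ _).trans ((le_max_right _ _).trans hm))
  have sφ : ContDiff ℝ ∞ fun t : ℝ => Y (m * t) := h.smY.comp (contDiff_const.mul contDiff_id)
  have dφ : ∀ t : ℝ, deriv (fun t : ℝ => Y (m * t)) t = deriv Y (m * t) * m := fun t =>
    (((h.smY.differentiable (by simp) _).hasDerivAt.comp t
      ((hasDerivAt_id' t).const_mul (m : ℝ))).deriv).trans (by rw [mul_one])
  have hF : c.Sm fun p => Y (m * s p) := c.comp (φ := fun t : ℝ => Y (m * t)) sφ hs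
  have eΓ : ∀ p, c.Γ (fun p => Y (m * s p)) (fun p => Y (m * s p)) p =
      (deriv Y (m * s p) * m) * ((deriv Y (m * s p) * m) * c.Γ s s p) := by
    intro p
    have e1 := c.Γcomp (φ := fun t : ℝ => Y (m * t)) sφ hs hF p
    have e2 := c.Γcomp (φ := fun t : ℝ => Y (m * t)) sφ hs hs p
    rw [e1, c.Γsymm hs hF, e2, dφ]
  obtain ⟨A, a1, a2, a3, a4⟩ := poin h1 h2 c hF h0 hx
  obtain ⟨b1, b2⟩ := hM m M μ c hm1 A a1 a2
  have cs := c.cont hs
  have cB := h.smB.continuous
  have cB' := h.smB.continuous_deriv (by simp)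
  have cY := h.smY.continuous
  have cY' := h.smY.continuous_deriv (by simp)
  have cΓ := c.Γcont hs hs
  have cΓ' := c.Γcont hF hF
  have cq := c.cont (sm_qf c A)
  have cG : Continuous fun p => GG m (B (m * s p)) (m * s p) := by unfold GG; fun_prop
  have cQ : Continuous fun p => QQ (c.qf A p) := by unfold QQ; fun_prop
  have zp : 0 < ∫ p, exp (B (m * s p) / m) ∂μ := integral_exp_pos (intg (by fun_prop))
  have k1 := integral_mono (μ := μ) (intg (by fun_prop)) (intg (by fun_prop))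
    fun p => point h hm2 (s p) _ (c.Γnonneg hs p)
  simp only [← eΓ] at k1
  have k2 := integral_mono (μ := μ) (intg (by fun_prop)) (intg (by fun_prop))
    fun p => h.glob (m * s p)
  have k3 := integral_mono (μ := μ) (intg (by unfold KK; fun_prop)) (intg (by fun_prop))
    fun p => h.loc (m * s p) (c.qf A p)
  have k4 := (abs_integral_le_integral_abs (μ := μ)).trans
    (integral_mono (intg (by fun_prop)) (intg (by fun_prop)) fun p => h.lin (m * s p))
  have k5 := integral_mono (μ := μ) (intg (by fun_prop)) (intg (by fun_prop))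
    fun p => show exp (B (m * s p) / m) * log (∫ p, exp (B (m * s p) / m) ∂μ) +
        exp (B (m * s p) / m) - ∫ p, exp (B (m * s p) / m) ∂μ ≤
        exp (B (m * s p) / m) * (B (m * s p) / m) by
      have e := exp_pos (B (m * s p) / m)
      have := mul_le_mul_of_nonneg_left (log_le_sub_one_of_pos (div_pos zp e)) e.le
      rw [log_div zp.ne' e.ne', log_exp, mul_sub, mul_sub, mul_div_cancel₀ _ e.ne'] at this
      linarith
  unfold KK at k3
  simp (disch := exact intg (by fun_prop)) only [integral_add, integral_sub, integral_const_mul,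
    integral_mul_const, integral_div, integral_const, probReal_univ, one_smul, h0, sub_zero]
    at k2 k3 k4 k5
  rw [integral_const_mul, integral_sub (intg (by fun_prop)) (intg (by fun_prop)),
    integral_sub (intg (by fun_prop)) (intg (by fun_prop)), integral_const_mul,
    integral_const_mul] at k1
  have v2 : 0 ≤ ∫ p, c.qf A p ^ 2 ∂μ := integral_nonneg fun p => sq_nonneg _
  have v3 : 0 ≤ ∫ p, (Y (m * s p) - c.qf A p) ^ 2 ∂μ := integral_nonneg fun p => sq_nonneg _
  have key : (m : ℝ) ^ 2 * Psi c B s ≤ -(∫ p, Y (m * s p) ^ 2 ∂μ) / 100 :=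
    arith hC h6 (by positivity) (div_mul_cancel₀ _ hp.ne').le hm3 v2 v3 a3 a4 k1 k2 k3 k4
      (by linarith) (mul_le_mul_of_nonneg_left (log_le_sub_one_of_pos zp) zp.le) b1 b2
  have mp : (0 : ℝ) < m ^ 2 := by positivity
  refine ⟨?_, fun k => ?_⟩
  · by_contra k
    have := mul_pos mp (not_le.1 k)
    linarith
  · have := mul_nonneg mp.le k
    linarith

end Pool.Agent.MP_c98b3a_gt.CF

end

end MrgPart3

-- ======== part 4: formerly Pool.Agent.MP_c98b3a_gt.cf.PRJ
section MrgPart4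

/-! Moments of the coordinates up to order four and the quadratic harmonic part of a function. -/

open scoped Manifold ContDiff Matrix
open MeasureTheory Real

noncomputable section

namespace Pool.Agent.MP_c98b3a_gt.CF

namespace PRJ

variable {m : ℕ} {M : Type} [TopologicalSpace M] [MeasurableSpace M] {μ : Measure M}
  (c : SC m M μ)

theorem xc (i : Fin (m + 1)) : Continuous (c.x i) := c.cont (c.xsm i)

theorem mulR {F G H : M → ℝ} (hF : c.Sm F) (hG : c.Sm G) (hH : c.Sm H) (p : M) :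
    c.Γ H (fun p => F p * G p) p = F p * c.Γ H G p + G p * c.Γ H F p := by
  rw [c.Γsymm hH (c.mul hF hG), c.Γmul hF hG hH, c.Γsymm hG hH, c.Γsymm hF hH]

theorem sm_sum {α : Type} (s : Finset α) {F : α → M → ℝ} (h : ∀ a, c.Sm (F a)) :
    c.Sm fun p => ∑ a ∈ s, F a p := by
  classical
  induction s using Finset.induction_on with
  | empty => simpa using c.const 0
  | insert a s ha ih =>
    simp only [Finset.sum_insert ha]
    exact c.add (h a) ih

theorem gam_sum {α : Type} (s : Finset α) {F : α → M → ℝ} (h : ∀ a, c.Sm (F a)) {G : M → ℝ}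
    (hG : c.Sm G) (p : M) : c.Γ (fun p => ∑ a ∈ s, F a p) G p = ∑ a ∈ s, c.Γ (F a) G p := by
  classical
  induction s using Finset.induction_on with
  | empty => simpa using c.Γconst 0 G p
  | insert a s ha ih =>
    simp only [Finset.sum_insert ha]
    rw [c.Γadd (h a) (sm_sum c s h) hG, ih]

theorem gam_smul (a : ℝ) {F G : M → ℝ} (hF : c.Sm F) (hG : c.Sm G) (p : M) :
    c.Γ (fun p => a * F p) G p = a * c.Γ F G p := by
  rw [c.Γmul (c.const a) hF hG, c.Γconst, mul_zero, add_zero]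

theorem gam_qf (A : Matrix (Fin (m + 1)) (Fin (m + 1)) ℝ) {G : M → ℝ} (hG : c.Sm G) (p : M) :
    c.Γ (c.qf A) G p = ∑ i, ∑ j, A i j * c.Γ (fun p => c.x i p * c.x j p) G p := by
  have h : ∀ i j, c.Sm fun p => A i j * (c.x i p * c.x j p) := fun i j =>
    c.mul (c.const _) (c.mul (c.xsm i) (c.xsm j))
  refine (gam_sum c Finset.univ (fun i => sm_sum c Finset.univ (h i)) hG p).trans ?_
  refine Finset.sum_congr rfl fun i _ => (gam_sum c Finset.univ (h i) hG p).trans ?_
  exact Finset.sum_congr rfl fun j _ => gam_smul c _ (c.mul (c.xsm i) (c.xsm j)) hG p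

variable [CompactSpace M] [BorelSpace M] [IsProbabilityMeasure μ]

theorem itg {f : M → ℝ} (h : Continuous f) : Integrable f μ :=
  (BoundedContinuousFunction.mkOfCompact ⟨f, h⟩).integrable μ

/-- the form of the identity of Stein that is used for all moments -/
theorem st {G : M → ℝ} (hG : c.Sm G) (i j : Fin (m + 1)) :
    ∫ p, c.x i p * c.Γ (c.x j) G p ∂μ =
      (m + 1) * ∫ p, c.x i p * c.x j p * G p ∂μ - (if j = i then 1 else 0) * ∫ p, G p ∂μ := by
  have a := c.stein j (c.mul (c.xsm i) hG)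
  have xi := xc c i
  have xj := xc c j
  have g := c.cont hG
  have g2 := c.Γcont (c.xsm j) hG
  have e : ∀ p, c.Γ (c.x j) (fun p => c.x i p * G p) p = c.x i p * c.Γ (c.x j) G p +
      ((if j = i then 1 else 0) * G p - c.x i p * c.x j p * G p) := fun p => by
    rw [mulR c (c.xsm i) hG (c.xsm j), c.Γx]; ring
  have e2 : ∀ p, c.x j p * (c.x i p * G p) = c.x i p * c.x j p * G p := fun p => by ring
  simp only [e, e2] at a
  rw [integral_add (itg (by fun_prop)) (itg (by fun_prop)),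
    integral_sub (itg (by fun_prop)) (itg (by fun_prop)), integral_const_mul] at a
  linarith

omit [CompactSpace M] [BorelSpace M] [IsProbabilityMeasure μ] in
theorem m1 (hm : m ≠ 0) (i : Fin (m + 1)) : ∫ p, c.x i p ∂μ = 0 := by
  have a := c.stein i (c.const 1)
  have e : ∀ p, c.Γ (c.x i) (fun _ => 1) p = 0 := fun p => by
    rw [c.Γsymm (c.xsm i) (c.const 1), c.Γconst]
  simpa [e, hm] using a

theorem m2 (i j : Fin (m + 1)) :
    (m + 1) * ∫ p, c.x i p * c.x j p ∂μ = if j = i then 1 else 0 := by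
  have a := st c (c.const 1) i j
  have e : ∀ p, c.Γ (c.x j) (fun _ => 1) p = 0 := fun p => by
    rw [c.Γsymm (c.xsm j) (c.const 1), c.Γconst]
  simp only [e, mul_zero, mul_one, integral_const, probReal_univ, smul_eq_mul] at a
  linarith

theorem m3 (hm : m ≠ 0) (i j k : Fin (m + 1)) : ∫ p, c.x i p * c.x j p * c.x k p ∂μ = 0 := by
  have a := st c (c.xsm k) i j
  have xi := xc c i
  have xj := xc c j
  have xk := xc c k
  have e : ∀ p, c.x i p * c.Γ (c.x j) (c.x k) p =
      (if j = k then 1 else 0) * c.x i p - c.x i p * c.x j p * c.x k p := fun p => by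
    rw [c.Γx]; ring
  simp only [e] at a
  rw [integral_sub (itg (by fun_prop)) (itg (by fun_prop)), integral_const_mul, m1 c hm,
    m1 c hm] at a
  have : ((m : ℝ) + 2) * ∫ p, c.x i p * c.x j p * c.x k p ∂μ = 0 := by linarith
  exact (mul_eq_zero.1 this).resolve_left (by positivity)

theorem m4 (i j k l : Fin (m + 1)) :
    (m + 1) * (m + 3) * ∫ p, c.x i p * c.x j p * (c.x k p * c.x l p) ∂μ =
      (if j = l then 1 else 0) * (if k = i then 1 else 0) +
        (if j = k then 1 else 0) * (if l = i then 1 else 0) +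
          (if j = i then 1 else 0) * (if l = k then 1 else 0) := by
  have a := st c (c.mul (c.xsm k) (c.xsm l)) i j
  have xi := xc c i
  have xj := xc c j
  have xk := xc c k
  have xl := xc c l
  have e : ∀ p, c.x i p * c.Γ (c.x j) (fun p => c.x k p * c.x l p) p =
      (if j = l then 1 else 0) * (c.x i p * c.x k p) + ((if j = k then 1 else 0) *
        (c.x i p * c.x l p) - 2 * (c.x i p * c.x j p * (c.x k p * c.x l p))) := fun p => by
    rw [mulR c (c.xsm k) (c.xsm l) (c.xsm j), c.Γx, c.Γx]; ring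
  simp only [e] at a
  rw [integral_add (itg (by fun_prop)) (itg (by fun_prop)),
    integral_sub (itg (by fun_prop)) (itg (by fun_prop)), integral_const_mul, integral_const_mul,
    integral_const_mul] at a
  rw [← m2 c i k, ← m2 c i l, ← m2 c k l]
  linear_combination (-((m : ℝ) + 1)) * a

theorem int_qf (A : Matrix (Fin (m + 1)) (Fin (m + 1)) ℝ) {G : M → ℝ} (hG : Continuous G) :
    ∫ p, c.qf A p * G p ∂μ = ∑ i, ∑ j, A i j * ∫ p, c.x i p * c.x j p * G p ∂μ := by
  have x := xc c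
  simp only [SC.qf, Finset.sum_mul, mul_assoc]
  rw [integral_finsetSum _ fun i _ => itg (by fun_prop)]
  refine Finset.sum_congr rfl fun i _ => ?_
  rw [integral_finsetSum _ fun j _ => itg (by fun_prop)]
  exact Finset.sum_congr rfl fun j _ => integral_const_mul _ _

theorem q0 (A : Matrix (Fin (m + 1)) (Fin (m + 1)) ℝ) (h : A.trace = 0) :
    ∫ p, c.qf A p ∂μ = 0 := by
  have a := int_qf c A (G := fun _ => 1) continuous_const
  simp only [mul_one] at a
  have : ((m : ℝ) + 1) * ∫ p, c.qf A p ∂μ = 0 := by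
    rw [a, ← h]
    simp only [Finset.mul_sum, mul_left_comm ((m : ℝ) + 1), m2 c]
    simp [Matrix.trace]
  exact (mul_eq_zero.1 this).resolve_left (by positivity)

theorem q2 (A : Matrix (Fin (m + 1)) (Fin (m + 1)) ℝ) (h : A.trace = 0) (k l : Fin (m + 1)) :
    (m + 1) * (m + 3) * ∫ p, c.qf A p * (c.x k p * c.x l p) ∂μ = A k l + A l k := by
  have x := xc c
  rw [int_qf c A (by fun_prop)]
  simp only [Finset.mul_sum, mul_left_comm (((m : ℝ) + 1) * (m + 3)), m4 c]
  have : ∑ i, A i i = 0 := h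
  simp [mul_add, Finset.sum_add_distrib, this]

theorem eig (A : Matrix (Fin (m + 1)) (Fin (m + 1)) ℝ) (h : A.trace = 0) {G : M → ℝ}
    (hG : c.Sm G) : ∫ p, c.Γ (c.qf A) G p ∂μ = 2 * (m + 1) * ∫ p, c.qf A p * G p ∂μ := by
  have x := xc c
  have g := fun i => c.Γcont (c.xsm i) hG
  have e : ∀ i j, ∫ p, c.Γ (fun p => c.x i p * c.x j p) G p ∂μ =
      2 * (m + 1) * ∫ p, c.x i p * c.x j p * G p ∂μ -
        2 * ((if j = i then 1 else 0) * ∫ p, G p ∂μ) := fun i j => by
    simp only [c.Γmul (c.xsm i) (c.xsm j) hG]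
    rw [integral_add (itg (by fun_prop)) (itg (by fun_prop)), st c hG, st c hG]
    simp only [mul_comm (c.x j _) (c.x i _), eq_comm (a := i)]
    ring
  have g2 := fun i j => c.Γcont (c.mul (c.xsm i) (c.xsm j)) hG
  simp only [gam_qf c A hG]
  rw [integral_finsetSum _ fun i _ => itg (by fun_prop), int_qf c A (c.cont hG)]
  have e2 : ∀ i, ∫ p, ∑ j, A i j * c.Γ (fun p => c.x i p * c.x j p) G p ∂μ =
      2 * (m + 1) * ∑ j, A i j * ∫ p, c.x i p * c.x j p * G p ∂μ -
        A i i * (2 * ∫ p, G p ∂μ) := fun i => by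
    rw [integral_finsetSum _ fun j _ => itg (by fun_prop)]
    simp only [integral_const_mul, e, mul_sub, Finset.sum_sub_distrib, Finset.mul_sum]
    congr 1
    · exact Finset.sum_congr rfl fun j _ => by ring
    · simp
  have : ∑ i, A i i = 0 := h
  simp only [e2, Finset.sum_sub_distrib, ← Finset.mul_sum, ← Finset.sum_mul, this]
  ring

end PRJ

open PRJ in
theorem prj : S_PRJ := by
  intro m M _ _ _ _ _ μ _ c F hF h0 h1
  have x := xc c
  set A : Matrix (Fin (m + 1)) (Fin (m + 1)) ℝ :=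
    fun i j => (m + 1) * (m + 3) / 2 * ∫ p, F p * (c.x i p * c.x j p) ∂μ with hA
  have sy : ∀ i j, A j i = A i j := fun i j => by simp only [hA, mul_comm (c.x j _) (c.x i _)]
  have tr : A.trace = 0 := by
    simp only [Matrix.trace, Matrix.diag, hA, ← Finset.mul_sum]
    rw [← integral_finsetSum _ fun i _ => itg (by fun_prop)]
    simp only [← Finset.mul_sum, ← sq, c.xsq, mul_one, h0, mul_zero]
  have qc : Continuous (c.qf A) := by unfold SC.qf; fun_prop
  refine ⟨A, Matrix.IsSymm.ext sy, tr, q0 c A tr, fun i => ?_, fun i j => ?_,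
    fun G hG => eig c A tr hG⟩
  · rw [int_qf c A (x i)]
    rcases eq_or_ne m 0 with rfl | hm
    · have : A 0 0 = 0 := by simpa [Matrix.trace] using tr
      simp [this]
    · simp [m3 c hm]
  · simp only [sub_mul]
    rw [integral_sub (itg (by fun_prop)) (itg (by fun_prop))]
    have a := q2 c A tr i j
    rw [sy i j] at a
    have : ((m : ℝ) + 1) * (m + 3) * (∫ p, F p * (c.x i p * c.x j p) ∂μ -
        ∫ p, c.qf A p * (c.x i p * c.x j p) ∂μ) = 0 := by
      rw [mul_sub, a, hA]; ring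
    exact (mul_eq_zero.1 this).resolve_left (by positivity)

end Pool.Agent.MP_c98b3a_gt.CF

end

end MrgPart4

-- ======== part 5: formerly Pool.Agent.MP_c98b3a_gt.cf.DIV
section MrgPart5

/-! Integration by parts with two conformally flat charts. -/

open scoped Manifold ContDiff Matrix Topology
open MeasureTheory Real

noncomputable section

namespace Pool.Agent.MP_c98b3a_gt.CF

namespace DIV

variable {ι M : Type} [Fintype ι] [DecidableEq ι] [TopologicalSpace M]
  [ChartedSpace (Euc ι) M] [IsManifold 𝓘(ℝ, Euc ι) ∞ M] {g : Metrics 𝓘(ℝ, Euc ι) M}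
  {e : OpenPartialHomeomorph M (Euc ι)} {σ : Euc ι → ℝ} {a : M}

theorem cd (h : Flat g e σ a) {F : M → ℝ} (hF : Smo ι F) : ContDiff ℝ ∞ (F ∘ e.symm) :=
  contDiffOn_univ.1 (h.tgt ▸ h.chart.cdOn hF)

theorem supp [CompactSpace M] (h : Flat g e σ a) {F : M → ℝ} (h0 : ∀ᶠ x in 𝓝 a, F x = 0) :
    HasCompactSupport (F ∘ e.symm) := by
  have hs : tsupport F ⊆ e.source := by
    rw [h.src]
    rintro x hx rfl
    exact (notMem_tsupport_iff_eventuallyEq.2 h0) hx
  refine HasCompactSupport.intro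
    ((isClosed_tsupport F).isCompact.image_of_continuousOn (e.continuousOn.mono hs)) fun y hy => ?_
  by_contra k
  exact hy ⟨e.symm y, subset_tsupport F k, e.right_inv (h.tgt ▸ Set.mem_univ y)⟩

variable [Nonempty ι] [T2Space M] [CompactSpace M] [MeasurableSpace M] [BorelSpace M]

theorem int (h2 : S_SCAL) (h : Flat g e σ a) {F : M → ℝ} (hF : Continuous F) :
    ∫ p, F p ∂vol g = ∫ y, F (e.symm y) * exp (Fintype.card ι * σ y) := by
  have h0 : vol g {a} = 0 := by
    rw [isVolume_vol g a {a} (measurableSet_singleton a)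
      (Set.singleton_subset_iff.2 (mem_chart_source (Euc ι) a)), Set.image_singleton]
    exact setLIntegral_measure_zero _ _ (measure_singleton _)
  have h1 := setIntegral_chart g h.chart hF.measurable
  rw [h.src, h.tgt, Measure.restrict_univ,
    Measure.restrict_eq_self_of_ae_mem (s := {a}ᶜ) (compl_mem_ae_iff.2 h0)] at h1
  rw [h1]
  refine integral_congr_ae (Filter.Eventually.of_forall fun y => ?_)
  beta_reduce
  rw [h.gm y, (h2 ι σ h.sm y).2.2]

theorem one (hG : GamF g) (h2 : S_SCAL) (h : Flat g e σ a) {w φ ψ F : M → ℝ} (hw : Smo ι w)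
    (hφ : Smo ι φ) (hψ : Continuous ψ)
    (hd : ∀ y, ∑ k, pd k (fun z => w (e.symm z) * exp ((Fintype.card ι - 2) * σ z) *
      pd k (φ ∘ e.symm) z) y = ψ (e.symm y) * exp (Fintype.card ι * σ y))
    (hF : Smo ι F) (h0 : ∀ᶠ x in 𝓝 a, F x = 0) :
    ∫ p, (w p * gam g φ F p + ψ p * F p) ∂vol g = 0 := by
  have hX : ∀ k, ContDiff ℝ ∞ fun z => w (e.symm z) * exp ((Fintype.card ι - 2) * σ z) *
      pd k (φ ∘ e.symm) z := fun k =>
    ((cd h hw).mul (contDiff_const.mul h.sm).exp).mul (cd_pd (cd h hφ) k)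
  have h3 := fun k => integral_pd_eq_zero ((cd h hF).mul (hX k)) ((supp h h0).mul_right) k
  have h4 : ∫ y, ∑ k, pd k (fun z => (F ∘ e.symm) z * (w (e.symm z) *
      exp ((Fintype.card ι - 2) * σ z) * pd k (φ ∘ e.symm) z)) y = 0 := by
    rw [integral_finsetSum _ fun k _ => (h3 k).1]
    exact Finset.sum_eq_zero fun k _ => (h3 k).2
  rw [int h2 h (F := fun p => w p * gam g φ F p + ψ p * F p)
    ((hw.continuous.mul (hG.cont hφ hF)).add (hψ.mul hF.continuous)), ← h4]
  refine integral_congr_ae (Filter.Eventually.of_forall fun y => ?_)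
  beta_reduce
  have e1 : gmat g e = fun z => exp (2 * σ z) • (1 : Matrix ι ι ℝ) := funext h.gm
  have e2 : exp (-2 * σ y) * exp (Fintype.card ι * σ y) = exp ((Fintype.card ι - 2) * σ y) := by
    rw [← exp_add]; congr 1; ring
  rw [Finset.sum_congr rfl fun k _ => pd_mul (dAt_of_cd (cd h hF) y) (dAt_of_cd (hX k) y) k,
    Finset.sum_add_distrib, ← Finset.mul_sum, hd y,
    hG.chart hφ hF h.chart y (h.tgt ▸ Set.mem_univ y), e1, (h2 ι σ h.sm y).2.1, ← e2,
    Finset.mul_sum, Finset.mul_sum, add_mul, Finset.sum_mul]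
  congr 1
  · exact Finset.sum_congr rfl fun k _ => by ring
  · simp only [Function.comp]; ring

end DIV

theorem div_ (h1 : S_GAM) (h2 : S_SCAL) : S_DIV := by
  intro ι M _ _ _ _ _ _ _ _ _ _ g e σ a e' σ' a' h h' hne
  refine ⟨fun F hF => DIV.int h2 h hF, fun w φ ψ hw hφ hψ hd hd' F hF => ?_⟩
  have hG := (h1 ι M g).1
  obtain ⟨χ, c0, c1, -⟩ := exists_contMDiffMap_zero_one_nhds_of_isClosed (n := ⊤) 𝓘(ℝ, Euc ι)
    (isClosed_singleton (x := a)) (isClosed_singleton (x := a'))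
    (Set.disjoint_singleton.2 hne)
  rw [nhdsSet_singleton] at c0 c1
  have s1 : Smo ι fun p => χ p * F p := χ.contMDiff.mul hF
  have s2 : Smo ι fun p => (1 - χ p) * F p := (contMDiff_const.sub χ.contMDiff).mul hF
  have k1 := DIV.one hG h2 h hw hφ hψ hd s1 (c0.mono fun x hx => by rw [hx, zero_mul])
  have k2 := DIV.one hG h2 h' hw hφ hψ hd' s2 (c1.mono fun x hx => by rw [hx, sub_self, zero_mul])
  have i1 := fun {G : M → ℝ} (hs : Smo ι G) => integrable_vol g
    ((hw.continuous.mul (hG.cont hφ hs)).add (hψ.mul hs.continuous))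
  have k3 : ∫ p, (w p * gam g φ F p + ψ p * F p) ∂vol g = 0 := by
    rw [← add_zero (0 : ℝ)]
    refine Eq.trans ?_ ((integral_add (i1 s1) (i1 s2)).trans (congrArg₂ (· + ·) k1 k2))
    refine integral_congr_ae (Filter.Eventually.of_forall fun p => ?_)
    have e1 : F = fun p => χ p * F p + (1 - χ p) * F p := funext fun p => by ring
    have e2 := hG.add s1 s2 φ p
    rw [← e1, hG.symm F, hG.symm _ φ, hG.symm _ φ] at e2
    simp only [Pi.add_apply, Pi.mul_apply]
    rw [e2]; ring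
  have k4 := integral_add (f := fun p => w p * gam g φ F p) (g := fun p => ψ p * F p)
    (integrable_vol g (hw.continuous.mul (hG.cont hφ hF))) (integrable_vol g (hψ.mul hF.continuous))
  linarith

end Pool.Agent.MP_c98b3a_gt.CF

end

end MrgPart5

-- ======== part 6: formerly Pool.Agent.MP_c98b3a_gt.cf.Mass
section MrgPart6

/-! The volume of the sphere in stereographic coordinates, and the frame. -/

open MeasureTheory Real Set

noncomputable section

namespace Pool.Agent.MP_c98b3a_gt.CF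

namespace Mass

theorem radial (m : ℕ) (hm : 1 ≤ m) {a k : ℝ} (ha : 0 < a) (hk : 0 < k) :
    Gamma m * ∫ y : Euc (Fin m), exp (-m * log (a * ‖y‖ ^ 2 + k))
      = (π / a) ^ (m / 2 : ℝ) * ((1 / k) ^ (m / 2 : ℝ) * Gamma (m / 2)) := by
  have hm0 : (0 : ℝ) < m := by exact_mod_cast hm
  set f : Euc (Fin m) → ℝ → ℝ := fun y s =>
    s ^ ((m : ℝ) - 1) * exp (-(k * s)) * exp (-(s * a) * ‖y‖ ^ 2) with hf
  have hg : ∀ s : ℝ, 0 < s →
      ∫ y : Euc (Fin m), exp (-(s * a) * ‖y‖ ^ 2) = (π / (s * a)) ^ (m / 2 : ℝ) := fun s hs => by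
    rw [GaussianFourier.integral_rexp_neg_mul_sq_norm (mul_pos hs ha)]
    simp
  have h1 : ∀ s ∈ Ioi (0 : ℝ), ∫ y, f y s
      = (π / a) ^ (m / 2 : ℝ) * (s ^ ((m / 2 : ℝ) - 1) * exp (-(k * s))) := fun s hs => by
    have hs : 0 < s := hs
    simp only [hf]
    rw [integral_const_mul, hg s hs, show π / (s * a) = π / a / s by field_simp,
      div_rpow (by positivity) hs.le, show (m / 2 : ℝ) - 1 = (m - 1) - m / 2 by ring,
      rpow_sub hs ((m : ℝ) - 1)]
    ring
  have h2 := integral_rpow_mul_exp_neg_mul_Ioi (half_pos hm0) hk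
  have h3 : ∀ y, ∫ s in Ioi (0 : ℝ), f y s = Gamma m * exp (-m * log (a * ‖y‖ ^ 2 + k)) :=
    fun y => by
      have hq : 0 < a * ‖y‖ ^ 2 + k := by positivity
      have := integral_rpow_mul_exp_neg_mul_Ioi hm0 hq
      rw [one_div, inv_rpow hq.le, ← rpow_neg hq.le, rpow_def_of_pos hq, mul_comm (log _)] at this
      rw [mul_comm (Gamma _), ← this]
      refine integral_congr_ae (Filter.Eventually.of_forall fun s => ?_)
      simp only [hf]
      rw [mul_assoc, ← exp_add]
      congr 2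
      ring
  have h4 : Integrable (Function.uncurry f) (volume.prod (volume.restrict (Ioi (0 : ℝ)))) := by
    refine (integrable_prod_iff' (Measurable.aestronglyMeasurable (by
      simp only [hf, Function.uncurry_def]; fun_prop))).2 ⟨?_, ?_⟩
    · refine (ae_restrict_iff' measurableSet_Ioi).2 (Filter.Eventually.of_forall fun s hs => ?_)
      have hs : 0 < s := hs
      exact ((Integrable.of_integral_ne_zero (by rw [hg s hs]; positivity)).const_mul
        (s ^ ((m : ℝ) - 1) * exp (-(k * s))) :)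
    · refine ((Integrable.of_integral_ne_zero (h2.trans_ne (by
        have := Gamma_pos_of_pos (half_pos hm0); positivity))).const_mul
        ((π / a) ^ (m / 2 : ℝ))).congr ((ae_restrict_iff' measurableSet_Ioi).2
        (Filter.Eventually.of_forall fun s hs => ?_))
      simp only []
      rw [← h1 s hs]
      have hs : 0 < s := hs
      refine integral_congr_ae (Filter.Eventually.of_forall fun y => ?_)
      exact (norm_of_nonneg (by simp only [hf]; positivity)).symm
  have h5 := integral_integral_swap h4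
  rw [setIntegral_congr_fun measurableSet_Ioi h1, integral_const_mul, h2] at h5
  rw [← h5, ← integral_const_mul]
  simp only [h3]

end Mass

theorem mass : S_MASS := by
  rintro m ⟨a, b, c⟩ hm ha hd
  simp only [disc, real_inner_self_eq_norm_sq] at ha hd ⊢
  set D := 2 * a * c + 2 * a * c - ‖b‖ ^ 2 with hD
  have hk : 0 < D / (4 * a) := by positivity
  have hq : ∀ y : Euc (Fin m), quad (a, b, c) y
      = a * ‖y + (2 * a)⁻¹ • b‖ ^ 2 + D / (4 * a) := fun y => by
    rw [norm_add_sq_real, norm_smul, inner_smul_right, real_inner_comm, mul_pow, norm_eq_abs,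
      sq_abs, quad, hD]
    field_simp
    ring
  refine ⟨fun y => by rw [hq]; positivity, ?_⟩
  simp only [hq]
  rw [integral_add_right_eq_self
    (fun y : Euc (Fin m) => exp (-m * log (a * ‖y‖ ^ 2 + D / (4 * a)))) ((2 * a)⁻¹ • b)]
  have hm0 : (0 : ℝ) < m := by exact_mod_cast hm
  have g1 := Gamma_pos_of_pos hm0
  have g2 := Gamma_pos_of_pos (show (0 : ℝ) < m / 2 + 1 / 2 by positivity)
  have g3 := Real.Gamma_mul_Gamma_add_half (m / 2 : ℝ)
  rw [show 2 * (m / 2 : ℝ) = m by ring] at g3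
  refine mul_left_cancel₀ g1.ne' ?_
  rw [Mass.radial m hm ha hk, ← mul_assoc, ← mul_rpow (by positivity) (by positivity),
    show π / a * (1 / (D / (4 * a))) = π * (2 ^ (2 : ℝ) * D⁻¹) by rw [rpow_two]; field_simp; ring,
    mul_rpow pi_pos.le (by positivity), mul_rpow (by positivity) (by positivity),
    ← rpow_mul two_pos.le, show 2 * (m / 2 : ℝ) = m by ring, inv_rpow hd.le, ← rpow_neg hd.le,
    rpow_def_of_pos hd, mul_comm (log D), volS, add_div, rpow_add pi_pos, ← sqrt_eq_rpow,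
    eq_div_of_mul_eq g2.ne' g3, rpow_sub two_pos, rpow_one]
  have : (0 : ℝ) < 2 ^ (m : ℝ) := by positivity
  field_simp

theorem frame : S_FR := by
  rintro ι _ _ ⟨c, w⟩ hc h
  simp only [lor, real_inner_self_eq_norm_sq] at hc h
  have hc1 : 1 + c ≠ 0 := by positivity
  have hw : ‖w‖ ^ 2 = c ^ 2 - 1 := by linarith
  have hlt : ‖w‖ < c := abs_lt_of_sq_lt_sq' (by linarith) hc.le |>.2
  have ha : ∀ i (z : Euc ι), aff (fr (c, w) i) z
      = ((1 - inner ℝ w z / (1 + c)) • w - z) i := fun i z => by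
    simp only [aff, fr, inner_add_left, real_inner_smul_left, EuclideanSpace.inner_single_left]
    simp
    ring
  have hp : ∀ z : Euc ι, ‖z‖ = 1 → 0 < aff (c, w) z := fun z hz => by
    have := real_inner_le_norm w z
    rw [hz] at this
    simp only [aff]
    linarith
  refine ⟨hlt, fun i => ?_, fun i j => ?_, fun z hz => ⟨hp z hz, ?_⟩, fun z z' hz hz' he => ?_⟩
  · simp only [lor, fr, inner_add_left, real_inner_smul_left, EuclideanSpace.inner_single_left,
      real_inner_self_eq_norm_sq, hw]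
    simp
    field_simp
    ring
  · simp only [lor, fr, inner_add_left, inner_add_right, real_inner_smul_left,
      real_inner_smul_right, EuclideanSpace.inner_single_left, EuclideanSpace.inner_single_right,
      real_inner_self_eq_norm_sq, hw]
    by_cases hij : i = j <;> simp [hij, eq_comm] <;> field_simp <;> ring
  · have := (hp z hz).ne'
    simp only [div_pow, ← Finset.sum_div, ha]
    rw [div_eq_one_iff_eq (pow_ne_zero 2 this), ← EuclideanSpace.real_norm_sq_eq,
      norm_sub_sq_real, norm_smul, real_inner_smul_left, mul_pow, norm_eq_abs, sq_abs, hw, hz, aff]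
    field_simp
    ring
  · have key : ∀ z : Euc ι, ‖z‖ = 1 → c - ∑ i, w i * (aff (fr (c, w) i) z / aff (c, w) z)
        = (aff (c, w) z)⁻¹ := fun z hz => by
      have := (hp z hz).ne'
      have e : ∑ i, w i * ((1 - inner ℝ w z / (1 + c)) • w - z) i
          = inner ℝ ((1 - inner ℝ w z / (1 + c)) • w - z) w := by
        simp [PiLp.inner_apply]
      simp only [← mul_div_assoc, ← Finset.sum_div, ha]
      rw [e, inner_sub_left, real_inner_smul_left, real_inner_self_eq_norm_sq, hw,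
        real_inner_comm w z]
      simp only [aff] at this ⊢
      field_simp
      ring
    have h1 := key z hz
    simp only [he] at h1
    have h2 : aff (c, w) z = aff (c, w) z' := inv_injective (h1.symm.trans (key z' hz'))
    have h3 : inner ℝ w z = inner ℝ w z' := by simpa [aff] using h2
    ext i
    have h4 := he i
    rw [h2, div_left_inj' (hp z' hz').ne', ha, ha, h3] at h4
    simpa using h4

end Pool.Agent.MP_c98b3a_gt.CF

end

end MrgPart6

-- ======== part 7: formerly Pool.Agent.MP_c98b3a_gt.cf.QE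
section MrgPart7

/-! Identities for quadratic polynomials. -/

open scoped ContDiff
open Real

noncomputable section

namespace Pool.Agent.MP_c98b3a_gt.CF

namespace QE

variable {ι : Type} [Fintype ι] [DecidableEq ι] (t u : ℝ × Euc ι × ℝ) (k : ι) (y : Euc ι)

/-- the coordinate derivatives of a quadratic polynomial -/
def dq (t : ℝ × Euc ι × ℝ) (k : ι) (y : Euc ι) : ℝ := 2 * t.1 * y k + t.2.1 k

omit [DecidableEq ι] in
theorem quad_eq : quad t = fun y => t.1 * ∑ j, y j * y j + ∑ j, t.2.1 j * y j + t.2.2 := by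
  funext y
  rw [quad, EuclideanSpace.real_norm_sq_eq, PiLp.inner_apply]
  simp only [sq, RCLike.inner_apply, conj_trivial, mul_comm]

omit [DecidableEq ι] in
theorem cd_quad : ContDiff ℝ ∞ (quad t) := by
  rw [quad_eq]
  exact ((contDiff_const.mul (ContDiff.sum fun j _ => (cd_coord j).mul (cd_coord j))).add
    (ContDiff.sum fun j _ => contDiff_const.mul (cd_coord j))).add contDiff_const

omit [DecidableEq ι] in
theorem d_quad : DifferentiableAt ℝ (quad t) y := dAt_of_cd (cd_quad t) y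

omit [DecidableEq ι] in
theorem d_dq : DifferentiableAt ℝ (dq t k) y :=
  dAt_of_cd ((contDiff_const.mul (cd_coord k)).add contDiff_const) y

theorem pd_quad : pd k (quad t) y = dq t k y := by
  have c := fun j : ι => dAt_of_cd (cd_coord j) y
  have a : ∀ j ∈ Finset.univ, DifferentiableAt ℝ (fun z : Euc ι => z j * z j) y :=
    fun j _ => (c j).mul (c j)
  have b : ∀ j ∈ Finset.univ, DifferentiableAt ℝ (fun z : Euc ι => t.2.1 j * z j) y :=
    fun j _ => (c j).const_mul _
  have a' := DifferentiableAt.fun_sum a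
  have b' := DifferentiableAt.fun_sum b
  rw [quad_eq, pd_add ((a'.const_mul _).fun_add b') (differentiableAt_const _),
    pd_add (a'.const_mul _) b', pd_const_mul a', pd_sum a, pd_sum b, pd_const]
  simp only [pd_mul (c _) (c _), pd_const_mul (c _), pd_proj, ite_mul, mul_ite, one_mul, mul_one,
    zero_mul, mul_zero, Finset.sum_add_distrib, Finset.sum_ite_eq', Finset.mem_univ, if_true, dq]
  ring

theorem pd_dq : pd k (dq t k) y = 2 * t.1 := by
  have c := dAt_of_cd (cd_coord k) y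
  unfold dq
  rw [pd_add (c.const_mul _) (differentiableAt_const _), pd_const_mul c, pd_const, pd_proj]
  simp

omit [DecidableEq ι] in
theorem sum_dq : ∑ k, dq t k y * dq u k y =
    2 * t.1 * quad u y + 2 * u.1 * quad t y - disc t u := by
  have e : ∀ k, dq t k y * dq u k y = 4 * t.1 * u.1 * (y k * y k) + 2 * t.1 * (u.2.1 k * y k) +
      2 * u.1 * (t.2.1 k * y k) + u.2.1 k * t.2.1 k := fun k => by
    unfold dq
    ring
  simp only [e, quad_eq, disc, PiLp.inner_apply, RCLike.inner_apply, conj_trivial,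
    Finset.sum_add_distrib, ← Finset.mul_sum]
  ring

omit [DecidableEq ι] in
theorem disc_comm : disc t u = disc u t := by
  rw [disc, disc, real_inner_comm]
  ring

theorem pd_div {f g : Euc ι → ℝ} (hf : ContDiff ℝ ∞ f) (hg : ContDiff ℝ ∞ g) (h0 : ∀ z, g z ≠ 0) :
    pd k (fun z => f z / g z) y = (pd k f y * g y - f y * pd k g y) / g y ^ 2 := by
  have h := pd_mul (dAt_of_cd (hf.div hg h0) y) (dAt_of_cd hg y) k
  simp only [Pi.div_apply, div_mul_cancel₀ _ (h0 _)] at h
  have := h0 y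
  rw [show pd k f y = _ from h]
  change pd k (f / g) y = _
  field_simp
  ring

end QE

open QE

theorem qe : S_QE := by
  intro ι _ _ t ht hd
  have hp : ∀ y, 0 < quad t y := fun y => by
    have a := sum_dq t t y
    have b : 0 ≤ ∑ k, dq t k y * dq t k y := Finset.sum_nonneg fun k _ => mul_self_nonneg _
    by_contra h
    nlinarith [mul_nonneg ht.le (neg_nonneg.2 (not_lt.1 h))]
  have h0 : ∀ y, quad t y ≠ 0 := fun y => (hp y).ne'
  have hq : ∀ u k z, pd k (fun z => quad u z / quad t z) z =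
      (dq u k z * quad t z - quad u z * dq t k z) / quad t z ^ 2 := fun u k z => by
    rw [pd_div k z (cd_quad u) (cd_quad t) h0, pd_quad, pd_quad]
  have dl : ∀ y, DifferentiableAt ℝ (fun z => log (quad t z)) y :=
    fun y => (d_quad t y).log (h0 y)
  refine ⟨hp, fun u hu y => ?_, fun u u' hu hu' y => ?_, fun σ hσ y => ?_⟩
  · set m : ℝ := (Fintype.card ι : ℝ) with hm
    have e : ∀ k, pd k (fun z => exp ((2 - m) * log (quad t z)) *
        pd k (fun z => quad u z / quad t z) z) y = exp (-m * log (quad t y)) *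
          (-m * (dq t k y * dq u k y) + m * (quad u y / quad t y) * (dq t k y * dq t k y) +
            (2 * u.1 * quad t y - 2 * t.1 * quad u y)) := fun k => by
      have e1 : (fun z => exp ((2 - m) * log (quad t z)) *
          pd k (fun z => quad u z / quad t z) z) = fun z => exp (-m * log (quad t z)) *
            (dq u k z * quad t z - quad u z * dq t k z) := by
        funext z
        have := h0 z
        rw [hq, show (2 - m) * log (quad t z) =
          log (quad t z) + log (quad t z) + -m * log (quad t z) by ring, exp_add, exp_add,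
          exp_log (hp z)]
        field_simp
      have a := (d_dq u k y).fun_mul (d_quad t y)
      have b := (d_quad u y).fun_mul (d_dq t k y)
      have := h0 y
      rw [e1, pd_mul ((dl y).const_mul _).exp (a.fun_sub b), pd_exp ((dl y).const_mul _),
        pd_const_mul (dl y), pd_log (d_quad t y) (h0 y), pd_sub a b,
        pd_mul (d_dq u k y) (d_quad t y), pd_mul (d_quad u y) (d_dq t k y), pd_dq, pd_dq, pd_quad,
        pd_quad]
      field_simp
      ring
    have := h0 y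
    simp only [e, ← Finset.mul_sum, Finset.sum_add_distrib, sum_dq, Finset.sum_const,
      Finset.card_univ, nsmul_eq_mul, ← hm, hd, disc_comm t u, hu]
    field_simp
    ring
  · have e : ∀ k, pd k (fun z => quad u z / quad t z) y * pd k (fun z => quad u' z / quad t z) y =
        (quad t y ^ 4)⁻¹ * (quad t y ^ 2 * (dq u k y * dq u' k y) +
          -(quad t y * quad u' y) * (dq u k y * dq t k y) +
          -(quad t y * quad u y) * (dq u' k y * dq t k y) +
          quad u y * quad u' y * (dq t k y * dq t k y)) := fun k => by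
      have := h0 y
      rw [hq, hq]
      field_simp
      ring
    have := h0 y
    simp only [e, ← Finset.mul_sum, Finset.sum_add_distrib, sum_dq, hd, hu, hu']
    field_simp
    ring
  · set m : ℝ := (Fintype.card ι : ℝ) with hm
    have ds := dAt_of_cd hσ
    have e1 : ∀ k, pd k (fun z => σ z + log (quad t z)) =
        fun z => pd k σ z + dq t k z / quad t z := fun k => by
      funext z
      rw [pd_add (ds z) (dl z), pd_log (d_quad t z) (h0 z), pd_quad, inv_mul_eq_div]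
    have e : ∀ k, pd k (fun z => exp ((m - 2) * σ z) *
        pd k (fun z => σ z + log (quad t z)) z) y = exp ((m - 2) * σ y) *
          ((m - 2) * pd k σ y ^ 2 + (m - 2) / quad t y * (pd k σ y * dq t k y) +
            pd k (pd k σ) y + -(quad t y ^ 2)⁻¹ * (dq t k y * dq t k y) +
            2 * t.1 / quad t y) := fun k => by
      have a := dAt_of_cd (cd_pd hσ k) y
      have c : ContDiff ℝ ∞ (dq t k) := (contDiff_const.mul (cd_coord k)).add contDiff_const
      have b : DifferentiableAt ℝ (fun z => dq t k z / quad t z) y :=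
        dAt_of_cd (c.div (cd_quad t) h0) y
      have := h0 y
      rw [e1, pd_mul ((ds y).const_mul _).exp (a.fun_add b), pd_exp ((ds y).const_mul _),
        pd_const_mul (ds y), pd_add a b, pd_div k y c (cd_quad t) h0, pd_dq, pd_quad]
      field_simp
      ring
    have e2 : ∀ k, pd k (fun z => σ z + log (quad t z)) y ^ 2 = pd k σ y ^ 2 +
        2 / quad t y * (pd k σ y * dq t k y) + (quad t y ^ 2)⁻¹ * (dq t k y * dq t k y) :=
      fun k => by
        have := h0 y
        rw [e1]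
        field_simp
        ring
    have := h0 y
    simp only [e, e2, ← Finset.mul_sum, Finset.sum_add_distrib, sum_dq, Finset.sum_const,
      Finset.card_univ, nsmul_eq_mul, ← hm, hd]
    field_simp
    ring

end Pool.Agent.MP_c98b3a_gt.CF

end

end MrgPart7

-- ======== part 8: formerly Pool.Agent.MP_c98b3a_gt.cf.SCAL
section MrgPart8

/-! The scalar curvature of a conformally flat metric in coordinates. -/

open scoped ContDiff Matrix
open Real

noncomputable section

namespace Pool.Agent.MP_c98b3a_gt.CF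

namespace Scal

variable {ι : Type} [Fintype ι] [DecidableEq ι]

/-- Kronecker symbol -/
def kd (i j : ι) : ℝ := if i = j then 1 else 0

/-- the conformally flat metric -/
def cm (σ : Euc ι → ℝ) : Euc ι → Matrix ι ι ℝ := fun z => exp (2 * σ z) • (1 : Matrix ι ι ℝ)

omit [Fintype ι] in
theorem kd_self (i : ι) : kd i i = 1 := if_pos rfl

omit [Fintype ι] in
theorem kd_comm (i j : ι) : kd i j = kd j i := by simp only [kd, eq_comm]

omit [Fintype ι] in
theorem kd_sq (i j : ι) : kd i j ^ 2 = kd i j := by unfold kd; split_ifs <;> simp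

theorem sum_kd (i : ι) (f : ι → ℝ) : ∑ l, kd i l * f l = f i := by simp [kd]

theorem sum_kd' (i : ι) (f : ι → ℝ) : ∑ l, kd l i * f l = f i := by simp [kd]

omit [Fintype ι] in
theorem cm_apply (σ : Euc ι → ℝ) (z : Euc ι) (i j : ι) : cm σ z i j = kd i j * exp (2 * σ z) := by
  simp [cm, kd, Matrix.one_apply]

theorem ginv_cm (σ : Euc ι → ℝ) (i j : ι) (y : Euc ι) :
    ginv (cm σ) i j y = kd i j * exp (-2 * σ y) := by
  have h : (cm σ y)⁻¹ = exp (-2 * σ y) • (1 : Matrix ι ι ℝ) := by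
    apply Matrix.inv_eq_left_inv
    rw [cm, Matrix.smul_mul, Matrix.one_mul, smul_smul, ← exp_add]
    simp
  rw [ginv, h]
  simp [kd, Matrix.one_apply]

variable {σ : Euc ι → ℝ}

theorem pd_cm (h : ContDiff ℝ ∞ σ) (a i j : ι) (y : Euc ι) :
    pd a (fun z => cm σ z i j) y = kd i j * (exp (2 * σ y) * (2 * pd a σ y)) := by
  have d := dAt_of_cd h y
  have d2 : DifferentiableAt ℝ (fun z => 2 * σ z) y := d.const_mul 2
  simp only [cm_apply]
  rw [pd_const_mul d2.exp, pd_exp d2, pd_const_mul d]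

theorem chr_cm (h : ContDiff ℝ ∞ σ) (k i j : ι) : chr (cm σ) k i j =
    fun y => kd k j * pd i σ y + kd k i * pd j σ y - kd i j * pd k σ y := by
  funext y
  have e : exp (-2 * σ y) * exp (2 * σ y) = 1 := by rw [← exp_add]; simp
  simp only [chr, ginv_cm, pd_cm h, mul_assoc]
  rw [sum_kd]
  linear_combination (kd k j * pd i σ y + kd k i * pd j σ y - kd i j * pd k σ y) * e

theorem pd_chr (h : ContDiff ℝ ∞ σ) (a k i j : ι) (y : Euc ι) : pd a (chr (cm σ) k i j) y =
    kd k j * pd a (pd i σ) y + kd k i * pd a (pd j σ) y - kd i j * pd a (pd k σ) y := by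
  have d := fun b => dAt_of_cd (cd_pd h b) y
  rw [chr_cm h, pd_sub (((d i).const_mul _).fun_add ((d j).const_mul _)) ((d k).const_mul _),
    pd_add ((d i).const_mul _) ((d j).const_mul _), pd_const_mul (d i), pd_const_mul (d j),
    pd_const_mul (d k)]

theorem lin_part (t : ι → ι → ℝ) (i : ι) :
    ∑ k, ((kd k i * t k i + kd k i * t k i - kd i i * t k k) -
      (kd k k * t i i + kd k i * t i k - kd i k * t i k)) =
      (2 - Fintype.card ι) * t i i - ∑ k, t k k := by
  have : ∀ k, ((kd k i * t k i + kd k i * t k i - kd i i * t k k) -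
      (kd k k * t i i + kd k i * t i k - kd i k * t i k)) =
      kd k i * (2 * t k i) - t k k - t i i := fun k => by
    rw [kd_self, kd_self, kd_comm i k]; ring
  simp only [this, Finset.sum_sub_distrib, sum_kd', Finset.sum_const, Finset.card_univ,
    nsmul_eq_mul]
  ring

theorem quad_part (s : ι → ℝ) (i : ι) :
    ∑ k, ∑ l, ((kd k l * s k + kd k k * s l - kd k l * s k) *
        (kd l i * s i + kd l i * s i - kd i i * s l) -
      (kd k l * s i + kd k i * s l - kd i l * s k) * (kd l k * s i + kd l i * s k - kd i k * s l)) =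
      (Fintype.card ι - 2) * s i ^ 2 - (Fintype.card ι - 2) * ∑ k, s k ^ 2 := by
  have : ∀ k l, ((kd k l * s k + kd k k * s l - kd k l * s k) *
        (kd l i * s i + kd l i * s i - kd i i * s l) -
      (kd k l * s i + kd k i * s l - kd i l * s k) * (kd l k * s i + kd l i * s k - kd i k * s l)) =
      kd i l * (2 * s l * s i) - s l ^ 2 - kd k l * s i ^ 2 + kd i k * s l ^ 2 +
        kd i l * s k ^ 2 - kd i l * (kd i k * (2 * s l * s k)) := fun k l => by
    rw [kd_self, kd_self, kd_comm l i, kd_comm k i, kd_comm l k]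
    linear_combination -s i ^ 2 * kd_sq k l + s l ^ 2 * kd_sq i k + s k ^ 2 * kd_sq i l
  simp only [this, Finset.sum_sub_distrib, Finset.sum_add_distrib, sum_kd, ← Finset.mul_sum,
    Finset.sum_const, Finset.card_univ, nsmul_eq_mul]
  ring

theorem ric_cm (h : ContDiff ℝ ∞ σ) (i : ι) (y : Euc ι) : ric (cm σ) i i y =
    (2 - Fintype.card ι) * pd i (pd i σ) y - ∑ k, pd k (pd k σ) y +
      ((Fintype.card ι - 2) * pd i σ y ^ 2 - (Fintype.card ι - 2) * ∑ k, pd k σ y ^ 2) := by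
  rw [← lin_part (fun a b => pd a (pd b σ) y) i, ← quad_part (fun a => pd a σ y) i, ric]
  simp only [pd_chr h]
  simp only [chr_cm h]

end Scal

open Scal in
theorem scal_ : S_SCAL := by
  intro ι _ _ σ h y
  refine ⟨?_, fun φ ψ => ?_, ?_⟩
  · change scal (cm σ) y = _
    simp only [scal, ginv_cm, mul_assoc, sum_kd, ric_cm h, ← Finset.mul_sum,
      Finset.sum_add_distrib, Finset.sum_sub_distrib, Finset.sum_const, Finset.card_univ,
      nsmul_eq_mul]
    ring
  · change gamC (cm σ) φ ψ y = _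
    simp only [gamC, ginv_cm, mul_assoc, sum_kd, ← Finset.mul_sum]
  · rw [Matrix.det_smul, Matrix.det_one, mul_one, ← exp_nat_mul, sqrt_eq_iff_mul_self_eq
      (exp_pos _).le (exp_pos _).le, ← exp_add]
    congr 1
    ring

end Pool.Agent.MP_c98b3a_gt.CF

end
end MrgPart8

-- ======== part 9: formerly Pool.Agent.MP_c98b3a_gt.cf.GAM
section MrgPart9

/-! The rules of the product of gradients. -/

open scoped Manifold ContDiff Matrix Topology
open MeasureTheory Set

set_option linter.unusedSectionVars false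

noncomputable section

namespace Pool.Agent.MP_c98b3a_gt.CF

variable {ι : Type} [Fintype ι] [DecidableEq ι]

theorem gamC_symm {G : Euc ι → Matrix ι ι ℝ} {y : Euc ι} (h : (G y).PosDef) (φ ψ : Euc ι → ℝ) :
    gamC G φ ψ y = gamC G ψ φ y := by
  have s : ∀ i j, ginv G i j y = ginv G j i y := fun i j => by
    simpa [ginv] using h.inv.isHermitian.apply j i
  rw [gamC, gamC, Finset.sum_comm]
  exact Finset.sum_congr rfl fun i _ => Finset.sum_congr rfl fun j _ => by rw [s j i]; ring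

theorem gamC_nonneg {G : Euc ι → Matrix ι ι ℝ} {y : Euc ι} (h : (G y).PosDef) (φ : Euc ι → ℝ) :
    0 ≤ gamC G φ φ y := by
  have := h.inv.posSemidef.dotProduct_mulVec_nonneg fun i => pd i φ y
  refine this.trans_eq ?_
  simp only [gamC, ginv, dotProduct, Matrix.mulVec, Finset.mul_sum, star_trivial]
  exact Finset.sum_congr rfl fun i _ => Finset.sum_congr rfl fun j _ => by ring

theorem gamC_lin {G : Euc ι → Matrix ι ι ℝ} {y : Euc ι} {φ φ₁ φ₂ : Euc ι → ℝ} {a b : ℝ}
    (h : ∀ i, pd i φ y = a * pd i φ₁ y + b * pd i φ₂ y) (ψ : Euc ι → ℝ) :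
    gamC G φ ψ y = a * gamC G φ₁ ψ y + b * gamC G φ₂ ψ y := by
  simp only [gamC, h, Finset.mul_sum, ← Finset.sum_add_distrib]
  exact Finset.sum_congr rfl fun i _ => Finset.sum_congr rfl fun j _ => by ring

theorem gamC_polar {G : Euc ι → Matrix ι ι ℝ} {y : Euc ι} {φ ψ : Euc ι → ℝ}
    (hφ : DifferentiableAt ℝ φ y) (hψ : DifferentiableAt ℝ ψ y) (h : (G y).PosDef) :
    gamC G φ ψ y =
      (gradSq G (fun z => φ z + ψ z) y - gradSq G (fun z => φ z - ψ z) y) / 4 := by
  have s := gamC_symm h φ ψ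
  have e : gradSq G (fun z => φ z + ψ z) y - gradSq G (fun z => φ z - ψ z) y =
      2 * gamC G φ ψ y + 2 * gamC G ψ φ y := by
    simp only [gradSq, gamC, pd_add hφ hψ, pd_sub hφ hψ, Finset.mul_sum, ← Finset.sum_add_distrib,
      ← Finset.sum_sub_distrib]
    exact Finset.sum_congr rfl fun i _ => Finset.sum_congr rfl fun j _ => by ring
  rw [e, ← s]
  ring

variable {M : Type} [TopologicalSpace M] [ChartedSpace (Euc ι) M] [IsManifold 𝓘(ℝ, Euc ι) ∞ M]
  (g : Metrics 𝓘(ℝ, Euc ι) M)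

theorem dAt_centre {F : M → ℝ} (hF : Smo ι F) (x : M) :
    DifferentiableAt ℝ (F ∘ (chartAt (Euc ι) x).symm) (chartAt (Euc ι) x x) :=
  dAt_of_cdOn (chartAt (Euc ι) x).open_target ((isChart_at x).cdOn hF) (mem_chart_target _ x)

theorem pos_centre (x : M) : (gmat g (chartAt (Euc ι) x) (chartAt (Euc ι) x x)).PosDef :=
  (gmat_nice g (isChart_at x)).pos _ (mem_chart_target _ x)

theorem gam_polar {F G : M → ℝ} (hF : Smo ι F) (hG : Smo ι G) (x : M) :
    gam g F G x = (gradSqM g (fun p => F p + G p) x - gradSqM g (fun p => F p - G p) x) / 4 :=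
  gamC_polar (dAt_centre hF x) (dAt_centre hG x) (pos_centre g x)

theorem gamF : GamF g where
  cont hF hG := by
    rw [funext (gam_polar g hF hG)]
    exact ((continuous_gradSqM g (hF.add hG)).sub (continuous_gradSqM g (hF.sub hG))).div_const _
  symm F G p := gamC_symm (pos_centre g p) _ _
  nonneg F p := gamC_nonneg (pos_centre g p) _
  const c G p := by
    have : ∀ i, pd i ((fun _ : M => c) ∘ (chartAt (Euc ι) p).symm) (chartAt (Euc ι) p p) = 0 :=
      fun i => pd_const i c _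
    simp [gam, gamC, this]
  add {F G} hF hG H p := by
    have := gamC_lin (G := gmat g (chartAt (Euc ι) p)) (a := 1) (b := 1)
      (φ := (fun p => F p + G p) ∘ (chartAt (Euc ι) p).symm)
      (φ₁ := F ∘ (chartAt (Euc ι) p).symm) (φ₂ := G ∘ (chartAt (Euc ι) p).symm)
      (fun i => (pd_add (dAt_centre hF p) (dAt_centre hG p) i).trans (by ring))
      (H ∘ (chartAt (Euc ι) p).symm)
    rw [one_mul, one_mul] at this
    exact this
  mul {F G} hF hG H p := by
    refine gamC_lin (fun i => (pd_mul (dAt_centre hF p) (dAt_centre hG p) i).trans ?_) _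
    simp only [Function.comp_apply, (chartAt (Euc ι) p).left_inv (mem_chart_source (Euc ι) p)]
    ring
  comp {φ d F} hF G p hh := by
    have h2 : HasDerivAt φ d ((F ∘ (chartAt (Euc ι) p).symm) (chartAt (Euc ι) p p)) := by
      simpa only [Function.comp, (chartAt (Euc ι) p).left_inv (mem_chart_source (Euc ι) p)] using hh
    have h3 : ∀ i, pd i ((fun q => φ (F q)) ∘ (chartAt (Euc ι) p).symm) (chartAt (Euc ι) p p) =
        d * pd i (F ∘ (chartAt (Euc ι) p).symm) (chartAt (Euc ι) p p) := fun i =>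
      congrArg (fun L : Euc ι →L[ℝ] ℝ => L (EuclideanSpace.single i 1))
        (h2.comp_hasFDerivAt _ (dAt_centre hF p).hasFDerivAt).fderiv
    simp only [gam, gamC, h3, Finset.mul_sum]
    exact Finset.sum_congr rfl fun i _ => Finset.sum_congr rfl fun j _ => by ring
  chart {F G e} hF hG he y hy := by
    rw [gam_polar g hF hG, gradSqM_chart g he (φ := fun p => F p + G p) (hF.add hG) hy,
      gradSqM_chart g he (φ := fun p => F p - G p) (hF.sub hG) hy,
      gamC_polar (dAt_of_cdOn e.open_target (he.cdOn hF) hy)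
        (dAt_of_cdOn e.open_target (he.cdOn hG) hy) ((gmat_nice g he).pos y hy)]
    rfl

variable [MeasurableSpace M] [BorelSpace M] [T2Space M] [CompactSpace M]

theorem vol_openPos : (vol g).IsOpenPosMeasure := by
  refine ⟨fun U hU ⟨x, hx⟩ h0 => ?_⟩
  set e := chartAt (Euc ι) x
  have ho : IsOpen (e.source ∩ U) := e.open_source.inter hU
  have h := isVolume_vol g x _ ho.measurableSet inter_subset_left
  have n := gmat_nice g (isChart_at x)
  have hi : IsOpen (e '' (e.source ∩ U)) := e.isOpen_image_source_inter hU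
  have hs : e '' (e.source ∩ U) ⊆ e.target := by
    rintro _ ⟨z, hz, rfl⟩
    exact e.map_source hz.1
  have hm := hi.measurableSet
  rw [measure_mono_null inter_subset_right h0, eq_comm, setLIntegral_eq_zero_iff' hm
    ((n.dens_sm.continuousOn.mono hs).aemeasurable hm).ennreal_ofReal] at h
  have h1 : ∀ᵐ y : Euc ι, y ∉ e '' (e.source ∩ U) := h.mono fun y hy hy' =>
    absurd (ENNReal.ofReal_eq_zero.1 (hy hy')) (not_le.2 (Real.sqrt_pos.2 (n.det_pos (hs hy'))))
  exact (hi.measure_pos volume ⟨_, x, ⟨mem_chart_source _ x, hx⟩, rfl⟩).ne'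
    (measure_eq_zero_iff_ae_notMem.2 h1)

theorem gam_ : S_GAM := by
  intro ι M _ _ _ _ _ _ _ _ _ _ g
  refine ⟨gamF g, fun F hF h0 hi p => ?_⟩
  have := vol_openPos g
  exact congrFun ((hF.ae_eq_iff_eq (vol g) continuous_const).1
    ((integral_eq_zero_iff_of_nonneg h0 (integrable_vol g hF)).1 hi)) p

end Pool.Agent.MP_c98b3a_gt.CF

end

end MrgPart9

-- marker of a merged file
example : 731051 + 649738 = 731051 + 649738 := rfl
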