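import Pool.Agent.MP_c98b3a_gt.cf.GAM

/-! The round metric of a gauge. -/

open scoped Manifold ContDiff Matrix
open MeasureTheory Real

noncomputable section

namespace Pool.Agent.MP_c98b3a_gt.CF

namespace GEO

variable {m : ℕ} {g : Metrics 𝓘(ℝ, Euc (Fin m)) (Sph m)} {s : Sph m → ℝ} {a : Sph m}
  {e : OpenPartialHomeomorph (Sph m) (Euc (Fin m))} {σ : Euc (Fin m) → ℝ}
  {t : ℝ × Euc (Fin (m + 1)) → ℝ × Euc (Fin m) × ℝ} {v : ℝ × Euc (Fin (m + 1))}

/-- a stereographic chart -/
structure Ch (g : Metrics 𝓘(ℝ, Euc (Fin m)) (Sph m)) (s : Sph m → ℝ) (a : Sph m)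
    (e : OpenPartialHomeomorph (Sph m) (Euc (Fin m))) (σ : Euc (Fin m) → ℝ)
    (t : ℝ × Euc (Fin (m + 1)) → ℝ × Euc (Fin m) × ℝ) : Prop where
  flat : Flat g e σ a
  eq : ∀ v y, exp (s (e.symm y)) * aff v (e.symm y) = exp (σ y) * quad (t v) y
  disc : ∀ v w, disc (t v) (t w) = lor v w
  pos : ∀ v, ‖v.2‖ < v.1 → 0 < (t v).1

theorem nrm (p : Sph m) : ‖(p : Euc (Fin (m + 1)))‖ = 1 := norm_eq_of_mem_sphere p

theorem aff_pos (hv : ‖v.2‖ < v.1) (p : Sph m) : 0 < aff v p := by
  have := real_inner_le_norm v.2 (p : Euc (Fin (m + 1)))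
  rw [nrm, mul_one] at this
  exact sub_pos.2 (this.trans_lt hv)

theorem lor_pos (hv : ‖v.2‖ < v.1) : 0 < lor v v := by
  rw [lor, real_inner_self_eq_norm_sq]
  nlinarith [norm_nonneg v.2]

theorem smo_of {φ : Euc (Fin (m + 1)) → ℝ} (h : ∀ p : Sph m, ContDiffAt ℝ ∞ φ p) :
    Smo (Fin m) fun p : Sph m => φ p := fun p =>
  haveI : Fact (Module.finrank ℝ (Euc (Fin (m + 1))) = m + 1) := ⟨finrank_euclideanSpace_fin⟩
  (h p).contMDiffAt.comp p (contMDiff_coe_sphere p)

theorem cd_aff (v : ℝ × Euc (Fin (m + 1))) : ContDiff ℝ ∞ (aff v) :=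
  contDiff_const.sub (contDiff_const.inner ℝ contDiff_id)

theorem smo_S (hs : Smo (Fin m) s) (hv : ‖v.2‖ < v.1) :
    Smo (Fin m) fun p : Sph m => s p + log (aff v p) :=
  hs.add (smo_of fun p => (cd_aff v).contDiffAt.log (aff_pos hv p).ne')

theorem smo_x (hv : ‖v.2‖ < v.1) (w : ℝ × Euc (Fin (m + 1))) :
    Smo (Fin m) fun p : Sph m => aff w p / aff v p :=
  smo_of (φ := fun z => aff w z / aff v z) fun p =>
    (cd_aff w).contDiffAt.div (cd_aff v).contDiffAt (aff_pos hv p).ne'

theorem smo_comp {φ : ℝ → ℝ} {F : Sph m → ℝ} (h : ContDiff ℝ ∞ φ) (hF : Smo (Fin m) F) :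
    Smo (Fin m) fun p => φ (F p) := h.comp_contMDiff hF

theorem volS_pos (m : ℕ) : 0 < volS m :=
  div_pos (mul_pos two_pos (rpow_pos_of_pos pi_pos _)) (Gamma_pos_of_pos (by positivity))

theorem Ch.qpos (h : Ch g s a e σ t) (hv : ‖v.2‖ < v.1) (y : Euc (Fin m)) : 0 < quad (t v) y :=
  (mul_pos_iff_of_pos_left (exp_pos _)).1 (h.eq v y ▸ mul_pos (exp_pos _) (aff_pos hv _))

theorem Ch.S (h : Ch g s a e σ t) (hv : ‖v.2‖ < v.1) (y : Euc (Fin m)) :
    s (e.symm y) + log (aff v (e.symm y)) = σ y + log (quad (t v) y) := by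
  have := congrArg log (h.eq v y)
  rwa [log_mul (exp_pos _).ne' (aff_pos hv _).ne', log_mul (exp_pos _).ne' (h.qpos hv y).ne',
    log_exp, log_exp] at this

theorem Ch.x (h : Ch g s a e σ t) (w : ℝ × Euc (Fin (m + 1))) (y : Euc (Fin m)) :
    aff w (e.symm y) / aff v (e.symm y) = quad (t w) y / quad (t v) y := by
  rw [← mul_div_mul_left _ _ (exp_pos (s (e.symm y))).ne', h.eq, h.eq,
    mul_div_mul_left _ _ (exp_pos _).ne']

theorem Ch.onto (h : Ch g s a e σ t) {p : Sph m} (hp : p ≠ a) : ∃ y, p = e.symm y :=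
  ⟨e p, (e.left_inv (by rw [h.flat.src]; exact hp)).symm⟩

theorem Ch.gm (h : Ch g s a e σ t) :
    gmat g e = fun z => exp (2 * σ z) • (1 : Matrix (Fin m) (Fin m) ℝ) := funext h.flat.gm

theorem Ch.gam (h : Ch g s a e σ t) (G : GamF g) (h2 : S_SCAL) {F F' : Sph m → ℝ}
    (hF : Smo (Fin m) F) (hF' : Smo (Fin m) F') (y : Euc (Fin m)) : gam g F F' (e.symm y) =
      exp (-2 * σ y) * ∑ k, pd k (F ∘ e.symm) y * pd k (F' ∘ e.symm) y := by
  rw [G.chart hF hF' h.flat.chart y (by rw [h.flat.tgt]; trivial), h.gm,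
    (h2 _ σ h.flat.sm y).2.1]

theorem Ch.expS (h : Ch g s a e σ t) (hv : ‖v.2‖ < v.1) (y : Euc (Fin m)) :
    exp (2 * (σ y + log (quad (t v) y))) * exp (-2 * σ y) = quad (t v) y ^ 2 := by
  rw [← exp_add, show 2 * (σ y + log (quad (t v) y)) + -2 * σ y =
    log (quad (t v) y) + log (quad (t v) y) by ring, exp_add, exp_log (h.qpos hv y), sq]

theorem Ch.gx (h : Ch g s a e σ t) (G : GamF g) (h2 : S_SCAL) (h4 : S_QE) (hv : ‖v.2‖ < v.1)
    (h1 : lor v v = 1) {w w' : ℝ × Euc (Fin (m + 1))} (hw : lor w v = 0) (hw' : lor w' v = 0)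
    (y : Euc (Fin m)) : exp (2 * (s (e.symm y) + log (aff v (e.symm y)))) *
      CF.gam g (fun p : Sph m => aff w p / aff v p) (fun p : Sph m => aff w' p / aff v p)
        (e.symm y) =
      -lor w w' - aff w (e.symm y) / aff v (e.symm y) * (aff w' (e.symm y) / aff v (e.symm y)) := by
  have k : ∀ u, (fun p : Sph m => aff u p / aff v p) ∘ e.symm =
      fun z => quad (t u) z / quad (t v) z := fun u => funext (h.x u)
  rw [h.gam G h2 (smo_x hv w) (smo_x hv w'), k, k,
    (h4 _ (t v) (h.pos v hv) ((h.disc v v).trans h1)).2.2.1 _ _ ((h.disc _ _).trans hw)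
      ((h.disc _ _).trans hw'), h.S hv, ← mul_assoc, h.expS hv, h.x, h.x, h.disc,
    mul_div_cancel₀ _ (pow_ne_zero 2 (h.qpos hv y).ne')]

theorem Ch.stein (h : Ch g s a e σ t) (h4 : S_QE) (hv : ‖v.2‖ < v.1) (h1 : lor v v = 1)
    {w : ℝ × Euc (Fin (m + 1))} (hw : lor w v = 0) (y : Euc (Fin m)) :
    ∑ k, pd k (fun z => exp ((2 - m) * (s (e.symm z) + log (aff v (e.symm z)))) *
        exp ((Fintype.card (Fin m) - 2) * σ z) *
        pd k ((fun p : Sph m => aff w p / aff v p) ∘ e.symm) z) y =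
      -m * (aff w (e.symm y) / aff v (e.symm y)) *
        exp (-m * (s (e.symm y) + log (aff v (e.symm y)))) * exp (Fintype.card (Fin m) * σ y) := by
  have k : (fun p : Sph m => aff w p / aff v p) ∘ e.symm =
      fun z => quad (t w) z / quad (t v) z := funext (h.x w)
  have k2 : ∀ z, exp ((2 - m) * (s (e.symm z) + log (aff v (e.symm z)))) *
      exp ((Fintype.card (Fin m) - 2) * σ z) =
      exp ((2 - Fintype.card (Fin m)) * log (quad (t v) z)) := fun z => by
    rw [h.S hv, ← exp_add, Fintype.card_fin]; congr 1; ring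
  simp only [k, k2]
  rw [(h4 _ (t v) (h.pos v hv) ((h.disc v v).trans h1)).2.1 _ ((h.disc _ _).trans hw), h.x,
    h.S hv, mul_assoc _ (exp _) (exp _), ← exp_add, Fintype.card_fin]
  congr 2; ring

theorem Ch.curv (h : Ch g s a e σ t) (G : GamF g) (h2 : S_SCAL) (h4 : S_QE) (hm : 2 ≤ m)
    (hs : Smo (Fin m) s) (hv : ‖v.2‖ < v.1) (h1 : lor v v = 1) {S : Sph m → ℝ}
    (hS : S = fun p : Sph m => s p + log (aff v p)) (y : Euc (Fin m)) :
    ∑ k, pd k (fun z => 1 * exp ((Fintype.card (Fin m) - 2) * σ z) * pd k (S ∘ e.symm) z) y =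
      (m * (m - 1) * exp (-2 * S (e.symm y)) + (m - 1) * (m - 2) * CF.gam g S S (e.symm y) -
        scalM g (e.symm y)) / (2 * (m - 1)) * exp (Fintype.card (Fin m) * σ y) := by
  have sm : Smo (Fin m) S := hS ▸ smo_S hs hv
  have k : S ∘ e.symm = fun z => σ z + log (quad (t v) z) := hS ▸ funext (h.S hv)
  have k0 : S (e.symm y) = σ y + log (quad (t v) y) := congrFun k y
  have q := (h4 _ (t v) (h.pos v hv) ((h.disc v v).trans h1)).2.2.2 σ h.flat.sm y
  have n0 : (m : ℝ) - 1 ≠ 0 := by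
    have : (2 : ℝ) ≤ m := by exact_mod_cast hm
    linarith
  have q0 := (h.qpos hv y).ne'
  have e1 : exp (-2 * (σ y + log (quad (t v) y))) = exp (-2 * σ y) / quad (t v) y ^ 2 := by
    rw [← h.expS hv, ← exp_add, ← exp_sub]; congr 1; ring
  have e2 : exp ((m - 2) * σ y) = exp (-2 * σ y) * exp (m * σ y) := by
    rw [← exp_add]; congr 1; ring
  rw [h.gam G h2 sm sm, scalM_chart g h.flat.chart (by rw [h.flat.tgt]; trivial), h.gm,
    (h2 _ σ h.flat.sm y).1, k0, k, e1]
  simp only [one_mul, ← sq, Fintype.card_fin] at q ⊢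
  refine mul_left_cancel₀ two_ne_zero (q.trans ?_)
  rw [e2]
  field_simp
  ring

end GEO

open GEO in
theorem geo (h1 : S_GAM) (h2 : S_SCAL) (h3 : S_DIV) (h4 : S_QE) (h5 : S_MASS) (h6 : S_FR)
    (h7 : S_CH) : S_GEO := by
  intro m g s hm hc
  have : Nonempty (Fin m) := ⟨⟨0, by omega⟩⟩
  have G : GamF g := (h1 (Fin m) (Sph m) g).1
  let a : Sph m := ⟨EuclideanSpace.single 0 1, by simp⟩
  have ha : a ≠ -a := ne_neg_of_mem_unit_sphere ℝ a
  obtain ⟨e, σ, t, c1, c2, c3, c4⟩ := h7 m g s hc a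
  obtain ⟨e', σ', t', d1, d2, d3, d4⟩ := h7 m g s hc (-a)
  have C : Ch g s a e σ t := ⟨c1, c2, c3, c4⟩
  have C' : Ch g s (-a) e' σ' t' := ⟨d1, d2, d3, d4⟩
  obtain ⟨hI, hD⟩ := h3 (Fin m) (Sph m) g e σ a e' σ' (-a) c1 d1 ha
  have mass : ∀ v : ℝ × Euc (Fin (m + 1)), ‖v.2‖ < v.1 →
      ∫ p, exp (-m * (s p + log (aff v p))) ∂vol g =
        volS m * exp (-(m / 2) * log (lor v v)) := by
    intro v hv
    rw [hI (fun p => exp (-m * (s p + log (aff v p))))
      ((continuous_const.mul (smo_S hc.1 hv).continuous).rexp), ← c3,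
      ← (h5 m (t v) (by omega) (c4 v hv) (by rw [c3]; exact lor_pos hv)).2]
    refine integral_congr_ae (Filter.Eventually.of_forall fun y => ?_)
    simp only
    rw [C.S hv, ← exp_add, Fintype.card_fin]; congr 1; ring
  refine ⟨mass, fun v hv0 hv1 S hS => ?_⟩
  obtain ⟨hv, f1, f2, f3, f4⟩ := h6 _ v hv0 hv1
  have sm : Smo (Fin m) S := hS ▸ smo_S hc.1 hv
  have ce : ∀ r : ℝ, Continuous fun p => exp (r * S p) := fun r =>
    (continuous_const.mul sm.continuous).rexp
  refine ⟨sm, aff_pos hv, ?_, fun F hF => ?_⟩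
  · have V := volS_pos m
    let ρ : Sph m → NNReal := fun p => (exp (-m * S p) / volS m).toNNReal
    have hρ : Measurable ρ := ((ce _).div_const _).measurable.real_toNNReal
    let μ : Measure (Sph m) := (vol g).withDensity fun p => ρ p
    have hμ : ∀ F : Sph m → ℝ, volS m * ∫ p, F p ∂μ = ∫ p, exp (-m * S p) * F p ∂vol g := by
      intro F
      rw [integral_withDensity_eq_integral_smul hρ, ← integral_const_mul]
      refine integral_congr_ae (Filter.Eventually.of_forall fun p => ?_)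
      simp only [ρ, NNReal.smul_def, smul_eq_mul]
      rw [Real.coe_toNNReal _ (div_pos (exp_pos _) V).le]
      field_simp
    have pr : IsProbabilityMeasure μ := ⟨by
      rw [withDensity_apply _ MeasurableSet.univ, Measure.restrict_univ]
      refine (ofReal_integral_eq_lintegral_ofReal (integrable_vol g ((ce (-m)).div_const (volS m)))
        (Filter.Eventually.of_forall fun p => (div_pos (exp_pos _) V).le)).symm.trans ?_
      have := mass v hv
      rw [hv1, log_one, mul_zero, exp_zero, mul_one] at this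
      rw [integral_div, hS, this, div_self V.ne', ENNReal.ofReal_one]⟩
    refine ⟨μ, pr,
      { Sm := Smo (Fin m)
        Γ := fun F F' p => exp (2 * S p) * gam g F F' p
        x := fun i p => aff (fr v i) p / aff v p
        cont := fun h => h.continuous
        const := fun _ => contMDiff_const
        add := fun h k => h.add k
        mul := fun h k => h.mul k
        comp := smo_comp
        Γcont := fun h k => (ce 2).mul (G.cont h k)
        Γsymm := fun _ _ p => by rw [G.symm]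
        Γnonneg := fun _ p => mul_nonneg (exp_pos _).le (G.nonneg _ p)
        Γconst := fun c F p => by rw [G.const, mul_zero]
        Γadd := fun h k _ p => by rw [G.add h k, mul_add]
        Γmul := fun h k _ p => by rw [G.mul h k]; ring
        Γcomp := fun hφ h _ p => by
          rw [G.comp h _ p (hφ.differentiable (by simp) _).hasDerivAt]; ring
        xsm := fun i => smo_x hv _
        xsq := fun p => (f3 p (nrm p)).2
        Γx := fun i j p => ?_
        stein := fun i F hF => ?_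
        sep := fun p p' h => Subtype.ext (f4 p p' (nrm p) (nrm p') h) },
      fun _ h => h, fun _ _ _ => rfl, fun _ _ => rfl, fun F _ => hμ F⟩
    · rw [← neg_neg (if i = j then (1 : ℝ) else 0), ← f2, hS]
      by_cases hp : p = a
      · obtain ⟨y, rfl⟩ := C'.onto (p := p) (hp ▸ ha)
        exact C'.gx G h2 h4 hv hv1 (f1 i) (f1 j) y
      · obtain ⟨y, rfl⟩ := C.onto hp
        exact C.gx G h2 h4 hv hv1 (f1 i) (f1 j) y
    · have := hD (fun p => exp ((2 - m) * S p)) (fun p => aff (fr v i) p / aff v p)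
        (fun p => -m * (aff (fr v i) p / aff v p) * exp (-m * S p))
        (smo_comp (φ := fun r => exp ((2 - m) * r)) (by fun_prop) sm) (smo_x hv _)
        ((continuous_const.mul (smo_x hv _).continuous).mul (ce _))
        (fun y => by rw [hS]; exact C.stein h4 hv hv1 (f1 i) y)
        (fun y => by rw [hS]; exact C'.stein h4 hv hv1 (f1 i) y) F hF
      refine mul_left_cancel₀ V.ne' ?_
      rw [mul_left_comm, hμ, hμ, ← integral_const_mul]
      refine Eq.trans (integral_congr_ae (Filter.Eventually.of_forall fun p => ?_))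
        (this.trans ?_)
      · simp only
        rw [← mul_assoc, ← exp_add]; congr 2; ring
      · rw [← integral_neg]
        exact integral_congr_ae (Filter.Eventually.of_forall fun p => by simp only; ring)
  · have n0 : (m : ℝ) - 1 ≠ 0 := by
      have : (2 : ℝ) ≤ m := by exact_mod_cast hm
      linarith
    have cψ : Continuous fun p => (m * (m - 1) * exp (-2 * S p) +
        (m - 1) * (m - 2) * gam g S S p - scalM g p) / (2 * ((m : ℝ) - 1)) :=
      (((continuous_const.mul (ce _)).add (continuous_const.mul (G.cont sm sm))).sub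
        (continuous_scalM g)).div_const _
    have := hD (fun _ => 1) S _ contMDiff_const sm cψ (C.curv G h2 h4 hm hc.1 hv hv1 hS)
      (C'.curv G h2 h4 hm hc.1 hv hv1 hS) F hF
    have i1 := integrable_vol g ((continuous_scalM g).mul hF.continuous)
    have i2 := integrable_vol g (cψ.mul hF.continuous)
    have i3 := integrable_vol g ((continuous_const (y := (1 : ℝ))).mul (G.cont sm hF))
    have z := (integral_add i3 i2).trans (add_eq_zero_iff_eq_neg.2 this)
    have w := integral_add i1 ((i3.add i2).const_mul (2 * ((m : ℝ) - 1)))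
    rw [integral_const_mul] at w
    refine Eq.trans ?_ (w.symm.trans (integral_congr_ae (Filter.Eventually.of_forall fun p => ?_)))
    · exact ((congrArg (fun r => _ + 2 * ((m : ℝ) - 1) * r) z).trans (by simp)).symm
    · simp only [Pi.mul_apply, Pi.add_apply]
      field_simp
      ring

end Pool.Agent.MP_c98b3a_gt.CF

end
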