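import Pool.Agent.MP_c98b3a_gt.cf.GAM

-- ======== part 0: formerly Pool.Agent.MP_c98b3a_gt.cf.TWO
section MrgPart0

/-! From one variable to two: polynomial inequalities. -/

open Real

noncomputable section

namespace Pool.Agent.MP_c98b3a_gt.CF

namespace TWO

lemma QQ_ge (q : ℝ) : -3 * q ^ 2 - q ^ 4 ≤ QQ q := by
  unfold QQ
  nlinarith [sq_nonneg (q + q ^ 2), sq_nonneg q, sq_nonneg (q ^ 2)]

lemma low {δ : ℝ} (hδ : 0 < δ) (q : ℝ) : -(3 + 1 / δ) * q ^ 2 ≤ QQ q + δ * q ^ 6 := by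
  have h1 := QQ_ge q
  have h2 : q ^ 4 ≤ δ * q ^ 6 + 1 / δ * q ^ 2 := by
    have h3 : 0 ≤ 1 / δ * (δ * q ^ 3 - q) ^ 2 := by positivity
    have h4 : 1 / δ * (δ * q ^ 3 - q) ^ 2 = δ * q ^ 6 - 2 * q ^ 4 + 1 / δ * q ^ 2 := by
      field_simp
      ring
    have h5 : 0 ≤ q ^ 4 := by positivity
    linarith
  linarith

lemma far {C δ q : ℝ} (hC : 0 < C) (hδ : 0 < δ) (h : 1 + (4 + C) / δ ≤ |q|) :
    C ≤ QQ q + δ * q ^ 6 := by
  have h0 : 0 < (4 + C) / δ := by positivity
  have h1 := QQ_ge q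
  have h2 : |q| ≤ q ^ 2 := by
    rw [← sq_abs]
    nlinarith
  have h3 : 4 + C ≤ δ * q ^ 2 := by
    have := (div_le_iff₀ hδ).1 (show (4 + C) / δ ≤ q ^ 2 by linarith)
    linarith
  have h4 : 1 ≤ q ^ 2 := by linarith
  have h5 : q ^ 2 ≤ q ^ 4 := by nlinarith
  have h6 : (4 + C) * q ^ 4 ≤ δ * q ^ 6 := by
    have := mul_le_mul_of_nonneg_right h3 (show 0 ≤ q ^ 4 by positivity)
    linarith
  nlinarith

lemma up {R S : ℝ} (h : |S| ≤ R) : QQ S ≤ 2 * R * S ^ 2 := by
  unfold QQ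
  have h1 : S ≤ R := (le_abs_self S).trans h
  have h2 : 0 ≤ R := (abs_nonneg S).trans h
  have h3 := mul_le_mul_of_nonneg_right h1 (sq_nonneg S)
  have h4 := mul_nonneg h2 (sq_nonneg S)
  nlinarith [sq_nonneg S, sq_nonneg (S ^ 2)]

lemma lip {R S q e : ℝ} (h1 : |S| ≤ 2 * |q|) (h2 : |q| ≤ 2 * R) (h3 : |S - q| ≤ e * |q|) :
    QQ S ≤ QQ q + e * (5 + 16 * R + 8 * R ^ 2) * q ^ 2 := by
  have a0 := abs_nonneg q
  have a1 : |S + q| ≤ 3 * |q| := (abs_add_le S q).trans (by linarith)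
  have a2 : S ^ 2 ≤ 4 * |q| ^ 2 := by
    rw [← sq_abs S]
    nlinarith [abs_nonneg S]
  have a3 : q ^ 2 = |q| ^ 2 := (sq_abs q).symm
  have a4 : |q| ^ 2 ≤ 2 * R * |q| := by nlinarith
  have a5 : |q| ^ 2 ≤ 4 * R ^ 2 := by nlinarith
  have b1 : |S ^ 2 + S * q + q ^ 2| ≤ 14 * R * |q| := by
    rw [abs_of_nonneg (by nlinarith [sq_nonneg (S + q), sq_nonneg S, sq_nonneg q])]
    have : S * q ≤ 2 * |q| ^ 2 := by
      have := mul_le_mul_of_nonneg_right h1 a0
      have := le_abs_self (S * q)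
      rw [abs_mul] at this
      nlinarith
    linarith
  have b2 : |(S + q) * (S ^ 2 + q ^ 2)| ≤ 60 * R ^ 2 * |q| := by
    rw [abs_mul, abs_of_nonneg (show 0 ≤ S ^ 2 + q ^ 2 by positivity)]
    have := mul_le_mul a1 (show S ^ 2 + q ^ 2 ≤ 20 * R ^ 2 by linarith) (by positivity)
      (by positivity)
    linarith
  have b3 : |-3 / 2 * (S + q) + 13 / 12 * (S ^ 2 + S * q + q ^ 2) -
      11 / 96 * ((S + q) * (S ^ 2 + q ^ 2))| ≤ (5 + 16 * R + 8 * R ^ 2) * |q| := by
    have c1 := abs_le.1 a1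
    have c2 := abs_le.1 b1
    have c3 := abs_le.1 b2
    have c4 : 0 ≤ R * |q| := by nlinarith [sq_nonneg |q|]
    have c5 : 0 ≤ R ^ 2 * |q| := by positivity
    rw [abs_le]
    constructor <;> nlinarith
  have b4 := mul_le_mul h3 b3 (abs_nonneg _) ((abs_nonneg _).trans h3)
  rw [← abs_mul] at b4
  have b5 := (le_abs_self _).trans b4
  have b6 : e * |q| * ((5 + 16 * R + 8 * R ^ 2) * |q|) =
      e * (5 + 16 * R + 8 * R ^ 2) * q ^ 2 := by
    rw [a3]
    ring
  unfold QQ
  linarith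

end TWO

theorem two : S_TWO := by
  intro C δ hC hδ
  obtain ⟨ρ, hρ⟩ : ∃ ρ, ρ = 1 + (4 + C) / δ := ⟨_, rfl⟩
  have ρ1 : 1 ≤ ρ := by
    have : 0 < (4 + C) / δ := by positivity
    linarith
  obtain ⟨K, hK⟩ : ∃ K, K = 3 + 1 / δ := ⟨_, rfl⟩
  have K0 : 0 < K := by
    rw [hK]
    positivity
  obtain ⟨R, hR⟩ : ∃ R, R = 4 * ρ := ⟨_, rfl⟩
  have R0 : 0 < R := by linarith
  obtain ⟨J, hJ⟩ : ∃ J, J = 5 + 16 * R + 8 * R ^ 2 := ⟨_, rfl⟩
  have J0 : 0 < J := by
    rw [hJ]
    positivity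
  obtain ⟨ε, ε0, ε1, ε2⟩ : ∃ ε : ℝ, 0 < ε ∧ ε ≤ 1 / 4 ∧ ε * (4 * J + 4) ≤ δ :=
    ⟨min (1 / 4) (δ / (4 * J + 4)), by positivity, min_le_left _ _,
      (le_div_iff₀ (by positivity)).1 (min_le_right _ _)⟩
  refine ⟨R, R0, ε, ε0, 4 * (C + K + (2 * R + 1 + 9 * K) / ε ^ 2), ?_⟩
  intro m hm S Y T q hT h1 h2
  have l0 := TWO.low hδ q
  rw [← hK] at l0
  have q2 : 0 ≤ δ * q ^ 2 := by positivity
  have q6 : 0 ≤ δ * q ^ 6 := by positivity
  have W0 : 0 ≤ (2 * R + 1 + 9 * K) / ε ^ 2 := by positivity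
  have D0 := sq_nonneg (Y - q)
  have hm' := mul_le_mul_of_nonneg_right
    (show C + K + (2 * R + 1 + 9 * K) / ε ^ 2 ≤ m / 4 by linarith) D0
  have t1 := mul_nonneg W0 D0
  have t2 := mul_nonneg hC.le D0
  have t3 := mul_nonneg K0.le D0
  rcases le_total R |S| with h | h
  · have y1 := h1 h
    rcases le_total ρ |q| with k | k
    · have := TWO.far hC hδ (hρ ▸ k)
      nlinarith
    · have y2 : ρ ≤ |Y - q| := by
        have := abs_sub_abs_le_abs_sub Y q
        linarith
      have y3 : 1 ≤ (Y - q) ^ 2 := by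
        rw [← sq_abs]
        nlinarith
      have y4 : q ^ 2 ≤ (Y - q) ^ 2 := sq_le_sq.2 (k.trans y2)
      have y5 := mul_le_mul_of_nonneg_left y3 hC.le
      have y6 := mul_le_mul_of_nonneg_left y4 K0.le
      nlinarith
  · obtain ⟨y1, y2⟩ := h2 h
    have s0 := abs_nonneg S
    have y3 : |S - q| ≤ ε * |S| + |Y - q| := by
      have := abs_sub_le S Y q
      rw [abs_sub_comm S Y] at this
      linarith
    have y4 : ε * |S| ≤ 1 / 4 * |S| := mul_le_mul_of_nonneg_right ε1 s0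
    rcases le_total (ε * |S|) |Y - q| with k | k
    · have d0 := abs_nonneg (Y - q)
      have z1 : ε ^ 2 * S ^ 2 ≤ (Y - q) ^ 2 := by
        rw [← mul_pow, sq_le_sq, abs_mul, abs_of_pos ε0]
        exact k
      have z2 : ε ^ 2 * q ^ 2 ≤ 9 * (Y - q) ^ 2 := by
        have w1 : |q| ≤ |S| + 2 * |Y - q| := by
          have := abs_sub_abs_le_abs_sub q S
          rw [abs_sub_comm q S] at this
          linarith
        have w2 := mul_le_mul_of_nonneg_left w1 ε0.le
        have w3 := mul_le_mul_of_nonneg_right ε1 d0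
        have w4 : ε * |q| ≤ 3 * |Y - q| := by nlinarith
        have w5 := mul_self_le_mul_self (by positivity) w4
        rw [← sq_abs q, ← sq_abs (Y - q)]
        nlinarith
      have z3 : (2 * R + 1) * S ^ 2 + K * q ^ 2 ≤ (2 * R + 1 + 9 * K) / ε ^ 2 * (Y - q) ^ 2 := by
        rw [div_mul_eq_mul_div, le_div_iff₀ (by positivity)]
        have w1 := mul_le_mul_of_nonneg_left z1 (show 0 ≤ 2 * R + 1 by positivity)
        have w2 := mul_le_mul_of_nonneg_left z2 K0.le
        linarith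
      have z4 := TWO.up h
      have z5 := mul_le_mul_of_nonneg_right (show ε ≤ 1 by linarith) (sq_nonneg S)
      linarith
    · have z1 : |S| ≤ 2 * |q| := by
        have := abs_sub_abs_le_abs_sub S q
        linarith
      have z2 : |q| ≤ 2 * R := by
        have := abs_sub_abs_le_abs_sub q S
        rw [abs_sub_comm q S] at this
        linarith
      have z3 := TWO.lip (e := 4 * ε) z1 z2 (by
        have := mul_le_mul_of_nonneg_left z1 ε0.le
        linarith)
      rw [← hJ] at z3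
      have z4 : S ^ 2 ≤ 4 * q ^ 2 := by
        rw [← sq_abs S, ← sq_abs q]
        nlinarith
      have z5 := mul_le_mul_of_nonneg_left z4 ε0.le
      have z6 := mul_le_mul_of_nonneg_right ε2 (sq_nonneg q)
      linarith

end Pool.Agent.MP_c98b3a_gt.CF

end

end MrgPart0

-- ======== part 1: formerly Pool.Agent.MP_c98b3a_gt.cf.MAIN
section MrgPart1

/-! The entropy in the conformal class of the round sphere: assembly. -/

open scoped Manifold ContDiff Matrix
open MeasureTheory Real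

noncomputable section

namespace Pool.Agent.MP_c98b3a_gt.CF

theorem volS_pos (m : ℕ) : 0 < volS m :=
  div_pos (by positivity) (Gamma_pos_of_pos (by positivity))

theorem log_theta {m : ℕ} (hm : 2 ≤ m) :
    log (theta m) = log (volS m) - m / 2 - m / 2 * log (2 * π / (m - 1)) := by
  have a : (0 : ℝ) < m - 1 := by
    have : (2 : ℝ) ≤ m := by exact_mod_cast hm
    linarith
  have b := volS_pos m
  have e : theta m = ((m - 1) / (2 * π * exp 1)) ^ ((m : ℝ) / 2) * volS m := rfl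
  rw [e, log_mul (by positivity) b.ne', log_rpow (by positivity), log_div a.ne' (by positivity),
    log_div (by positivity) a.ne', log_mul (by positivity) (exp_pos 1).ne', log_exp]
  ring

/-- the entropy of the test function -/
theorem test {m : ℕ} (hm : 2 ≤ m) (g : Metrics 𝓘(ℝ, Euc (Fin m)) (Sph m)) (hΓ : GamF g)
    {S : Sph m → ℝ} (hS : Smo (Fin m) S) {μ : Measure (Sph m)} [IsProbabilityMeasure μ]
    (c : SC m (Sph m) μ) (h1 : ∀ F G p, c.Γ F G p = exp (2 * S p) * gam g F G p)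
    (h2 : ∀ F, Continuous F → volS m * ∫ p, F p ∂μ = ∫ p, exp (-m * S p) * F p ∂vol g)
    (h3 : ∀ F, Smo (Fin m) F → ∫ p, scalM g p * F p ∂vol g =
      ∫ p, (m * (m - 1) * exp (-2 * S p) * F p + 2 * (m - 1) * gam g S F p +
        (m - 1) * (m - 2) * gam g S S p * F p) ∂vol g)
    {B : ℝ → ℝ} (hB : ContDiff ℝ ∞ B) (k : ℝ) {a : ℝ} (ha : (a : EReal) ≤ entNu g) :
    ∃ Z > 0, a ≤ Psi c B (fun p => S p + k) / Z + log (theta m) := by
  have := finite_vol g
  have hn : (0 : ℝ) < m - 1 := by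
    have : (2 : ℝ) ≤ m := by exact_mod_cast hm
    linarith
  have hm0 : (m : ℝ) ≠ 0 := by linarith
  have hv := volS_pos m
  set h : ℝ → ℝ := fun t => m * (t + k) - B (m * (t + k)) / m with hh
  have ch : ContDiff ℝ ∞ h := by rw [hh]; fun_prop
  have dh : ∀ t, HasDerivAt h (m - deriv B (m * (t + k))) t := fun t => by
    have a1 : HasDerivAt (fun t : ℝ => m * (t + k)) m t := by
      simpa using ((hasDerivAt_id' t).add_const k).const_mul (m : ℝ)
    have a2 := ((hB.differentiable (by simp) _).hasDerivAt.comp t a1).div_const (m : ℝ)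
    exact (a1.sub a2).congr_deriv (by field_simp)
  have sh : Smo (Fin m) fun p => h (S p) := ch.contMDiff.comp hS
  have sE : Smo (Fin m) fun p => exp (-h (S p)) := ch.neg.exp.contMDiff.comp hS
  have cS := hS.continuous
  have cB := hB.continuous
  have cB' := hB.continuous_deriv (by simp)
  have cg := hΓ.cont hS hS
  have cR := continuous_scalM g
  have hτ : 0 < exp (-2 * k) / (2 * (m - 1)) := by positivity
  have : Nonempty (Sph m) := (NormedSpace.sphere_nonempty.2 zero_le_one).to_subtype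
  have t := Yam.ray_test g sh (c := 1) ha hτ
  simp only [Yam.lap, one_mul, one_pow, Fintype.card_fin] at t
  have gk : ∀ p, gam g (fun p => S p + k) (fun p => S p + k) p = gam g S S p := fun p => by
    have a1 := fun G => hΓ.comp (φ := fun t => t + k) hS G p ((hasDerivAt_id' _).add_const k)
    rw [a1, hΓ.symm, a1, one_mul, one_mul]
  have g1 : ∀ p, gradSqM g (fun p => h (S p)) p =
      (m - deriv B (m * (S p + k))) ^ 2 * gam g S S p := fun p => Yam.gradSqM_comp g hS (dh _)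
  have g2 : ∀ p, gam g S (fun p => exp (-h (S p))) p =
      exp (-h (S p)) * -(m - deriv B (m * (S p + k))) * gam g S S p := fun p => by
    rw [hΓ.symm]
    exact hΓ.comp (φ := fun t => exp (-h t)) hS S p (dh _).neg.exp
  have cv : ∀ F, Continuous F → ∫ p, F p * exp (-h (S p)) ∂vol g =
      exp (-m * k) * volS m * ∫ p, exp (B (m * (S p + k)) / m) * F p ∂μ := fun F hF => by
    rw [mul_assoc, h2 _ (by fun_prop), ← integral_const_mul]
    refine integral_congr_ae (.of_forall fun p => ?_)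
    simp only [hh]
    rw [← mul_assoc, ← mul_assoc, ← exp_add, ← exp_add, mul_comm]
    congr 2
    ring
  set Z := ∫ p, exp (B (m * (S p + k)) / m) ∂μ with hZ
  have Z0 : 0 < Z := integral_exp_pos (Yam.int_of_cont μ (by fun_prop))
  have z1 : ∫ p, exp (-h (S p)) ∂vol g = exp (-m * k) * volS m * Z := by
    simpa using cv (fun _ => 1) continuous_const
  set Φ : Sph m → ℝ := fun p => m / 2 * (exp (-2 * (S p + k)) - 1 + 2 * (S p + k)) -
    B (m * (S p + k)) / m - (m - 1 - (1 - deriv B (m * (S p + k))) ^ 2) * exp (-2 * (S p + k)) *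
      (exp (2 * S p) * gam g S S p) / (2 * (m - 1)) with hΦ
  have cΦ : Continuous Φ := by rw [hΦ]; fun_prop
  have ps : Psi c B (fun p => S p + k) =
      ∫ p, exp (B (m * (S p + k)) / m) * Φ p ∂μ + Z * log Z := by
    simp only [Psi, h1, gk, hΦ, hZ]
  have key : exp (-2 * k) / (2 * (m - 1)) * (∫ p, scalM g p * exp (-h (S p)) ∂vol g +
      ∫ p, gradSqM g (fun p => h (S p)) p * exp (-h (S p)) ∂vol g) +
      ∫ p, h (S p) * exp (-h (S p)) ∂vol g =
      ∫ p, Φ p * exp (-h (S p)) ∂vol g + m / 2 * ∫ p, exp (-h (S p)) ∂vol g := by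
    have cE := sE.continuous
    have chh := ch.continuous
    simp only [h3 _ sE, g1, g2]
    rw [← integral_add, ← integral_const_mul, ← integral_add, ← integral_const_mul, ← integral_add]
    · refine integral_congr_ae (.of_forall fun p => ?_)
      have e1 : exp (-2 * (S p + k)) = exp (-2 * k) * exp (-2 * S p) := by
        rw [← exp_add]; congr 1; ring
      have e2 : exp (-2 * S p) * exp (2 * S p) = 1 := by rw [← exp_add]; simp
      simp only [hΦ, e1]
      rw [show (m - 1 - (1 - deriv B (m * (S p + k))) ^ 2) * (exp (-2 * k) * exp (-2 * S p)) *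
        (exp (2 * S p) * gam g S S p) = (m - 1 - (1 - deriv B (m * (S p + k))) ^ 2) * exp (-2 * k) *
          (exp (-2 * S p) * exp (2 * S p)) * gam g S S p by ring, e2]
      generalize exp (-h (S p)) = E
      simp only [hh]
      field_simp
      ring
    all_goals exact integrable_vol g (by fun_prop)
  refine ⟨Z, Z0, t.trans_eq ?_⟩
  rw [← add_div, key, cv Φ cΦ, z1, ps, log_theta hm, log_mul (by positivity) Z0.ne',
    log_mul (exp_pos _).ne' hv.ne', log_exp,
    show 4 * π * (exp (-2 * k) / (2 * (m - 1))) = 2 * π / (m - 1) * exp (-2 * k) by field_simp; ring,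
    log_mul (by positivity) (exp_pos _).ne', log_exp]
  field_simp
  ring

theorem main (hO : S_ONE) (hA : S_ABS) (hB : S_BAL) (hG : S_GEO) (hΓ : S_GAM) :
    ∃ m0 : ℕ, ∀ m ≥ m0, ∀ (g : Metrics 𝓘(ℝ, Euc (Fin m)) (Sph m)) (s : Sph m → ℝ), Conf g s →
      entNu g ≤ (log (theta m) : ℝ) ∧ (entNu g = (log (theta m) : ℝ) →
        ∃ (a : ℝ) (b : Euc (Fin (m + 1))), ∀ x : Sph m,
          exp (-s x) = a - inner ℝ b (x : Euc (Fin (m + 1)))) := by
  obtain ⟨C, hC, hO⟩ := hO
  obtain ⟨δ, hδ, m1, hA⟩ := hA C hC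
  obtain ⟨m2, hO⟩ := hO δ hδ
  refine ⟨max m1 (max ⌈m2⌉₊ 2), fun m hm g s hs => ?_⟩
  have a1 : m1 ≤ m := (le_max_left _ _).trans hm
  have a2 : 2 ≤ m := ((le_max_right _ _).trans (le_max_right _ _)).trans hm
  have a3 : m2 ≤ m := (Nat.ceil_le).1 (((le_max_left _ _).trans (le_max_right _ _)).trans hm)
  have a4 : (2 : ℝ) ≤ m := by exact_mod_cast a2
  have : Nonempty (Fin m) := ⟨⟨0, by omega⟩⟩
  have := finite_vol g
  have hv := volS_pos m
  obtain ⟨B, Y, od⟩ := hO m a3
  obtain ⟨mass, geo⟩ := hG m g s a2 hs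
  obtain ⟨gf, gp⟩ := hΓ (Fin m) (Sph m) g
  have cY := od.smY.continuous
  obtain ⟨v, v1, v2, k, bal⟩ := hB (Fin (m + 1)) (Sph m) (vol g) s (fun p => p) m (volS m) Y
    hs.1.continuous continuous_subtype_val (fun p => norm_eq_of_mem_sphere p) (by linarith) hv cY
    od.mono od.zero od.bdd mass
  obtain ⟨S, hS⟩ : ∃ S : Sph m → ℝ, S = fun p => s p + log (aff v p) := ⟨_, rfl⟩
  obtain ⟨sS, pos, ⟨μ, hμ, c, c1, c2, c3, c4⟩, cur⟩ := geo v v1 v2 S hS
  have cS := sS.continuous
  have eS : ∀ p : Sph m, s p + log (aff v p) = S p := fun p => by rw [hS]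
  simp only [eS] at bal
  have ab := hA m (Sph m) μ c a1 B Y od (fun p => S p + k)
    (c.add (c1 S sS) (c.const k)) (by
      have := c4 (fun p => Y (m * (S p + k))) (by fun_prop)
      have b := bal v
      simp only [div_self (pos _).ne', mul_one] at b
      exact (mul_eq_zero.1 (this.trans b)).resolve_left hv.ne') fun i => by
      have cx := c.cont (c.xsm i)
      have := c4 (fun p => Y (m * (S p + k)) * c.x i p) (by fun_prop)
      have b := bal (fr v i)
      simp only [← c3] at b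
      exact (mul_eq_zero.1 (this.trans b)).resolve_left hv.ne'
  have T := fun a ha => test a2 g gf sS c c2 c4 cur od.smB k (a := a) ha
  refine ⟨not_lt.1 fun h => ?_, fun h => ?_⟩
  · obtain ⟨a, b1, b2⟩ := EReal.lt_iff_exists_real_btwn.1 h
    obtain ⟨Z, Z0, b⟩ := T a b2.le
    linarith [div_nonpos_of_nonpos_of_nonneg ab.1 Z0.le, EReal.coe_lt_coe_iff.1 b1]
  · obtain ⟨Z, Z0, b⟩ := T _ h.ge
    have b1 := ab.2 (by simpa [le_div_iff₀ Z0] using (le_add_iff_nonneg_left _).1 b)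
    have b2 := c4 (fun p => Y (m * (S p + k)) ^ 2) (by fun_prop)
    rw [b1, mul_zero] at b2
    refine ⟨exp k * v.1, exp k • v.2, fun x => ?_⟩
    have b3 := gp _ (by fun_prop) (fun p => by positivity) b2.symm x
    have b4 := od.mono.injective (((pow_eq_zero_iff two_ne_zero).1
      ((mul_eq_zero.1 b3).resolve_left (exp_pos _).ne')).trans od.zero.symm)
    have b5 : -s x = k + log (aff v x) := by
      linarith [(mul_eq_zero.1 b4).resolve_left (by linarith), eS x]
    rw [b5, exp_add, exp_log (pos x), aff, inner_smul_left]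
    simp [mul_sub]

end Pool.Agent.MP_c98b3a_gt.CF

end

end MrgPart1

-- marker of a merged file
example : 731051 + 789512 = 731051 + 789512 := rfl
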