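import Pool.Agent.MP_c98b3a_gt.cf.GAM

/-! Moments of quadratic harmonics on a round sphere. -/

open scoped ContDiff Matrix
open MeasureTheory Real

noncomputable section

namespace Pool.Agent.MP_c98b3a_gt.CF

namespace MOM

/-- the sum of the squares of the entries -/
def fro {ι : Type} [Fintype ι] (B : Matrix ι ι ℝ) : ℝ := ∑ i, ∑ l, B i l ^ 2

section

variable {ι : Type} [Fintype ι] {A B : Matrix ι ι ℝ}

theorem fro_nonneg (B : Matrix ι ι ℝ) : 0 ≤ fro B := by unfold fro; positivity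

theorem tr_mul (hB : B.IsSymm) : (A * B).trace = ∑ i, ∑ l, A i l * B i l := by
  simp only [Matrix.trace, Matrix.diag_apply, Matrix.mul_apply]
  exact Finset.sum_congr rfl fun i _ => Finset.sum_congr rfl fun l _ => by rw [hB.apply i l]

theorem tr_sq (hB : B.IsSymm) : (B * B).trace = fro B := by
  rw [tr_mul hB, fro]
  simp only [sq]

theorem tr_cs (hB : B.IsSymm) : (A * B).trace ^ 2 ≤ fro A * fro B := by
  rw [tr_mul hB, fro, fro, ← Finset.sum_product', ← Finset.sum_product', ← Finset.sum_product']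
  exact Finset.sum_mul_sq_le_sq_mul_sq _ _ _

theorem fro_mul (A B : Matrix ι ι ℝ) : fro (A * B) ≤ fro A * fro B := by
  have e : fro B = ∑ l, ∑ k, B k l ^ 2 := Finset.sum_comm
  rw [e, fro, fro, Finset.sum_mul_sum]
  exact Finset.sum_le_sum fun i _ => Finset.sum_le_sum fun l _ =>
    Finset.sum_mul_sq_le_sq_mul_sq _ _ _

end

theorem arith1 {N P p4 p6 a22 a24 X Y M6 : ℝ} (hN : 1 ≤ N) (hP : 0 ≤ P)
    (h4 : p4 ≤ (N * (N + 2) * P) ^ 2) (h6 : p6 ≤ N * (N + 2) * P * p4)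
    (e1 : N * (2 * N + 4) * a22 = 2 * (N * (N + 2) * P) ^ 2 + 4 * p4)
    (e2 : N * (2 * N + 4) * a24 = 2 * (N * (N + 2) * P) * p4 + 4 * p6)
    (e3 : (2 * N + 8) * Y = 2 * (N * (N + 2) * P) * a22 + 8 * a24)
    (e4 : (2 * N + 20) * M6 = 20 * X)
    (y : 3 * (N / 10) ^ 2 * X ≤ 2 * (N / 10) ^ 3 * M6 + Y) : M6 ≤ 1875 * (2 * P) ^ 3 := by
  have hD : 0 < N * (N + 2) := by positivity
  set D := N * (N + 2) with hd
  have b1 : a22 ≤ 3 * D * P ^ 2 := by
    refine le_of_mul_le_mul_left ?_ hD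
    nlinarith
  have b0 : D * P * p4 ≤ D * P * (D * P) ^ 2 := mul_le_mul_of_nonneg_left h4 (by positivity)
  have b2 : a24 ≤ 3 * D ^ 2 * P ^ 3 := by
    refine le_of_mul_le_mul_left ?_ hD
    nlinarith
  have b3 : (N + 4) * Y ≤ 15 * D ^ 2 * P ^ 3 := by
    nlinarith [mul_le_mul_of_nonneg_left b1 (show 0 ≤ D * P by positivity)]
  have b4 : N ^ 2 * (N + 30) * M6 ≤ 1000 * Y := by
    have : X = (N + 10) / 10 * M6 := by linarith
    rw [this] at y
    nlinarith
  have b5 : (N + 4) * (N ^ 2 * (N + 30) * M6) ≤ 15000 * D ^ 2 * P ^ 3 := by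
    nlinarith [mul_le_mul_of_nonneg_left b4 (show 0 ≤ N + 4 by positivity)]
  have b6 : D ^ 2 * P ^ 3 ≤ (N + 4) * (N ^ 2 * (N + 30)) * P ^ 3 := by
    refine mul_le_mul_of_nonneg_right ?_ (by positivity)
    rw [hd]
    nlinarith [mul_pos (show 0 < N ^ 2 by positivity) (show 0 < N by positivity)]
  refine le_of_mul_le_mul_left ?_ (show 0 < (N + 4) * (N ^ 2 * (N + 30)) by positivity)
  nlinarith

theorem arith2 {N P p3 p4 a12 a22 a13 b M3 M4 : ℝ} (hN : 1000 ≤ N) (hP : 0 ≤ P) (h0 : 0 ≤ p4)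
    (h3 : p3 ^ 2 ≤ N * (N + 2) * P * p4) (h4 : p4 ≤ (N * (N + 2) * P) ^ 2)
    (e1 : N * (2 * N + 4) * a22 = 2 * (N * (N + 2) * P) ^ 2 + 4 * p4)
    (e2 : N * (2 * N + 4) * a12 = 4 * p3) (e3 : N * (2 * N + 4) * a13 = 4 * p4)
    (e4 : (2 * N + 8) * M3 = 8 * a12) (e5 : (2 * N + 8) * b = 4 * a22 + 4 * a13)
    (e6 : (2 * N + 12) * M4 = 12 * b) :
    -3 / 2 * (2 * P) + 13 / 12 * M3 - 11 / 96 * M4 + 9 / 100 * (2 * P) ^ 2 ≤ -(1 / 50) * (2 * P) := by
  have hN0 : 0 < N := by linarith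
  have hD : 0 < N * (N + 2) := by positivity
  obtain ⟨z, rfl⟩ : ∃ z, p4 = N * (N + 2) * (N + 4) ^ 2 * z :=
    ⟨p4 / (N * (N + 2) * (N + 4) ^ 2), by field_simp⟩
  obtain ⟨y, rfl⟩ : ∃ y, p3 = N * (N + 2) * (N + 4) * y :=
    ⟨p3 / (N * (N + 2) * (N + 4)), by field_simp⟩
  set D := N * (N + 2) with hd
  have z0 : 0 ≤ z := nonneg_of_mul_nonneg_right h0 (by positivity)
  have c1 : y ^ 2 ≤ P * z := by
    refine le_of_mul_le_mul_left ?_ (show 0 < D ^ 2 * (N + 4) ^ 2 by positivity)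
    nlinarith
  have c2 : z ≤ P ^ 2 := by
    refine le_of_mul_le_mul_left ?_ (show 0 < D * (N + 4) ^ 2 by positivity)
    refine h4.trans ?_
    rw [mul_pow, sq D, mul_assoc D D, mul_assoc D]
    refine mul_le_mul_of_nonneg_left (mul_le_mul_of_nonneg_right ?_ (sq_nonneg P)) hD.le
    rw [hd]
    nlinarith
  have c3 : a12 = 2 * (N + 4) * y := mul_left_cancel₀ hD.ne' (by nlinarith)
  have c4 : a13 = 2 * (N + 4) ^ 2 * z := mul_left_cancel₀ hD.ne' (by nlinarith)
  have c5 : a22 = D * P ^ 2 + 2 * (N + 4) ^ 2 * z := mul_left_cancel₀ hD.ne' (by nlinarith)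
  have c6 : M3 = 8 * y := mul_left_cancel₀ (show N + 4 ≠ 0 by positivity) (by rw [c3] at e4; linarith)
  have c7 : (N + 4) * (N + 6) * M4 = 12 * D * P ^ 2 + 48 * (N + 4) ^ 2 * z := by
    rw [c4, c5] at e5
    nlinarith
  have c8 : 1176 / 100 * P ^ 2 + 4752 / 100 * z ≤ M4 := by
    refine le_of_mul_le_mul_left ?_ (show 0 < (N + 4) * (N + 6) by positivity)
    have a1 : 98 / 100 * ((N + 4) * (N + 6)) ≤ D := by rw [hd]; nlinarith
    have a2 : 99 / 100 * ((N + 4) * (N + 6)) ≤ (N + 4) ^ 2 := by nlinarith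
    nlinarith [mul_le_mul_of_nonneg_right a1 (sq_nonneg P), mul_le_mul_of_nonneg_right a2 z0]
  have c9 : 26 / 3 * y ≤ 296 / 100 * P + 64 / 10 * z := by
    refine (abs_le_of_sq_le_sq' ?_ (by positivity)).2
    nlinarith [sq_nonneg (296 / 100 * P - 64 / 10 * z), mul_nonneg hP z0]
  rw [c6]
  nlinarith

variable {m : ℕ} {M : Type} [TopologicalSpace M] [MeasurableSpace M] {μ : Measure M} (c : SC m M μ)

theorem sm_sum {κ : Type} (s : Finset κ) {F : κ → M → ℝ} (h : ∀ i, c.Sm (F i)) :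
    c.Sm (fun p => ∑ i ∈ s, F i p) ∧
      ∀ {G}, c.Sm G → ∀ p, c.Γ (fun p => ∑ i ∈ s, F i p) G p = ∑ i ∈ s, c.Γ (F i) G p := by
  classical
  induction s using Finset.induction_on with
  | empty => exact ⟨by simpa using c.const 0, fun _ p => by simpa using c.Γconst 0 _ p⟩
  | insert a s ha ih =>
    simp only [Finset.sum_insert ha]
    exact ⟨c.add (h a) ih.1, fun hG p => by rw [c.Γadd (h a) ih.1 hG, ih.2 hG]⟩

theorem sm_term (a : ℝ) (i j : Fin (m + 1)) : c.Sm fun p => a * (c.x i p * c.x j p) :=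
  c.mul (c.const a) (c.mul (c.xsm i) (c.xsm j))

theorem sm_qf (A : Matrix (Fin (m + 1)) (Fin (m + 1)) ℝ) : c.Sm (c.qf A) :=
  (sm_sum c _ fun i => (sm_sum c _ fun j => sm_term c (A i j) i j).1).1

theorem gam_qf {A : Matrix (Fin (m + 1)) (Fin (m + 1)) ℝ} (hA : A.IsSymm) {G : M → ℝ} (hG : c.Sm G)
    (p : M) : c.Γ (c.qf A) G p = 2 * ∑ i, ∑ j, A i j * (c.x i p * c.Γ (c.x j) G p) := by
  have e : c.Γ (c.qf A) G p = ∑ i, ∑ j, (A i j * (c.x i p * c.Γ (c.x j) G p) +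
      A j i * (c.x j p * c.Γ (c.x i) G p)) := by
    refine ((sm_sum c _ fun i => (sm_sum c _ fun j => sm_term c (A i j) i j).1).2 hG p).trans ?_
    refine Finset.sum_congr rfl fun i _ => ?_
    refine ((sm_sum c _ fun j => sm_term c (A i j) i j).2 hG p).trans ?_
    refine Finset.sum_congr rfl fun j _ => ?_
    rw [c.Γmul (c.const _) (c.mul (c.xsm i) (c.xsm j)) hG, c.Γconst,
      c.Γmul (c.xsm i) (c.xsm j) hG, hA.apply i j]
    ring
  rw [e]
  simp only [Finset.sum_add_distrib]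
  rw [Finset.sum_comm (f := fun i j => A j i * (c.x j p * c.Γ (c.x i) G p))]
  ring

theorem gam_qq {A B : Matrix (Fin (m + 1)) (Fin (m + 1)) ℝ} (hA : A.IsSymm) (hB : B.IsSymm)
    (p : M) : c.Γ (c.qf A) (c.qf B) p = 4 * (c.qf (A * B) p - c.qf A p * c.qf B p) := by
  have e : ∀ j, c.Γ (c.x j) (c.qf B) p = 2 * (∑ k, B j k * c.x k p - c.qf B p * c.x j p) := by
    intro j
    rw [c.Γsymm (c.xsm j) (sm_qf c B), gam_qf c hB (c.xsm j), SC.qf, Finset.sum_mul,
      ← Finset.sum_sub_distrib]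
    congr 1
    refine Finset.sum_congr rfl fun k _ => ?_
    simp only [c.Γx, mul_sub, Finset.sum_sub_distrib, mul_ite, mul_one, mul_zero,
      Finset.sum_ite_eq', Finset.mem_univ, if_true, Finset.sum_mul, hB.apply j k]
    congr 1
    exact Finset.sum_congr rfl fun l _ => by ring
  have e1 : c.qf (A * B) p = ∑ i, ∑ j, A i j * (c.x i p * ∑ k, B j k * c.x k p) := by
    simp only [SC.qf, Matrix.mul_apply, Finset.sum_mul, Finset.mul_sum]
    refine Finset.sum_congr rfl fun i _ => Finset.sum_comm.trans ?_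
    exact Finset.sum_congr rfl fun j _ => Finset.sum_congr rfl fun k _ => by ring
  have e2 : c.qf A p * c.qf B p = ∑ i, ∑ j, A i j * (c.x i p * (c.qf B p * c.x j p)) := by
    rw [SC.qf, Finset.sum_mul]
    refine Finset.sum_congr rfl fun i _ => ?_
    rw [Finset.sum_mul]
    exact Finset.sum_congr rfl fun j _ => by ring
  rw [gam_qf c hA (sm_qf c B), e1, e2, ← Finset.sum_sub_distrib, Finset.mul_sum, Finset.mul_sum]
  refine Finset.sum_congr rfl fun i _ => ?_
  rw [← Finset.sum_sub_distrib, Finset.mul_sum, Finset.mul_sum]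
  exact Finset.sum_congr rfl fun j _ => by rw [e]; ring

theorem gam_mul {F G H : M → ℝ} (hF : c.Sm F) (hG : c.Sm G) (hH : c.Sm H) (p : M) :
    c.Γ F (fun p => G p * H p) p = G p * c.Γ F H p + H p * c.Γ F G p := by
  rw [c.Γsymm hF (c.mul hG hH), c.Γmul hG hH hF, c.Γsymm hF hH, c.Γsymm hF hG]

theorem gam_pow {F G : M → ℝ} (hF : c.Sm F) (hG : c.Sm G) (n : ℕ) :
    c.Sm (fun p => G p ^ (n + 1)) ∧
      ∀ p, c.Γ F (fun p => G p ^ (n + 1)) p = (n + 1) * G p ^ n * c.Γ F G p := by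
  induction n with
  | zero => exact ⟨by simpa using hG, fun p => by simp⟩
  | succ n ih =>
    simp only [pow_succ _ (n + 1)]
    refine ⟨c.mul ih.1 hG, fun p => ?_⟩
    rw [gam_mul c hF ih.1 hG, ih.2]
    push_cast
    ring

variable [CompactSpace M] [BorelSpace M] [IsProbabilityMeasure μ]

theorem ig {F : M → ℝ} (h : Continuous F) : Integrable F μ :=
  h.integrable_of_hasCompactSupport (HasCompactSupport.of_compactSpace F)

theorem lin3 {F f g h : M → ℝ} (hf : Continuous f) (hg : Continuous g) (hh : Continuous h)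
    (a b d : ℝ) (e : ∀ p, F p = a * f p + b * g p + d * h p) :
    ∫ p, F p ∂μ = a * ∫ p, f p ∂μ + b * ∫ p, g p ∂μ + d * ∫ p, h p ∂μ := by
  simp only [e]
  rw [integral_add (ig (by fun_prop)) (ig (by fun_prop)),
    integral_add (ig (by fun_prop)) (ig (by fun_prop)), integral_const_mul, integral_const_mul,
    integral_const_mul]

theorem int_x {G : M → ℝ} (hG : c.Sm G) (i j : Fin (m + 1)) :
    ∫ p, c.x i p * c.Γ (c.x j) G p ∂μ =
      (m + 1) * ∫ p, c.x i p * c.x j p * G p ∂μ - (if i = j then 1 else 0) * ∫ p, G p ∂μ := by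
  have hi := c.cont (c.xsm i)
  have hj := c.cont (c.xsm j)
  have hg := c.cont hG
  have s := c.stein j (c.mul (c.xsm i) hG)
  rw [lin3 (f := fun p => c.x i p * c.Γ (c.x j) G p) (g := G)
    (h := fun p => c.x i p * c.x j p * G p) (hi.mul (c.Γcont (c.xsm j) hG)) hg (by fun_prop)
    1 (if i = j then 1 else 0) (-1) fun p => by
      rw [gam_mul c (c.xsm j) (c.xsm i) hG, c.Γx]
      simp only [eq_comm (a := j)]
      ring] at s
  have e : ∫ p, c.x j p * (c.x i p * G p) ∂μ = ∫ p, c.x i p * c.x j p * G p ∂μ :=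
    integral_congr_ae (.of_forall fun p => by ring)
  rw [e] at s
  linarith

theorem int_qf {A : Matrix (Fin (m + 1)) (Fin (m + 1)) ℝ} (hA : A.IsSymm) {G : M → ℝ}
    (hG : c.Sm G) : ∫ p, c.Γ (c.qf A) G p ∂μ =
      2 * (m + 1) * ∫ p, c.qf A p * G p ∂μ - 2 * A.trace * ∫ p, G p ∂μ := by
  have hx := fun i => c.cont (c.xsm i)
  have hg := c.cont hG
  have hΓ := fun j => c.Γcont (c.xsm j) hG
  have e1 : ∫ p, c.qf A p * G p ∂μ = ∑ i, ∑ j, A i j * ∫ p, c.x i p * c.x j p * G p ∂μ := by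
    simp only [SC.qf, Finset.sum_mul, mul_assoc]
    rw [integral_finsetSum _ fun i _ => ig (by fun_prop)]
    refine Finset.sum_congr rfl fun i _ => ?_
    rw [integral_finsetSum _ fun j _ => ig (by fun_prop)]
    simp only [integral_const_mul]
  simp only [gam_qf c hA hG]
  rw [integral_const_mul, integral_finsetSum _ fun i _ => ig (by fun_prop), e1, Matrix.trace,
    Finset.mul_sum, Finset.mul_sum, Finset.mul_sum, Finset.sum_mul, ← Finset.sum_sub_distrib]
  refine Finset.sum_congr rfl fun i _ => ?_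
  rw [integral_finsetSum _ fun j _ => ig (by fun_prop)]
  simp only [integral_const_mul, int_x c hG, mul_sub, Finset.sum_sub_distrib, ite_mul, one_mul,
    zero_mul, mul_ite, mul_zero, Finset.sum_ite_eq, Finset.mem_univ, if_true, Matrix.diag_apply,
    Finset.mul_sum]
  congr 1
  · exact Finset.sum_congr rfl fun j _ => by ring
  · ring

theorem int_one {A : Matrix (Fin (m + 1)) (Fin (m + 1)) ℝ} (hA : A.IsSymm) :
    (m + 1) * ∫ p, c.qf A p ∂μ = A.trace := by
  have h := int_qf c hA (c.const 1)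
  simp only [c.Γsymm (sm_qf c A) (c.const 1), c.Γconst, mul_one, integral_zero, integral_const,
    probReal_univ, smul_eq_mul] at h
  linarith

theorem int_two {A B : Matrix (Fin (m + 1)) (Fin (m + 1)) ℝ} (hA : A.IsSymm) (hB : B.IsSymm)
    (hAB : (A * B).IsSymm) : (m + 1) * (2 * (m + 1) + 4) * ∫ p, c.qf A p * c.qf B p ∂μ =
      2 * A.trace * B.trace + 4 * (A * B).trace := by
  have ha := c.cont (sm_qf c A)
  have h := int_qf c hA (sm_qf c B)
  rw [lin3 (c.cont (sm_qf c (A * B))) (ha.mul (c.cont (sm_qf c B))) ha 4 (-4) 0 fun p => by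
    rw [gam_qq c hA hB]; simp only [Pi.mul_apply]; ring] at h
  simp only [Pi.mul_apply] at h
  rw [← int_one c hB, ← int_one c hAB]
  linear_combination (-(m + 1 : ℝ)) * h

theorem int_pow {A : Matrix (Fin (m + 1)) (Fin (m + 1)) ℝ} (hA : A.IsSymm) (n : ℕ) :
    (2 * (m + 1) + 4 * (n + 1)) * ∫ p, c.qf A p ^ (n + 2) ∂μ =
      4 * (n + 1) * ∫ p, c.qf A p ^ n * c.qf (A * A) p ∂μ +
        2 * A.trace * ∫ p, c.qf A p ^ (n + 1) ∂μ := by
  have ha := c.cont (sm_qf c A)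
  have hb := c.cont (sm_qf c (A * A))
  have g := gam_pow c (sm_qf c A) (sm_qf c A) n
  have h := int_qf c hA g.1
  rw [lin3 (f := fun p => c.qf A p ^ n * c.qf (A * A) p) (g := fun p => c.qf A p ^ (n + 2))
    (by fun_prop) (by fun_prop) ha (4 * (n + 1)) (-4 * (n + 1)) 0 fun p => by
      rw [g.2, gam_qq c hA hA]; ring] at h
  have e : ∫ p, c.qf A p * c.qf A p ^ (n + 1) ∂μ = ∫ p, c.qf A p ^ (n + 2) ∂μ :=
    integral_congr_ae (.of_forall fun p => by ring)
  rw [e] at h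
  linear_combination (-1 : ℝ) * h

end MOM

open MOM in
theorem mom : S_MOM := by
  refine ⟨1875, by norm_num, 1000, fun m M _ _ _ _ _ μ _ c hm A hA h1 => ?_⟩
  have hN : (1000 : ℝ) ≤ m + 1 := by exact_mod_cast hm.trans (Nat.le_succ m)
  have h2 : (A * A).IsSymm := by simpa [sq] using hA.pow 2
  have h3 : (A * (A * A)).IsSymm := by simpa [pow_succ'] using hA.pow 3
  have h4 : (A * A * (A * A)).IsSymm := by simpa [sq] using h2.pow 2
  have h6 : (A * A * (A * A * (A * A))).IsSymm := by simpa [pow_succ'] using h2.pow 3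
  have m4 : A * (A * (A * A)) = A * A * (A * A) := by simp only [Matrix.mul_assoc]
  have m6 : A * A * (A * A * (A * A)) = A * (A * A) * (A * (A * A)) := by
    simp only [Matrix.mul_assoc]
  have ha := c.cont (sm_qf c A)
  have hb := c.cont (sm_qf c (A * A))
  obtain ⟨P, hP⟩ : ∃ P : ℝ, fro A = (m + 1) * (m + 1 + 2) * P :=
    ⟨fro A / ((m + 1) * (m + 1 + 2)), by field_simp⟩
  have P0 : 0 ≤ P := nonneg_of_mul_nonneg_right (hP ▸ fro_nonneg A) (by positivity)
  have t4 : fro (A * A) ≤ ((m + 1) * (m + 1 + 2) * P) ^ 2 := by rw [← hP, sq]; exact fro_mul A A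
  have t6 := fro_mul A (A * A)
  have t3 := tr_cs (A := A) h2
  have e11 := int_two c hA hA h2
  have e12 := int_two c hA h2 h3
  have e13 := int_two c hA h3 (m4 ▸ h4)
  have e22 := int_two c h2 h2 h4
  have e24 := int_two c h2 h4 h6
  have f3 := int_pow c hA 1
  have f4 := int_pow c hA 2
  have f6 := int_pow c hA 4
  have g3 := int_pow c h2 1
  have k := int_qf c hA (c.mul (sm_qf c A) (sm_qf c (A * A)))
  rw [lin3 (f := fun p => c.qf (A * A) p * c.qf (A * A) p)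
    (g := fun p => c.qf A p * c.qf (A * (A * A)) p) (h := fun p => c.qf A p ^ 2 * c.qf (A * A) p)
    (by fun_prop) (ha.mul (c.cont (sm_qf c _))) (by fun_prop) 4 4 (-8) fun p => by
      rw [gam_mul c (sm_qf c A) (sm_qf c A) (sm_qf c _), gam_qq c hA h2, gam_qq c hA hA]
      ring] at k
  have k' : ∫ p, c.qf A p * (c.qf A p * c.qf (A * A) p) ∂μ =
      ∫ p, c.qf A p ^ 2 * c.qf (A * A) p ∂μ := integral_congr_ae (.of_forall fun p => by ring)
  have y : 3 * ((m + 1 : ℝ) / 10) ^ 2 * ∫ p, c.qf A p ^ 4 * c.qf (A * A) p ∂μ ≤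
      2 * ((m + 1 : ℝ) / 10) ^ 3 * ∫ p, c.qf A p ^ 6 ∂μ + ∫ p, c.qf (A * A) p ^ 3 ∂μ := by
    rw [← integral_const_mul, ← integral_const_mul,
      ← integral_add (ig (by fun_prop)) (ig (by fun_prop))]
    refine integral_mono (ig (by fun_prop)) (ig (by fun_prop)) fun p => ?_
    have a := c.Γnonneg (sm_qf c A) p
    rw [gam_qq c hA hA] at a
    have b : 0 ≤ c.qf (A * A) p := by nlinarith [mul_self_nonneg (c.qf A p)]
    have d : 0 ≤ ((m + 1 : ℝ) / 10 * c.qf A p ^ 2 - c.qf (A * A) p) ^ 2 *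
        (2 * ((m + 1 : ℝ) / 10 * c.qf A p ^ 2) + c.qf (A * A) p) := by positivity
    dsimp only
    nlinarith
  have q := lin3 (μ := μ) (F := fun p => QQ (c.qf A p)) (f := fun p => c.qf A p ^ 2)
    (g := fun p => c.qf A p ^ 3) (h := fun p => c.qf A p ^ 4) (by fun_prop) (by fun_prop)
    (by fun_prop) (-3 / 2) (13 / 12) (-11 / 96) fun p => by rw [QQ]; ring
  have s1 : ∀ B, ∫ p, c.qf B p * c.qf B p ∂μ = ∫ p, c.qf B p ^ 2 ∂μ := fun B => by simp only [sq]
  rw [m4] at e13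
  rw [m6] at e24
  rw [hP] at t3 t6
  simp only [h1, tr_sq hA, tr_sq h2, tr_sq h3, hP, k', s1, pow_one, Nat.reduceAdd, Nat.cast_one,
    Nat.cast_ofNat] at e11 e12 e13 e22 e24 f3 f4 f6 g3 k
  have V : ∫ p, c.qf A p ^ 2 ∂μ = 2 * P :=
    mul_left_cancel₀ (show ((m + 1 : ℝ) * (m + 1 + 2)) ≠ 0 by positivity) (by linarith)
  rw [q, V]
  have r := arith2 (M3 := ∫ p, c.qf A p ^ 3 ∂μ) (M4 := ∫ p, c.qf A p ^ 4 ∂μ)
    (b := ∫ p, c.qf A p ^ 2 * c.qf (A * A) p ∂μ) hN P0 (fro_nonneg _) t3 t4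
    (e22.trans (by ring)) (e12.trans (by ring)) (e13.trans (by ring)) (by linarith) (by linarith)
    (by linarith)
  exact ⟨arith1 (by linarith) P0 t4 t6 (e22.trans (by ring)) e24 (by linarith) (by linarith) y,
    by linarith⟩

end Pool.Agent.MP_c98b3a_gt.CF

end
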