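import Pool.Agent.MP_c98b3a_gt.cf.ONE

/-! The density is almost linear in the profile. -/

open scoped ContDiff
open MeasureTheory Real

noncomputable section

namespace Pool.Agent.MP_c98b3a_gt.CF

namespace Od

variable {L x : ℝ}

theorem abs_YY (hL : 100 ≤ L) (hx : |x| ≤ L) : 49 / 50 * |x| ≤ |YY L x| := by
  have h0 : 0 < L := by linarith
  have a := le_YY_sq h0 x
  have b : 1 / L ≤ 1 := (div_le_one h0).2 (by linarith)
  have c : x ^ 2 ≤ L ^ 2 := sq_le_sq.2 (hx.trans (le_abs_self L))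
  have d : x ^ 3 ≤ L * x ^ 2 := by nlinarith [le_abs_self x, sq_nonneg x]
  have e : (2 + 1 / L) * x ^ 4 ≤ 3 * (L ^ 2 * x ^ 2) :=
    mul_le_mul (by linarith) (by nlinarith [sq_nonneg x]) (by positivity) (by norm_num)
  have f : L / 2 + L ^ 2 / 4 ≤ L ^ 4 / 100 := by
    have : 100 * L ≤ L ^ 2 := by nlinarith
    nlinarith
  have g : L ^ 4 * (49 / 50 * x) ^ 2 ≤ L ^ 4 * YY L x ^ 2 := by
    nlinarith [mul_le_mul_of_nonneg_right f (sq_nonneg x), mul_nonneg (pow_pos h0 4).le (sq_nonneg x)]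
  have := sq_le_sq.1 (le_of_mul_le_mul_left g (pow_pos h0 4))
  rwa [abs_mul, abs_of_pos (by norm_num : (0 : ℝ) < 49 / 50)] at this

theorem abs_YY' (hL : 100 ≤ L) (hx : L ≤ |x|) : 49 / 50 * L ≤ |YY L x| := by
  have h0 : 0 < L := by linarith
  have m := (mono_YY L).monotone
  rcases le_abs'.1 hx with s | s
  · have a := abs_YY hL (x := -L) (by rw [abs_neg, abs_of_pos h0])
    have b := m s
    have c := m (show -L ≤ 0 by linarith)
    rw [YY_zero] at c
    rw [abs_neg, abs_of_pos h0, abs_of_nonpos c] at a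
    linarith [neg_abs_le (YY L x)]
  · have a := abs_YY hL (x := L) (by rw [abs_of_pos h0])
    have b := m s
    have c := m h0.le
    rw [YY_zero] at c
    rw [abs_of_pos h0, abs_of_nonneg c] at a
    linarith [le_abs_self (YY L x)]

theorem key (hL : 100 ≤ L) (x : ℝ) :
    |exp (BB L x / L ^ 4) * (1 - gg L x / 2) - uu L x| ≤ 3 / 5 * |YY L x| * uu L x := by
  have h0 : 0 < L := by linarith
  have h4 : 0 < 2 * L ^ 4 := by positivity
  set n := BB L x + 2 * x + (1 + 1 / L) * gg L x ^ 2 / 4 with hn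
  have e : exp (BB L x / L ^ 4) * (1 - gg L x / 2) - uu L x =
      (exp (n / (2 * L ^ 4)) * (1 - gg L x / 2) - 1) * uu L x := by
    have : exp (BB L x / L ^ 4) = exp (n / (2 * L ^ 4)) * uu L x := by
      rw [uu, ← exp_add, ww, hn]
      congr 1
      field_simp
      ring
    rw [this]
    ring
  rw [e, abs_mul, abs_of_pos (uu_pos L x)]
  refine mul_le_mul_of_nonneg_right ?_ (uu_pos L x).le
  have b : 1 / L ≤ 1 := (div_le_one h0).2 (by linarith)
  have b0 : 0 ≤ (1 + 1 / L) * gg L x ^ 2 := by positivity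
  have g1 : |1 - gg L x / 2| ≤ 1 + L / 2 := by
    have := abs_le.1 (abs_gg_le' h0 x)
    exact abs_le.2 ⟨by linarith, by linarith⟩
  have l2 : 100 * L ≤ L ^ 2 := by nlinarith
  have l3 : 100 * L ^ 2 ≤ L ^ 3 := by nlinarith
  rcases le_total |x| L with s | s
  · have c : x ^ 2 ≤ L * |x| := by nlinarith [sq_abs x, abs_nonneg x]
    have b1 : (1 + 1 / L) * gg L x ^ 2 ≤ 2 * x ^ 2 :=
      mul_le_mul (by linarith) (gg_sq_le L x) (sq_nonneg _) zero_le_two
    have l1 : 100 * |x| ≤ L * |x| := mul_le_mul_of_nonneg_right hL (abs_nonneg x)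
    have n1 : |n| ≤ L * |x| := abs_le.2 ⟨by linarith [le_BB h0 x, neg_abs_le x, abs_nonneg x],
      by linarith [BB_le h0 x, le_abs_self x, abs_nonneg x]⟩
    have z1 : |n / (2 * L ^ 4)| ≤ |x| / (2 * L ^ 3) := by
      rw [abs_div, abs_of_pos h4, div_le_div_iff₀ h4 (by positivity)]
      nlinarith [mul_le_mul_of_nonneg_right n1 (show 0 ≤ 2 * L ^ 3 by positivity)]
    have z2 := abs_exp_sub_one_le (z1.trans ((div_le_one (by positivity)).2 (by linarith)))
    have z3 : 2 * (|x| / (2 * L ^ 3)) * (1 + L / 2) ≤ |x| / 100 := by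
      rw [show 2 * (|x| / (2 * L ^ 3)) * (1 + L / 2) = |x| * ((1 + L / 2) / L ^ 3) by field_simp,
        div_eq_mul_one_div |x|]
      exact mul_le_mul_of_nonneg_left ((div_le_iff₀ (by positivity)).2 (by linarith)) (abs_nonneg x)
    have z4 : |(exp (n / (2 * L ^ 4)) - 1) * (1 - gg L x / 2)| ≤ |x| / 100 := by
      rw [abs_mul]
      exact (mul_le_mul (z2.trans (by linarith)) g1 (abs_nonneg _) (by positivity)).trans z3
    have z5 := abs_le.1 (abs_gg_le L x)
    have z6 := abs_le.1 z4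
    have z7 := abs_YY hL s
    exact abs_le.2 ⟨by linarith [abs_nonneg x], by linarith [abs_nonneg x]⟩
  · have b1 : (1 + 1 / L) * gg L x ^ 2 ≤ 2 * L ^ 2 :=
      mul_le_mul (by linarith) (gg_sq_le' h0 x) (sq_nonneg _) zero_le_two
    have l1 : 100 * |x| ≤ L * |x| := mul_le_mul_of_nonneg_right hL (abs_nonneg x)
    have n1 : n ≤ L ^ 2 := by linarith [BB_le' h0 x, le_abs_self x, abs_nonneg x]
    have z1 : n / (2 * L ^ 4) ≤ 1 / 200 := by
      rw [div_le_iff₀ h4]
      nlinarith
    have z2 : exp (n / (2 * L ^ 4)) ≤ 101 / 100 := by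
      have := abs_le.1 (abs_exp_sub_one_le (x := 1 / 200) (by rw [abs_of_pos] <;> norm_num))
      rw [abs_of_pos (by norm_num : (0 : ℝ) < 1 / 200)] at this
      linarith [exp_le_exp.2 z1]
    have z4 : |exp (n / (2 * L ^ 4)) * (1 - gg L x / 2)| ≤ 101 / 100 * (1 + L / 2) := by
      rw [abs_mul, abs_of_pos (exp_pos _)]
      exact mul_le_mul z2 g1 (abs_nonneg _) (by norm_num)
    have z6 := abs_le.1 z4
    have z7 := abs_YY' hL s
    exact abs_le.2 ⟨by linarith, by linarith⟩

end Od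

theorem od : S_OD := fun L hL S => by
  have h0 : 0 < L := by linarith
  have d : ∀ x, HasDerivAt (fun x => L ^ 4 * (exp (BB L x / L ^ 4) - 1) - YY L x)
      (exp (BB L x / L ^ 4) * (1 - gg L x / 2) - uu L x) x := fun x => by
    refine ((((((hd_BB h0 x).div_const (L ^ 4)).exp).sub_const 1).const_mul _).sub
      (hd_YY L x)).congr_deriv ?_
    field_simp
  have q : ∀ x, HasDerivAt (fun x => 3 / 10 * YY L x ^ 2) (3 / 5 * YY L x * uu L x) x := fun x =>
    (((hd_YY L x).pow 2).const_mul _).congr_deriv (by push_cast; ring)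
  have p : ∀ x, 0 < x → |YY L x| = YY L x := fun x h =>
    abs_of_pos (YY_zero L ▸ mono_YY L h)
  have n : ∀ x, x < 0 → |YY L x| = -YY L x := fun x h =>
    abs_of_neg (YY_zero L ▸ mono_YY L h)
  have k := fun x => abs_le.1 (Od.key hL x)
  have a := nonneg_of_deriv (S := S) (fun x => (q x).sub (d x)) (by simp [YY_zero, BB_zero])
    (fun x h _ => by have := k x; rw [p x h] at this; linarith [this.2])
    fun x h _ => by have := k x; rw [n x h] at this; linarith [this.1]
  have b := nonneg_of_deriv (S := S) (fun x => (q x).add (d x)) (by simp [YY_zero, BB_zero])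
    (fun x h _ => by have := k x; rw [p x h] at this; linarith [this.1])
    fun x h _ => by have := k x; rw [n x h] at this; linarith [this.2]
  simp only [Pi.sub_apply, Pi.add_apply] at a b
  exact abs_le.2 ⟨by linarith, by linarith⟩

end Pool.Agent.MP_c98b3a_gt.CF

end
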