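import Pool.Agent.MP_c98b3a_gt.cf.GAM

-- ======== part 0: formerly Pool.Agent.MP_c98b3a_gt.cf.Basic
section MrgPart0

/-! The profile of the test function: basic facts. -/

open scoped ContDiff
open MeasureTheory Real

noncomputable section

namespace Pool.Agent.MP_c98b3a_gt.CF

variable {L S : ℝ}

theorem rr_sq (L S : ℝ) : rr L S ^ 2 = 1 + S ^ 2 / L ^ 2 := sq_sqrt (by positivity)

theorem one_le_rr (L S : ℝ) : 1 ≤ rr L S :=
  one_le_sqrt.2 (le_add_of_nonneg_right (by positivity))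

theorem rr_pos (L S : ℝ) : 0 < rr L S := one_pos.trans_le (one_le_rr L S)

theorem abs_le_rr (hL : 0 < L) (S : ℝ) : |S| ≤ L * rr L S := by
  refine abs_le_of_sq_le_sq' ?_ (by have := rr_pos L S; positivity) |> abs_le.2
  rw [mul_pow, rr_sq]
  field_simp
  nlinarith [sq_nonneg L]

theorem rr_le (hL : 0 < L) (S : ℝ) : rr L S ≤ 1 + |S| / L := by
  refine (abs_le_of_sq_le_sq' ?_ (by positivity)).2
  rw [rr_sq, add_sq, div_pow, sq_abs]
  have : 0 ≤ |S| / L := by positivity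
  linarith

theorem abs_gg (L S : ℝ) : |gg L S| = |S| / rr L S := by rw [gg, abs_div, abs_of_pos (rr_pos L S)]

theorem abs_gg_le (L S : ℝ) : |gg L S| ≤ |S| :=
  abs_gg L S ▸ div_le_self (abs_nonneg _) (one_le_rr L S)

theorem abs_gg_le' (hL : 0 < L) (S : ℝ) : |gg L S| ≤ L :=
  abs_gg L S ▸ (div_le_iff₀ (rr_pos L S)).2 (abs_le_rr hL S)

theorem gg_sq_le (L S : ℝ) : gg L S ^ 2 ≤ S ^ 2 := sq_le_sq.2 (abs_gg_le L S)

theorem gg_sq_le' (hL : 0 < L) (S : ℝ) : gg L S ^ 2 ≤ L ^ 2 :=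
  sq_le_sq.2 ((abs_gg_le' hL S).trans (le_abs_self L))

theorem gg_nonneg (L : ℝ) (h : 0 ≤ S) : 0 ≤ gg L S := _root_.div_nonneg h (rr_pos L S).le

theorem gg_nonpos (L : ℝ) (h : S ≤ 0) : gg L S ≤ 0 := div_nonpos_of_nonpos_of_nonneg h (rr_pos L S).le

/-- a lower bound: `min (|S|, L) / 2 ≤ |g|` -/
theorem le_abs_gg (hL : 0 < L) {c : ℝ} (h1 : c ≤ |S|) (h2 : c ≤ L) (h0 : 0 ≤ c) :
    c / 2 ≤ |gg L S| := by
  rw [abs_gg, le_div_iff₀ (rr_pos L S)]
  have a : c * (|S| / L) ≤ |S| := by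
    rw [mul_div_assoc', div_le_iff₀ hL]
    nlinarith [abs_nonneg S]
  nlinarith [rr_le hL S]

theorem BB_eq (hL : 0 < L) (S : ℝ) : BB L S = S - S ^ 2 / (2 * (rr L S + 1)) := by
  have a := rr_sq L S
  have b := rr_pos L S
  have : S ^ 2 = L ^ 2 * (rr L S ^ 2 - 1) := by rw [a]; field_simp; ring
  rw [BB, this]
  field_simp
  ring

theorem BB_le (hL : 0 < L) (S : ℝ) : BB L S ≤ S := by
  have := rr_pos L S
  rw [BB_eq hL]
  exact sub_le_self _ (by positivity)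

theorem le_BB (hL : 0 < L) (S : ℝ) : S - S ^ 2 / 4 ≤ BB L S := by
  have := one_le_rr L S
  rw [BB_eq hL]
  gcongr
  linarith

theorem le_BB' (hL : 0 < L) (S : ℝ) : S - L * |S| / 2 ≤ BB L S := by
  have a := rr_le hL S
  have : L ^ 2 / 2 * (|S| / L) = L * |S| / 2 := by field_simp
  rw [BB]
  nlinarith [sq_nonneg L]

theorem BB_le' (hL : 0 < L) (S : ℝ) : BB L S ≤ S - L * |S| / 2 + L ^ 2 / 2 := by
  have a := abs_le_rr hL S
  rw [BB]
  nlinarith

theorem BB_le'' (hL : 0 < L) (S : ℝ) : BB L S ≤ S - S ^ 2 / 4 + S ^ 4 / (16 * L ^ 2) := by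
  have a := rr_sq L S
  have : S ^ 2 = L ^ 2 * (rr L S ^ 2 - 1) := by rw [a]; field_simp; ring
  have e : S ^ 4 / (16 * L ^ 2) = L ^ 2 * (rr L S ^ 2 - 1) ^ 2 / 16 := by
    rw [show S ^ 4 = (S ^ 2) ^ 2 by ring, this]; field_simp
  have b := one_le_rr L S
  rw [e, BB, this]
  have : 0 ≤ (rr L S - 1) ^ 2 * ((rr L S + 1) ^ 2 - 4) := mul_nonneg (sq_nonneg _) (by nlinarith)
  nlinarith [mul_nonneg (sq_nonneg L) this]

theorem cd_rr (L : ℝ) : ContDiff ℝ ∞ (rr L) :=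
  ContDiff.sqrt (by fun_prop) fun S => by positivity

theorem cd_gg (L : ℝ) : ContDiff ℝ ∞ (gg L) :=
  contDiff_id.div (cd_rr L) fun S => (rr_pos L S).ne'

theorem cd_BB (L : ℝ) : ContDiff ℝ ∞ (BB L) :=
  contDiff_id.sub (contDiff_const.mul ((cd_rr L).sub contDiff_const))

theorem cd_uu (L : ℝ) : ContDiff ℝ ∞ (uu L) :=
  ((((cd_BB L).sub (contDiff_const.mul contDiff_id)).sub
    ((contDiff_const.mul ((cd_gg L).pow 2)).div_const _)).div_const _).exp

theorem uu_pos (L S : ℝ) : 0 < uu L S := exp_pos _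

theorem hd_BB (hL : 0 < L) (S : ℝ) : HasDerivAt (BB L) (1 - gg L S / 2) S := by
  have a : HasDerivAt (fun S : ℝ => 1 + S ^ 2 / L ^ 2) (2 * S / L ^ 2) S := by
    simpa using ((hasDerivAt_pow 2 S).div_const (L ^ 2)).const_add 1
  have b := (hasDerivAt_id' S).sub (((a.sqrt (by positivity)).sub_const 1).const_mul (L ^ 2 / 2))
  refine b.congr_deriv ?_
  have := rr_pos L S
  rw [gg, rr] at *
  field_simp

theorem hd_YY (L S : ℝ) : HasDerivAt (YY L) (uu L S) S :=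
  ((cd_uu L).continuous.integral_hasStrictDerivAt 0 S).hasDerivAt

theorem cd_YY (L : ℝ) : ContDiff ℝ ∞ (YY L) :=
  contDiff_infty_iff_deriv.2 ⟨fun S => (hd_YY L S).differentiableAt,
    (funext fun S => (hd_YY L S).deriv) ▸ cd_uu L⟩

theorem YY_zero (L : ℝ) : YY L 0 = 0 := by simp [YY]

theorem BB_zero (L : ℝ) : BB L 0 = 0 := by simp [BB, rr]

theorem mono_YY (L : ℝ) : StrictMono (YY L) :=
  strictMono_of_deriv_pos fun S => (hd_YY L S).deriv ▸ uu_pos L S

/-- a function that vanishes at zero and whose derivative has the sign of the variable -/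
theorem nonneg_of_deriv {f f' : ℝ → ℝ} (h : ∀ x, HasDerivAt f (f' x) x) (h0 : f 0 = 0)
    (h1 : ∀ x, 0 < x → x < S → 0 ≤ f' x) (h2 : ∀ x, x < 0 → S < x → f' x ≤ 0) : 0 ≤ f S := by
  have c : Continuous f := continuous_iff_continuousAt.2 fun x => (h x).continuousAt
  rcases lt_trichotomy S 0 with s | rfl | s
  · obtain ⟨x, hx, e⟩ := exists_hasDerivAt_eq_slope f f' s c.continuousOn fun x _ => h x
    have := h2 x hx.2 hx.1
    rw [e, h0, div_nonpos_iff] at this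
    rcases this with a | a <;> linarith [a.1, a.2]
  · exact h0.ge
  · obtain ⟨x, hx, e⟩ := exists_hasDerivAt_eq_slope f f' s c.continuousOn fun x _ => h x
    have := h1 x hx.1 hx.2
    rw [e, h0, div_nonneg_iff] at this
    rcases this with a | a <;> linarith [a.1, a.2]

theorem le_ww (hL : 0 < L) (S : ℝ) : -S - (2 + 1 / L) * S ^ 2 / 4 ≤ ww L S := by
  have := mul_le_mul_of_nonneg_left (gg_sq_le L S) (show 0 ≤ 1 + 1 / L by positivity)
  rw [ww]
  linarith [le_BB hL S]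

theorem ww_le (hL : 0 < L) (S : ℝ) : ww L S ≤ BB L S - 2 * S :=
  sub_le_self _ (by positivity)

theorem le_uu (L S : ℝ) : 1 + ww L S / (2 * L ^ 4) ≤ uu L S := by
  rw [add_comm]; exact add_one_le_exp _

/-- the lower bound of `Y²`, for all `S` -/
theorem le_YY_sq (hL : 0 < L) (S : ℝ) :
    L ^ 4 * S ^ 2 - S ^ 3 / 2 - (2 + 1 / L) * S ^ 4 / 12 ≤ L ^ 4 * YY L S ^ 2 := by
  have h4 : 0 < 2 * L ^ 4 := by positivity
  have d : ∀ x, HasDerivAt (fun x => YY L x - (x + (-x ^ 2 / 2 - (2 + 1 / L) * x ^ 3 / 12) /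
      (2 * L ^ 4))) (uu L x - (1 + (-x - (2 + 1 / L) * x ^ 2 / 4) / (2 * L ^ 4))) x := fun x => by
    refine ((hd_YY L x).sub ((hasDerivAt_id' x).add (((((hasDerivAt_pow 2 x).neg.div_const 2).sub
      (((hasDerivAt_pow 3 x).const_mul _).div_const 12))).div_const _))).congr_deriv ?_
    push_cast
    ring
  have m := monotone_of_deriv_nonneg (fun x => (d x).differentiableAt) fun x => by
    rw [(d x).deriv]
    linarith [le_uu L x, div_le_div_of_nonneg_right (le_ww hL x) h4.le]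
  have k : 0 ≤ S * (YY L S - (S + (-S ^ 2 / 2 - (2 + 1 / L) * S ^ 3 / 12) / (2 * L ^ 4))) := by
    rcases le_total 0 S with s | s
    · exact mul_nonneg s (by simpa [YY_zero] using m s)
    · exact mul_nonneg_of_nonpos_of_nonpos s (by simpa [YY_zero] using m s)
  have e : 2 * L ^ 4 * (S * ((-S ^ 2 / 2 - (2 + 1 / L) * S ^ 3 / 12) / (2 * L ^ 4))) =
      -S ^ 3 / 2 - (2 + 1 / L) * S ^ 4 / 12 := by field_simp
  nlinarith [mul_nonneg h4.le k, mul_nonneg h4.le (sq_nonneg (YY L S - S))]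

theorem bdd_YY (hL : 4 ≤ L) : ∃ A, ∀ S, YY L S ≤ A := by
  have h0 : 0 < L := by linarith
  have h4 : 0 < 2 * L ^ 4 := by positivity
  refine ⟨2 * L ^ 4, fun S => ?_⟩
  rcases le_total S 0 with s | s
  · exact ((mono_YY L).monotone s).trans (by rw [YY_zero]; exact h4.le)
  have d : ∀ x, HasDerivAt (fun x => 2 * L ^ 4 * (1 - exp (-x / (2 * L ^ 4))) - YY L x)
      (exp (-x / (2 * L ^ 4)) - uu L x) x := fun x => by
    refine ((((((hasDerivAt_id' x).neg.div_const (2 * L ^ 4)).exp).const_sub 1).const_mul _).sub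
      (hd_YY L x)).congr_deriv ?_
    simp only [Pi.neg_apply]
    field_simp
  have := nonneg_of_deriv (S := S) d (by simp [YY_zero]) (fun x _ _ => sub_nonneg.2
    (exp_le_exp.2 (div_le_div_of_nonneg_right (by linarith [ww_le h0 x, BB_le h0 x]) h4.le)))
    fun x a b => by linarith
  nlinarith [exp_pos (-S / (2 * L ^ 4))]

theorem win (hL : 2 ≤ L) (S : ℝ) : (L ^ 4 - 1) * uu L S ^ 2 ≤
    (L ^ 4 - 1 - (1 - (1 - gg L S / 2)) ^ 2) * exp ((BB L S - 2 * S) / L ^ 4) := by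
  have h0 : 0 < L := by linarith
  set z := gg L S ^ 2 / (4 * L ^ 4) with hz
  have z0 : 0 ≤ z := by positivity
  have z1 : z * (4 * L ^ 2) ≤ 1 := by
    rw [hz, div_mul_eq_mul_div, div_le_one (by positivity)]
    nlinarith [mul_le_mul_of_nonneg_right (gg_sq_le' h0 S) (sq_nonneg L)]
  have e : uu L S ^ 2 = exp (-((1 + 1 / L) * z)) * exp ((BB L S - 2 * S) / L ^ 4) := by
    rw [uu, ← exp_nat_mul, ← exp_add, ww, hz]
    congr 1
    push_cast
    field_simp
    ring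
  have e2 : (1 - (1 - gg L S / 2)) ^ 2 = L ^ 4 * z := by rw [hz]; field_simp; ring
  rw [e, e2, ← mul_assoc]
  refine mul_le_mul_of_nonneg_right ?_ (exp_pos _).le
  set θ := 1 + 1 / L with hθ
  have t1 : L * θ = L + 1 := by rw [hθ]; field_simp
  have t0 : 0 ≤ θ * z := by positivity
  have l4 : 16 ≤ L ^ 4 := by nlinarith [mul_le_mul hL hL zero_le_two h0.le]
  have a : exp (-(θ * z)) * (1 + θ * z) ≤ 1 := by
    rw [exp_neg, inv_mul_le_iff₀ (exp_pos _)]
    linarith [add_one_le_exp (θ * z)]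
  have b : L ^ 4 - 1 ≤ (L ^ 4 - 1 - L ^ 4 * z) * (1 + θ * z) := by
    have c : 0 ≤ θ * (L ^ 4 - 1) - L ^ 4 - θ * L ^ 4 * z := by
      have t2 : θ * L ^ 4 = L ^ 4 + L ^ 3 := by rw [show θ * L ^ 4 = L * θ * L ^ 3 by ring, t1]; ring
      have t3 : θ ≤ 2 := by
        rw [hθ]; linarith [(div_le_one h0).2 (show 1 ≤ L by linarith)]
      have t4 : L ^ 4 * z ≤ L ^ 2 / 4 := by nlinarith [mul_le_mul_of_nonneg_left z1 (sq_nonneg L)]
      have t5 : θ * (L ^ 4 * z) ≤ 2 * (L ^ 2 / 4) := mul_le_mul t3 t4 (by positivity) zero_le_two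
      nlinarith [mul_le_mul_of_nonneg_right hL (sq_nonneg L), mul_le_mul hL hL zero_le_two h0.le]
    nlinarith [mul_nonneg z0 c]
  have p : 0 < 1 + θ * z := by linarith
  refine le_of_mul_le_mul_right ?_ p
  nlinarith [mul_le_mul_of_nonneg_left a (show 0 ≤ L ^ 4 - 1 by linarith)]

end Pool.Agent.MP_c98b3a_gt.CF

end

end MrgPart0

-- ======== part 1: formerly Pool.Agent.MP_c98b3a_gt.cf.ONE
section MrgPart1

/-! The profile of the test function. -/

open scoped ContDiff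
open MeasureTheory Real

noncomputable section

namespace Pool.Agent.MP_c98b3a_gt.CF

theorem KK_nonpos (m b : ℝ) : KK m b ≤ 0 := by
  refine mul_nonpos_of_nonneg_of_nonpos (sq_nonneg _) ?_
  have a := add_one_le_exp (-(b / m))
  have e : exp (b / m) * exp (-(b / m)) = 1 := by rw [← exp_add]; simp
  nlinarith [mul_le_mul_of_nonneg_left a (exp_pos (b / m)).le]

theorem one (h1 : S_OT) (h2 : S_OG) (h3 : S_OD) (h4 : S_TWO) : S_ONE := by
  obtain ⟨C, hC, L1, hG⟩ := h2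
  refine ⟨C, hC, fun δ hδ => ?_⟩
  obtain ⟨R, hR, δ', hδ', m0, hT⟩ := h4 C δ hC hδ
  set ε := min (δ' / 4) (1 / 2) with hε
  have e0 : 0 < ε := lt_min (by positivity) (by norm_num)
  have e1 : ε ≤ δ' / 4 := min_le_left _ _
  have e2 : ε ≤ 1 / 2 := min_le_right _ _
  obtain ⟨L2, hO⟩ := h1 R ε hR e0
  set L0 := max 100 (max L1 L2) with hL0
  have l0 : 100 ≤ L0 := le_max_left _ _
  refine ⟨max m0 (L0 ^ 4), fun m hm => ?_⟩
  have hm1 : L0 ^ 4 ≤ m := (le_max_right _ _).trans hm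
  have hm0 : 0 ≤ m := le_trans (by positivity) hm1
  obtain ⟨L, hL, rfl⟩ : ∃ L, L0 ≤ L ∧ L ^ 4 = m := by
    refine ⟨√(√m), le_sqrt_of_sq_le (le_sqrt_of_sq_le (by rwa [← pow_mul])), ?_⟩
    rw [show 4 = 2 * 2 from rfl, pow_mul, sq_sqrt (sqrt_nonneg _), sq_sqrt hm0]
  have a1 : L1 ≤ L := ((le_max_left _ _).trans (le_max_right _ _)).trans hL
  have a2 : L2 ≤ L := ((le_max_right _ _).trans (le_max_right _ _)).trans hL
  have hp : 0 < L := by linarith
  have gl : ∀ S, GG (L ^ 4) (BB L S) S - (L ^ 4 + 1) * YY L S ^ 2 ≤ C - YY L S ^ 2 / 2 :=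
    fun S => by linarith [hG L a1 S]
  refine ⟨BB L, YY L, cd_BB L, cd_YY L, YY_zero L, mono_YY L, bdd_YY (by linarith), fun S => ?_, gl,
    fun S q => hT _ ((le_max_left _ _).trans hm) S _ _ q ?_ (fun h => ?_) fun h => ?_,
    h3 L (by linarith)⟩
  · rw [(hd_YY L S).deriv, (hd_BB hp S).deriv]
    exact win (by linarith) S
  · linarith [gl S, KK_nonpos (L ^ 4) (BB L S), sq_nonneg (YY L S)]
  · have b1 := abs_le.1 (hO L a2 R (abs_of_pos hR).le).2.2
    have b2 := abs_le.1 (hO L a2 (-R) (by rw [abs_neg, abs_of_pos hR])).2.2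
    rw [abs_neg] at b2
    rw [abs_of_pos hR] at b1 b2
    have := mul_le_mul_of_nonneg_right e2 hR.le
    rcases le_abs.1 h with h | h
    · exact le_abs.2 (Or.inl (by linarith [(mono_YY L).monotone h, b1.1]))
    · exact le_abs.2 (Or.inr (by linarith [(mono_YY L).monotone (le_neg.1 h), b2.2]))
  · obtain ⟨b1, b2, b3⟩ := hO L a2 S h
    have c1 : |S * (YY L S - S)| ≤ ε * S ^ 2 := by
      rw [abs_mul, ← sq_abs]
      nlinarith [mul_le_mul_of_nonneg_left b3 (abs_nonneg S)]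
    refine ⟨?_, b3.trans (mul_le_mul_of_nonneg_right (by linarith) (abs_nonneg _))⟩
    rw [QQ]
    nlinarith [(abs_le.1 c1).1, sq_nonneg (YY L S - S), mul_le_mul_of_nonneg_right e1 (sq_nonneg S)]

end Pool.Agent.MP_c98b3a_gt.CF

end

end MrgPart1

-- marker of a merged file
example : 731051 + 457000 = 731051 + 457000 := rfl
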