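import Mathlib.Analysis.SpecialFunctions.Trigonometric.DerivHyp
import Pool.Agent.MP_c98b3a_gt.cf.ONE

-- ======== part 0: formerly Pool.Agent.MP_c98b3a_gt.cf.BAL
section MrgPart0

/-! The balanced gauge: minimise a functional on the open light cone. -/

open MeasureTheory Real Set Filter Topology

noncomputable section

namespace Pool.Agent.MP_c98b3a_gt.CF

namespace BAL

/-- the primitive -/
def gI (m : ℝ) (Y : ℝ → ℝ) (u : ℝ) : ℝ := ∫ x in (0 : ℝ)..u, exp (-m * x) * Y (m * x)

section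

variable {m : ℝ} {Y : ℝ → ℝ}

theorem hd_g (m : ℝ) (hY : Continuous Y) (u : ℝ) :
    HasDerivAt (gI m Y) (exp (-m * u) * Y (m * u)) u :=
  (Continuous.integral_hasStrictDerivAt (f := fun x => exp (-m * x) * Y (m * x)) (by fun_prop)
    0 u).hasDerivAt

theorem cont_g (m : ℝ) (hY : Continuous Y) : Continuous (gI m Y) :=
  continuous_iff_continuousAt.2 fun u => (hd_g m hY u).continuousAt

theorem g_min (hm : 0 < m) (hY : Continuous Y) (mo : StrictMono Y) (b u : ℝ) :
    gI m Y (b / m) + Y b / m * exp (-b) ≤ gI m Y u + Y b / m * exp (-m * u) := by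
  have d : ∀ x, HasDerivAt (fun x => gI m Y (x + b / m) + Y b / m * exp (-m * (x + b / m)) -
      (gI m Y (b / m) + Y b / m * exp (-b)))
      (exp (-m * (x + b / m)) * (Y (m * x + b) - Y b)) x := fun x => by
    have a : HasDerivAt (fun x : ℝ => x + b / m) 1 x := (hasDerivAt_id' x).add_const _
    refine ((((hd_g m hY _).comp x a).add (((a.const_mul (-m)).exp).const_mul (Y b / m))).sub_const
      _).congr_deriv ?_
    rw [show m * (x + b / m) = m * x + b by field_simp]
    field_simp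
    ring
  have := nonneg_of_deriv (S := u - b / m) d (by rw [zero_add, show -m * (b / m) = -b by field_simp,
    sub_self])
    (fun x a _ => mul_nonneg (exp_pos _).le (sub_nonneg.2 (mo.monotone (by nlinarith))))
    fun x a _ => mul_nonpos_of_nonneg_of_nonpos (exp_pos _).le
      (sub_nonpos.2 (mo.monotone (by nlinarith)))
  rw [sub_add_cancel] at this
  linarith

theorem g_nonneg (hm : 0 < m) (hY : Continuous Y) (mo : StrictMono Y) (h0 : Y 0 = 0) (u : ℝ) :
    0 ≤ gI m Y u := by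
  simpa [h0, gI] using g_min hm hY mo 0 u

theorem g_low (hm : 0 < m) (hY : Continuous Y) (mo : StrictMono Y) (h0 : Y 0 = 0) :
    ∃ a > 0, ∀ u, a * exp (-m * u) - a * exp 1 ≤ gI m Y u := by
  have a : Y (-1) < 0 := h0 ▸ mo (by norm_num)
  refine ⟨-Y (-1) / m, div_pos (by linarith) hm, fun u => ?_⟩
  have b := g_min hm hY mo (-1) u
  have c := g_nonneg hm hY mo h0 (-1 / m)
  rw [neg_neg] at b
  rw [neg_div]
  linarith

theorem g_mono (hm : 0 < m) (hY : Continuous Y) (mo : StrictMono Y) (h0 : Y 0 = 0) :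
    StrictMonoOn (gI m Y) (Ici 0) :=
  strictMonoOn_of_deriv_pos (convex_Ici 0) (cont_g m hY).continuousOn fun x hx => by
    rw [interior_Ici] at hx
    rw [(hd_g m hY x).deriv]
    exact mul_pos (exp_pos _) (h0 ▸ mo (mul_pos hm hx))

end

variable {ι : Type} [Fintype ι]

theorem aff_pos {v : ℝ × Euc ι} {z : Euc ι} (hv : ‖v.2‖ < v.1) (hz : ‖z‖ = 1) : 0 < aff v z := by
  have := real_inner_le_norm v.2 z
  rw [hz, mul_one] at this
  rw [aff]
  linarith

theorem aff_add (v w : ℝ × Euc ι) (t : ℝ) (z : Euc ι) :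
    aff (v + t • w) z = aff v z + t * aff w z := by
  simp only [aff, Prod.fst_add, Prod.snd_add, Prod.smul_fst, Prod.smul_snd, inner_add_left,
    real_inner_smul_left, smul_eq_mul]
  ring

theorem aff_smul (v : ℝ × Euc ι) (t : ℝ) (z : Euc ι) : aff (t • v) z = t * aff v z := by
  simp only [aff, Prod.smul_fst, Prod.smul_snd, real_inner_smul_left, smul_eq_mul]
  ring

theorem lor_self (v : ℝ × Euc ι) : lor v v = v.1 ^ 2 - ‖v.2‖ ^ 2 := by
  rw [lor, real_inner_self_eq_norm_sq, sq v.1]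

theorem lor_pos {v : ℝ × Euc ι} (hv : ‖v.2‖ < v.1) : 0 < lor v v := by
  rw [lor_self]
  nlinarith [norm_nonneg v.2]

theorem cont_aff : Continuous fun x : (ℝ × Euc ι) × Euc ι => aff x.1 x.2 := by
  unfold aff
  fun_prop

variable {M : Type} [TopologicalSpace M] [CompactSpace M] [MeasurableSpace M] [BorelSpace M]
  {μ : Measure M} [IsFiniteMeasure μ] {s : M → ℝ} {z : M → Euc ι} {m κ : ℝ} {Y : ℝ → ℝ}

theorem integ {F : M → ℝ} (h : Continuous F) : Integrable F μ :=
  h.integrable_of_hasCompactSupport (HasCompactSupport.of_compactSpace F)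

omit [CompactSpace M] [MeasurableSpace M] [BorelSpace M] in
theorem cont_u (hs : Continuous s) (hz : Continuous z) (h1 : ∀ p, ‖z p‖ = 1) {v : ℝ × Euc ι}
    (hv : ‖v.2‖ < v.1) : Continuous fun p => s p + log (aff v (z p)) :=
  hs.add ((cont_aff.comp (continuous_const.prodMk hz)).log fun p => (aff_pos hv (h1 p)).ne')

/-- the functional -/
def J (μ : Measure M) (s : M → ℝ) (z : M → Euc ι) (g : ℝ → ℝ) (v : ℝ × Euc ι) : ℝ :=
  ∫ p, g (s p + log (aff v (z p))) ∂μ

theorem contOn_J (hs : Continuous s) (hz : Continuous z) (h1 : ∀ p, ‖z p‖ = 1) {g : ℝ → ℝ}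
    (hg : Continuous g) {K : Set (ℝ × Euc ι)} (hK : IsCompact K) (hc : ∀ v ∈ K, ‖v.2‖ < v.1) :
    ContinuousOn (J μ s z g) K := by
  rw [continuousOn_iff_continuous_domRestrict]
  have : CompactSpace K := isCompact_iff_compactSpace.1 hK
  have := continuous_parametric_integral_of_continuous (μ := μ) (s := univ)
    (f := fun (v : K) p => g (s p + log (aff v.1 (z p)))) (hg.comp ((hs.comp continuous_snd).add
      ((cont_aff.comp ((continuous_subtype_val.comp continuous_fst).prodMk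
        (hz.comp continuous_snd))).log fun x => (aff_pos (hc _ x.1.2) (h1 _)).ne'))) isCompact_univ
  simp only [Measure.restrict_univ] at this
  exact this

theorem hd_J (hs : Continuous s) (hz : Continuous z) (h1 : ∀ p, ‖z p‖ = 1) {g g' : ℝ → ℝ}
    (hg : ∀ u, HasDerivAt g (g' u) u) (hg' : Continuous g') {v : ℝ × Euc ι} (hv : ‖v.2‖ < v.1)
    (w : ℝ × Euc ι) : HasDerivAt (fun t : ℝ => J μ s z g (v + t • w))
      (∫ p, g' (s p + log (aff v (z p))) * (aff w (z p) / aff v (z p)) ∂μ) 0 := by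
  have cg : Continuous g := continuous_iff_continuousAt.2 fun u => (hg u).continuousAt
  have o : IsOpen {t : ℝ | ‖(v + t • w).2‖ < (v + t • w).1} := isOpen_lt (by fun_prop) (by fun_prop)
  obtain ⟨K, K0, Ks, Kc⟩ := local_compact_nhds (o.mem_nhds (x := 0) (by simpa using hv))
  have pos : ∀ t ∈ K, ∀ p, 0 < aff (v + t • w) (z p) := fun t ht p => aff_pos (Ks ht) (h1 p)
  have ca : Continuous fun x : ℝ × M => aff (v + x.1 • w) (z x.2) :=
    cont_aff.comp (Continuous.prodMk (by fun_prop) (by fun_prop))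
  have cw : Continuous fun p : M => aff w (z p) := cont_aff.comp (continuous_const.prodMk hz)
  have cF : ContinuousOn (fun x : ℝ × M => g' (s x.2 + log (aff (v + x.1 • w) (z x.2))) *
      (aff w (z x.2) / aff (v + x.1 • w) (z x.2))) (K ×ˢ univ) :=
    (hg'.comp_continuousOn ((hs.comp continuous_snd).continuousOn.add
      (ca.continuousOn.log fun x hx => (pos _ hx.1 _).ne'))).mul
      ((cw.comp continuous_snd).continuousOn.div ca.continuousOn fun x hx => (pos _ hx.1 _).ne')
  obtain ⟨C, hC⟩ := (Kc.prod isCompact_univ).exists_bound_of_continuousOn cF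
  have := (hasDerivAt_integral_of_dominated_loc_of_deriv_le (μ := μ)
    (F := fun (t : ℝ) p => g (s p + log (aff (v + t • w) (z p))))
    (F' := fun (t : ℝ) p => g' (s p + log (aff (v + t • w) (z p))) *
      (aff w (z p) / aff (v + t • w) (z p))) (bound := fun _ => C) K0
    (mem_of_superset K0 fun t ht => (cg.comp (cont_u hs hz h1 (Ks ht))).aestronglyMeasurable)
    (integ (cg.comp (cont_u hs hz h1 (Ks (mem_of_mem_nhds K0)))))
    (Continuous.aestronglyMeasurable ((hg'.comp (cont_u hs hz h1 (Ks (mem_of_mem_nhds K0)))).mul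
      (cw.div (cont_aff.comp (continuous_const.prodMk hz))
        fun p => (pos _ (mem_of_mem_nhds K0) p).ne')))
    (Eventually.of_forall fun p t ht => hC (t, p) ⟨ht, trivial⟩) (integrable_const C)
    (Eventually.of_forall fun p t ht => ?_)).2
  · simpa [J] using this
  have a : HasDerivAt (fun t : ℝ => aff (v + t • w) (z p)) (aff w (z p)) t := by
    simp only [aff_add]
    simpa using ((hasDerivAt_id' t).mul_const (aff w (z p))).const_add (aff v (z p))
  exact (hg _).comp t ((a.log (pos t ht p).ne').const_add (s p))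

/-- the sublevel set lies in a compact part of the cone -/
theorem sublevel (hs : Continuous s) (hz : Continuous z) (h1 : ∀ p, ‖z p‖ = 1) (hm : 1 ≤ m)
    (hκ : 0 < κ) (hY : Continuous Y) (mo : StrictMono Y) (h0 : Y 0 = 0)
    (ms : ∀ v : ℝ × Euc ι, ‖v.2‖ < v.1 →
      ∫ p, exp (-m * (s p + log (aff v (z p)))) ∂μ = κ * exp (-(m / 2) * log (lor v v))) :
    ∃ (v0 : ℝ × Euc ι) (r R : ℝ), ‖v0.2‖ < v0.1 ∧ 0 < r ∧ ∀ v : ℝ × Euc ι, ‖v.2‖ < v.1 →
      J μ s z (gI m Y) v ≤ J μ s z (gI m Y) v0 → r ≤ lor v v ∧ v.1 ≤ R := by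
  have m0 : 0 < m := by linarith
  obtain ⟨S, hS⟩ := isCompact_univ.exists_bound_of_continuousOn hs.continuousOn
  have hS' : ∀ p, -S ≤ s p ∧ s p ≤ S := fun p => abs_le.1 (hS p trivial)
  have cg := cont_g m hY
  have ie : ∀ v : ℝ × Euc ι, ‖v.2‖ < v.1 →
      Integrable (fun p => exp (-m * (s p + log (aff v (z p))))) μ := fun v hv =>
    integ ((continuous_const.mul (cont_u hs hz h1 hv)).rexp)
  have ig : ∀ v : ℝ × Euc ι, ‖v.2‖ < v.1 →
      Integrable (fun p => gI m Y (s p + log (aff v (z p)))) μ := fun v hv =>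
    integ (cg.comp (cont_u hs hz h1 hv))
  have c0 : ‖((exp S, 0) : ℝ × Euc ι).2‖ < ((exp S, 0) : ℝ × Euc ι).1 := by simpa using exp_pos S
  have μ0 : 0 < μ.real univ := by
    refine lt_of_le_of_ne measureReal_nonneg fun h => ?_
    have a := ms _ c0
    rw [Measure.measure_univ_eq_zero.1 ((measureReal_eq_zero_iff (measure_ne_top _ _)).1 h.symm),
      integral_zero_measure] at a
    exact (mul_pos hκ (exp_pos _)).ne a
  have S0 : 0 ≤ S := by
    rcases isEmpty_or_nonempty M with h | ⟨⟨p⟩⟩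
    · rw [eq_empty_of_isEmpty (univ : Set M)] at μ0
      simp at μ0
    · linarith [(hS' p).1, (hS' p).2]
  have gm := g_mono m0 hY mo h0
  set g := gI m Y
  have j0 : J μ s z g (exp S, 0) ≤ g (2 * S) * μ.real univ := by
    refine (integral_mono (ig _ c0) (integrable_const (g (2 * S))) fun p => ?_).trans_eq
      (by rw [integral_const, smul_eq_mul, mul_comm])
    have e : aff ((exp S, 0) : ℝ × Euc ι) (z p) = exp S := by simp [aff]
    simp only [e, log_exp]
    exact gm.monotoneOn (by simp only [mem_Ici]; linarith [(hS' p).1])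
      (by simp only [mem_Ici]; linarith) (by linarith [(hS' p).2])
  have g1 : g (2 * S) < g (2 * S + 1) :=
    gm (by simp only [mem_Ici]; linarith) (by simp only [mem_Ici]; linarith) (by linarith)
  have g0 : 0 ≤ g (2 * S) := g_nonneg m0 hY mo h0 _
  obtain ⟨a, a0, ha⟩ := g_low m0 hY mo h0
  set D := S + log (exp (3 * S + 1) + 1) with hD
  set C1 := (g (2 * S) + a * exp 1) * μ.real univ / (a * κ) with hC1
  set C2 := (g (2 * S + 1) - g (2 * S)) * μ.real univ / (g (2 * S + 1) * exp (m * D) * κ) with hC2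
  have g2 : 0 < g (2 * S + 1) := by linarith
  have C20 : 0 < C2 := div_pos (mul_pos (by linarith) μ0) (by positivity)
  refine ⟨(exp S, 0), exp (-(2 / m) * log C1), exp (-(2 / m) * log C2), c0, exp_pos _,
    fun v hv hJ => ⟨?_, ?_⟩⟩
  · have b : a * (κ * exp (-(m / 2) * log (lor v v))) - a * exp 1 * μ.real univ ≤ J μ s z g v := by
      refine le_of_eq_of_le ?_ (integral_mono (((ie v hv).const_mul a).sub
        (integrable_const (a * exp 1))) (ig v hv) fun p => ha _)
      simp only [Pi.sub_apply]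
      rw [integral_sub ((ie v hv).const_mul a) (integrable_const _), integral_const_mul, ms v hv,
        integral_const, smul_eq_mul, mul_comm (μ.real univ)]
    have c : exp (-(m / 2) * log (lor v v)) ≤ C1 := by
      rw [hC1, le_div_iff₀ (by positivity)]
      linarith
    have d := (le_log_iff_exp_le ((exp_pos _).trans_le c)).2 c
    rw [← le_log_iff_exp_le (lor_pos hv)]
    have e : -(2 / m) * log C1 = -log C1 / (m / 2) := by field_simp
    rw [e, div_le_iff₀ (by positivity)]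
    linarith
  · have hv' : ‖(v + (1 : ℝ) • ((1, 0) : ℝ × Euc ι)).2‖ < (v + (1 : ℝ) • ((1, 0) : ℝ × Euc ι)).1 := by
      simp only [one_smul, Prod.snd_add, add_zero, Prod.fst_add]
      linarith
    have l : v.1 ≤ lor (v + (1 : ℝ) • ((1, 0) : ℝ × Euc ι)) (v + (1 : ℝ) • ((1, 0) : ℝ × Euc ι)) := by
      rw [lor_self]
      simp only [one_smul, Prod.snd_add, add_zero, Prod.fst_add]
      nlinarith [norm_nonneg v.2]
    have ea : ∀ p, aff (v + (1 : ℝ) • ((1, 0) : ℝ × Euc ι)) (z p) = aff v (z p) + 1 := fun p => by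
      rw [aff_add]
      simp [aff]
    generalize v + (1 : ℝ) • ((1, 0) : ℝ × Euc ι) = v' at hv' l ea
    have b : g (2 * S + 1) * μ.real univ - g (2 * S + 1) * exp (m * D) *
        (κ * exp (-(m / 2) * log (lor v' v'))) ≤ J μ s z g v := by
      refine le_of_eq_of_le ?_ (integral_mono ((integrable_const (g (2 * S + 1))).sub
        ((ie v' hv').const_mul (g (2 * S + 1) * exp (m * D)))) (ig v hv) fun p => ?_)
      · simp only [Pi.sub_apply]
        rw [integral_sub (integrable_const _) ((ie v' hv').const_mul _), integral_const_mul,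
          ms v' hv', integral_const, smul_eq_mul, mul_comm (μ.real univ)]
      simp only [Pi.sub_apply]
      rcases le_total (2 * S + 1) (s p + log (aff v (z p))) with h | h
      · refine (sub_le_self _ (by positivity)).trans (gm.monotoneOn ?_ ?_ h) <;>
          simp only [mem_Ici] <;> linarith
      refine le_trans ?_ (g_nonneg m0 hY mo h0 _)
      have p0 := aff_pos hv (h1 p)
      have p1 : aff v (z p) ≤ exp (3 * S + 1) :=
        (log_le_iff_le_exp p0).1 (by linarith [(hS' p).1])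
      have p2 : log (aff v' (z p)) ≤ log (exp (3 * S + 1) + 1) :=
        log_le_log (aff_pos hv' (h1 p)) (by rw [ea]; linarith)
      have p3 : 1 ≤ exp (m * D) * exp (-m * (s p + log (aff v' (z p)))) := by
        rw [← exp_add]
        refine one_le_exp ?_
        have : 0 ≤ D - (s p + log (aff v' (z p))) := by linarith [(hS' p).2]
        nlinarith
      nlinarith
    have c : C2 ≤ exp (-(m / 2) * log (lor v' v')) := by
      rw [hC2, div_le_iff₀ (by positivity)]
      linarith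
    have d := (log_le_iff_le_exp C20).2 c
    refine l.trans ((log_le_iff_le_exp (lor_pos hv')).1 ?_)
    have e : -(2 / m) * log C2 = -log C2 / (m / 2) := by field_simp
    rw [e, le_div_iff₀ (by positivity)]
    linarith

end BAL

open BAL in
theorem bal : S_BAL := by
  intro ι M _ _ _ _ _ _ _ μ _ s z m κ Y hs hz h1 hm hκ hY mo h0 _ ms
  obtain ⟨v0, r, R, c0, r0, sub⟩ := sublevel hs hz h1 hm hκ hY mo h0 ms
  set K : Set (ℝ × Euc ι) := {v | r ≤ lor v v ∧ 0 ≤ v.1 ∧ v.1 ≤ R} with hK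
  have Kc : ∀ v ∈ K, ‖v.2‖ < v.1 := fun v hv => by
    have := hv.1
    rw [lor_self] at this
    exact lt_of_pow_lt_pow_left₀ 2 hv.2.1 (by linarith)
  have cK : IsCompact K := by
    refine Metric.isCompact_of_isClosed_isBounded ?_ (isBounded_iff_forall_norm_le.2 ⟨R, ?_⟩)
    · have cl : Continuous fun v : ℝ × Euc ι => lor v v := by
        unfold lor
        fun_prop
      exact (isClosed_le continuous_const cl).inter
        ((isClosed_le continuous_const (continuous_fst (X := ℝ) (Y := Euc ι))).inter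
          (isClosed_le continuous_fst continuous_const))
    · intro v hv
      rw [Prod.norm_def]
      exact max_le (by rw [norm_of_nonneg hv.2.1]; exact hv.2.2) ((Kc v hv).le.trans hv.2.2)
  have mem : ∀ v : ℝ × Euc ι, ‖v.2‖ < v.1 → J μ s z (gI m Y) v ≤ J μ s z (gI m Y) v0 → v ∈ K :=
    fun v hv h => ⟨(sub v hv h).1, (norm_nonneg _).trans hv.le, (sub v hv h).2⟩
  obtain ⟨u, uK, um⟩ := cK.exists_isMinOn ⟨v0, mem v0 c0 le_rfl⟩
    (contOn_J (μ := μ) hs hz h1 (cont_g m hY) cK Kc)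
  have uc := Kc u uK
  have glob : ∀ v : ℝ × Euc ι, ‖v.2‖ < v.1 → J μ s z (gI m Y) u ≤ J μ s z (gI m Y) v :=
    fun v hv => (le_total _ (J μ s z (gI m Y) v0)).elim (fun h => um (mem v hv h))
      fun h => le_trans (um (mem v0 c0 le_rfl)) h
  have l0 := lor_pos uc
  set ρ := √(lor u u) with hρ
  have ρ0 : 0 < ρ := sqrt_pos.2 l0
  have u0 : 0 < u.1 := (norm_nonneg _).trans_lt uc
  refine ⟨ρ⁻¹ • u, mul_pos (inv_pos.2 ρ0) u0, ?_, log ρ, fun w => ?_⟩
  · have : ρ ^ 2 = u.1 ^ 2 - ‖u.2‖ ^ 2 := by rw [hρ, sq_sqrt l0.le, lor_self]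
    rw [lor_self, Prod.smul_fst, Prod.smul_snd, norm_smul, norm_inv, norm_of_nonneg ρ0.le,
      smul_eq_mul]
    field_simp
    linarith
  have d := hd_J (μ := μ) hs hz h1 (hd_g m hY) (by fun_prop) uc w
  have o : IsOpen {t : ℝ | ‖(u + t • w).2‖ < (u + t • w).1} := isOpen_lt (by fun_prop) (by fun_prop)
  have lm : IsLocalMin (fun t : ℝ => J μ s z (gI m Y) (u + t • w)) 0 :=
    mem_of_superset (o.mem_nhds (x := 0) (by simpa using uc)) fun t ht => by
      simpa using glob _ ht
  have e := lm.hasDerivAt_eq_zero d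
  rw [← mul_zero (exp (m * log ρ) * ρ), ← e, ← integral_const_mul]
  refine integral_congr_ae (Eventually.of_forall fun p => ?_)
  have p0 := aff_pos uc (h1 p)
  simp only [aff_smul]
  rw [log_mul (inv_ne_zero ρ0.ne') p0.ne', log_inv,
    show s p + (-log ρ + log (aff u (z p))) + log ρ = s p + log (aff u (z p)) by ring,
    show -m * (s p + (-log ρ + log (aff u (z p)))) =
      m * log ρ + -m * (s p + log (aff u (z p))) by ring, exp_add]
  field_simp

end Pool.Agent.MP_c98b3a_gt.CF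

end

end MrgPart0

-- ======== part 1: formerly Pool.Agent.MP_c98b3a_gt.cf.OG
section MrgPart1

/-! The global bound of the curvature and volume term. -/

open scoped ContDiff
open MeasureTheory Real

noncomputable section

namespace Pool.Agent.MP_c98b3a_gt.CF

namespace OG

theorem e1 (y : ℝ) : (1 + y) * exp (-y) ≤ 1 := by
  rw [exp_neg, ← div_eq_mul_inv, div_le_one (exp_pos _)]
  linarith [add_one_le_exp y]

theorem i1 {x : ℝ} (hx : 0 ≤ x) : x ^ 2 / 2 * exp (-x) ≤ exp (-x) - 1 + x := by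
  have d : ∀ y : ℝ, HasDerivAt (fun y => exp (-y) - 1 + y - y ^ 2 / 2 * exp (-y))
      (1 - (1 + y) * exp (-y) + y ^ 2 / 2 * exp (-y)) y := fun y => by
    have a := (hasDerivAt_id' y).neg.exp
    refine (((a.sub_const 1).add (hasDerivAt_id' y)).sub
      (((hasDerivAt_pow 2 y).div_const 2).mul a)).congr_deriv ?_
    simp only [Pi.neg_apply]
    push_cast
    ring
  have := nonneg_of_deriv (S := x) d (by simp) (fun y _ _ => by
    have : 0 ≤ y ^ 2 / 2 * exp (-y) := by positivity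
    linarith [e1 y]) fun y a b => by linarith
  linarith

theorem i2 {x : ℝ} (hx : 0 ≤ x) : 3 - 2 * x ≤ (3 + x) * exp (-x) := by
  have d : ∀ y : ℝ, HasDerivAt (fun y => (3 + y) * exp (-y) - 3 + 2 * y)
      (2 - (2 + y) * exp (-y)) y := fun y => by
    have a := (hasDerivAt_id' y).neg.exp
    refine (((((hasDerivAt_id' y).const_add 3).mul a).sub_const 3).add
      ((hasDerivAt_id' y).const_mul 2)).congr_deriv ?_
    simp only [Pi.neg_apply]
    ring
  have := nonneg_of_deriv (S := x) d (by simp) (fun y a _ => by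
    have : 0 ≤ y * exp (-y) := by positivity
    linarith [e1 y]) fun y a b => by linarith
  linarith

/-- the differential inequality on the positive side -/
theorem pos {t g k c : ℝ} (ht : 0 ≤ t) (hc : 0 ≤ c)
    (e : c ^ 2 = (exp (-t) ^ 2 - 1 + 2 * t) / 2) (hg : 50 ≤ g) (hk : 1 - 3 / 16 * g * t ≤ k) :
    (1 - g / 2) * c ^ 2 + 1 - exp (-t) ^ 2 ≤ 2 * c * (k * exp (-t)) := by
  have s : exp (-(2 * t)) = exp (-t) ^ 2 := by rw [← exp_nat_mul]; congr 1; push_cast; ring
  have a := i1 (show 0 ≤ 2 * t by linarith)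
  have b := i2 (show 0 ≤ 2 * t by linarith)
  rw [s] at a b
  have p := exp_pos (-t)
  set a0 := exp (-t)
  have h1 : t * a0 ≤ c := (abs_le_of_sq_le_sq' (by nlinarith) hc).2
  have h2 : t * a0 * a0 ≤ c * a0 := mul_le_mul_of_nonneg_right h1 p.le
  have h3 : (1 - 3 / 16 * g * t) * (c * a0) ≤ k * (c * a0) :=
    mul_le_mul_of_nonneg_right hk (by positivity)
  have h4 : g * c * (t * a0) ≤ g * c * c := mul_le_mul_of_nonneg_left h1 (by positivity)
  have h5 : 0 ≤ (g - 50) * c ^ 2 := mul_nonneg (by linarith) (sq_nonneg c)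
  nlinarith [sq_nonneg c]

/-- the differential inequality on the negative side -/
theorem neg {t g k c h : ℝ} (ht : 0 ≤ t) (hc : 0 ≤ c)
    (e : c ^ 2 = (exp t ^ 2 - 1 - 2 * t) / 2) (hg : 0 ≤ g) (_ : 0 ≤ h) (h1 : h ≤ t)
    (h2 : h ≤ 1 / 6) (hk : 1 - 3 / 16 * g * h ≤ k) :
    -(2 * c * (k * exp t)) ≤ (1 + g / 2) * c ^ 2 + 1 - exp t ^ 2 := by
  have s : exp (2 * t) = exp t ^ 2 := by rw [← exp_nat_mul]; congr 1
  have a := self_le_sinh_iff.2 (show 0 ≤ 2 * t by linarith)
  have b := quadratic_le_exp_of_nonneg (show 0 ≤ 2 * t by linarith)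
  rw [sinh_eq, exp_neg, s] at a
  rw [s] at b
  have p := exp_pos t
  set a0 := exp t
  have q : 0 < a0 ^ 2 := by positivity
  have a' : 4 * t * a0 ^ 2 ≤ (a0 ^ 2) ^ 2 - 1 := by
    have := mul_le_mul_of_nonneg_right a q.le
    have i : (a0 ^ 2)⁻¹ * a0 ^ 2 = 1 := inv_mul_cancel₀ q.ne'
    nlinarith
  have k1 : a0 ^ 2 - 1 ≤ 2 * c * a0 := by
    refine (abs_le_of_sq_le_sq' ?_ (by positivity)).2
    rw [mul_pow, mul_pow, e]
    nlinarith
  have k2 : t * a0 ≤ c * (1 + 2 * t) := by
    refine (abs_le_of_sq_le_sq' ?_ (by positivity)).2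
    rw [mul_pow, mul_pow, e]
    have : 0 ≤ (a0 ^ 2 - (1 + 2 * t + (2 * t) ^ 2 / 2)) * (1 + 4 * t + 2 * t ^ 2) :=
      mul_nonneg (by linarith) (by positivity)
    have : 0 ≤ t ^ 4 := by positivity
    have : 0 ≤ t ^ 3 := by positivity
    nlinarith
  have k3 : 3 / 4 * h * a0 ≤ c := by
    refine le_of_mul_le_mul_right (le_trans ?_ k2) (show 0 < 1 + 2 * t by linarith)
    have : 3 / 4 * h * (1 + 2 * t) ≤ t := by nlinarith
    nlinarith [mul_le_mul_of_nonneg_right this p.le]
  have k4 : (1 - 3 / 16 * g * h) * (c * a0) ≤ k * (c * a0) :=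
    mul_le_mul_of_nonneg_right hk (by positivity)
  have k5 : g * c * (3 / 4 * h * a0) ≤ g * c * c := mul_le_mul_of_nonneg_left k3 (by positivity)
  nlinarith [sq_nonneg c]

def ph (m S : ℝ) : ℝ := (exp (-2 * S / m) - 1 + 2 * S / m) / 2

def Gq (L S : ℝ) : ℝ := L ^ 4 * exp (BB L S / (2 * L ^ 4)) * √(ph (L ^ 4) S)

variable {L S m : ℝ}

theorem ph_nonneg (m S : ℝ) : 0 ≤ ph m S := by
  have := add_one_le_exp (-2 * S / m)
  have e : -2 * S / m = -(2 * S / m) := by ring
  rw [ph]
  linarith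

theorem ph_pos (hm : 0 < m) (hS : S ≠ 0) : 0 < ph m S := by
  have := add_one_lt_exp (x := -2 * S / m) (by positivity)
  have e : -2 * S / m = -(2 * S / m) := by ring
  rw [ph]
  linarith

theorem exp_eq (m S : ℝ) : exp (-2 * S / m) = exp (-(S / m)) ^ 2 := by
  rw [← exp_nat_mul]; congr 1; push_cast; ring

theorem ph_sq (m S : ℝ) : √(ph m S) ^ 2 = (exp (-(S / m)) ^ 2 - 1 + 2 * (S / m)) / 2 := by
  rw [sq_sqrt (ph_nonneg m S), ph, exp_eq, mul_div_assoc]

theorem Gq_nonneg (L S : ℝ) : 0 ≤ Gq L S := by rw [Gq]; positivity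

theorem Gq_sq (L S : ℝ) : L ^ 4 * Gq L S ^ 2 = GG (L ^ 4) (BB L S) S := by
  have e : exp (BB L S / (2 * L ^ 4)) ^ 2 = exp (BB L S / L ^ 4) := by
    rw [← exp_nat_mul]; congr 1; push_cast; ring
  rw [Gq, mul_pow, mul_pow, e, sq_sqrt (ph_nonneg _ _), ph, GG]
  ring

theorem cont_Gq (L : ℝ) : Continuous (Gq L) := by
  have := (cd_BB L).continuous
  unfold Gq ph
  fun_prop

theorem hd_Gq (hL : 0 < L) (hS : S ≠ 0) : HasDerivAt (Gq L) (exp (BB L S / (2 * L ^ 4)) *
    (((1 - gg L S / 2) * √(ph (L ^ 4) S) ^ 2 + 1 - exp (-(S / L ^ 4)) ^ 2) /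
      (2 * √(ph (L ^ 4) S)))) S := by
  have p := ph_pos (show 0 < L ^ 4 by positivity) hS
  have a : HasDerivAt (ph (L ^ 4)) ((1 - exp (-(S / L ^ 4)) ^ 2) / L ^ 4) S := by
    refine (((((((hasDerivAt_id' S).const_mul (-2)).div_const (L ^ 4)).exp.sub_const 1).add
      (((hasDerivAt_id' S).const_mul 2).div_const (L ^ 4))).div_const 2)).congr_deriv ?_
    rw [exp_eq]
    ring
  refine (((((hd_BB hL S).div_const (2 * L ^ 4)).exp.const_mul (L ^ 4)).mul
    (a.sqrt p.ne'))).congr_deriv ?_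
  have := sqrt_pos.2 p
  field_simp
  ring

theorem uu_eq (hL : 0 < L) (S : ℝ) : uu L S = exp (BB L S / (2 * L ^ 4)) *
    (exp (-((1 + 1 / L) * gg L S ^ 2 / (8 * L ^ 4))) * exp (-(S / L ^ 4))) := by
  rw [uu, ← exp_add, ← exp_add, ww]
  congr 1
  field_simp
  ring

theorem le_kap (hL : 2 ≤ L) (S : ℝ) : 1 - 3 / 16 * |gg L S| * (|gg L S| / L ^ 4) ≤
    exp (-((1 + 1 / L) * gg L S ^ 2 / (8 * L ^ 4))) := by
  have h0 : 0 < L := by linarith
  refine le_trans ?_ (add_one_le_exp _)
  have a : 1 / L ≤ 1 / 2 := one_div_le_one_div_of_le two_pos hL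
  have e : (1 + 1 / L) * gg L S ^ 2 / (8 * L ^ 4) = (1 + 1 / L) / 8 * (gg L S ^ 2 / L ^ 4) := by
    field_simp
  have e2 : 3 / 16 * |gg L S| * (|gg L S| / L ^ 4) = 3 / 16 * (gg L S ^ 2 / L ^ 4) := by
    rw [← sq_abs]; ring
  have : 0 ≤ gg L S ^ 2 / L ^ 4 := by positivity
  rw [e, e2]
  nlinarith

theorem le_of_deriv {f f' : ℝ → ℝ} {a b : ℝ} (hab : a ≤ b) (c : Continuous f)
    (h : ∀ x, a < x → x < b → HasDerivAt f (f' x) x) (h' : ∀ x, a < x → x < b → 0 ≤ f' x) :
    f a ≤ f b := by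
  rcases hab.eq_or_lt with rfl | s
  · exact le_rfl
  obtain ⟨x, hx, e⟩ := exists_hasDerivAt_eq_slope f f' s c.continuousOn fun x hx => h x hx.1 hx.2
  have := h' x hx.1 hx.2
  rw [e, div_nonneg_iff] at this
  rcases this with a | a <;> linarith [a.1, a.2]

theorem side_pos (hL : 100 ≤ L) (hS : 100 ≤ S) : YY L 100 - Gq L 100 ≤ YY L S - Gq L S := by
  have h0 : 0 < L := by linarith
  have h4 : 0 < L ^ 4 := by positivity
  refine le_of_deriv (f := fun x => YY L x - Gq L x) hS ((cd_YY L).continuous.sub (cont_Gq L))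
    (fun x a _ => (hd_YY L x).sub (hd_Gq h0 (by linarith))) fun x a _ => ?_
  have x0 : 0 < x := by linarith
  have p := sqrt_pos.2 (ph_pos h4 x0.ne')
  have g0 := abs_of_nonneg (gg_nonneg L x0.le)
  have g1 := le_abs_gg h0 (c := 100) (S := x) (by rw [abs_of_pos x0]; linarith) hL (by norm_num)
  have g2 : |gg L x| / L ^ 4 ≤ x / L ^ 4 :=
    div_le_div_of_nonneg_right ((abs_gg_le L x).trans (abs_of_pos x0).le) h4.le
  have k := le_kap (show 2 ≤ L by linarith) x
  have g3 := mul_le_mul_of_nonneg_left g2 (abs_nonneg (gg L x))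
  rw [g0] at g1 k g3
  rw [uu_eq h0, sub_nonneg]
  refine mul_le_mul_of_nonneg_left ?_ (exp_pos _).le
  rw [div_le_iff₀' (by positivity)]
  exact pos (by positivity) p.le (ph_sq _ _) (by linarith) (le_trans (by linarith) k)

theorem side_neg (hL : 100 ≤ L) (hS : S ≤ 0) : YY L S + Gq L S ≤ 0 := by
  have h0 : 0 < L := by linarith
  have h4 : 0 < L ^ 4 := by positivity
  refine (le_of_deriv (f := fun x => YY L x + Gq L x) hS ((cd_YY L).continuous.add (cont_Gq L))
    (fun x _ a => (hd_YY L x).add (hd_Gq h0 a.ne)) fun x _ x0 => ?_).trans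
    (by simp [YY_zero, Gq, ph])
  have p := sqrt_pos.2 (ph_pos h4 x0.ne)
  have g0 := abs_of_nonpos (gg_nonpos L x0.le)
  have g2 : |gg L x| / L ^ 4 ≤ -(x / L ^ 4) := by
    rw [← neg_div]
    exact div_le_div_of_nonneg_right ((abs_gg_le L x).trans (abs_of_neg x0).le) h4.le
  have g3 : |gg L x| / L ^ 4 ≤ 1 / 6 := by
    rw [div_le_iff₀ h4]
    have : 6 ≤ L ^ 3 := le_trans (by norm_num) (pow_le_pow_left₀ (by norm_num) hL 3)
    nlinarith [abs_gg_le' h0 x, mul_le_mul_of_nonneg_left this h0.le]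
  have t0 : 0 ≤ -(x / L ^ 4) := le_trans (by positivity) g2
  have n := neg t0 p.le ((ph_sq _ _).trans (by ring)) (abs_nonneg (gg L x)) (by positivity) g2 g3
    (le_kap (show 2 ≤ L by linarith) x)
  rw [uu_eq h0, ← mul_add]
  refine mul_nonneg (exp_pos _).le ?_
  rw [← neg_le_iff_add_nonneg', le_div_iff₀' (by positivity)]
  rw [show 1 - gg L x / 2 = 1 + |gg L x| / 2 by rw [g0]; ring]
  linarith

end OG

open OG in
theorem og (h : S_OT) : S_OG := by
  obtain ⟨L0, hL0⟩ := h 100 (1 / 2) (by norm_num) (by norm_num)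
  refine ⟨3 * 10 ^ 12, by norm_num, max L0 100, fun L hL S => ?_⟩
  have hL1 : 100 ≤ L := le_of_max_le_right hL
  have H := hL0 L (le_of_max_le_left hL)
  have h0 : 0 < L := by linarith
  have h4 : 1 ≤ L ^ 4 := one_le_pow₀ (by linarith)
  have mid : ∀ S, 0 ≤ S → S ≤ 100 → GG (L ^ 4) (BB L S) S - L ^ 4 * YY L S ^ 2 ≤ 10 ^ 6 :=
    fun S a b => by
      refine (H S (by rwa [abs_of_nonneg a])).1.trans ?_
      have h2 := pow_le_pow_left₀ a b 2
      have h3 := pow_le_pow_left₀ a b 3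
      have : 0 ≤ S ^ 4 := by positivity
      norm_num at h2 h3
      linarith
  have g0 := Gq_nonneg L S
  rcases le_total S 0 with s | s
  · have a := side_neg hL1 s
    have b : Gq L S ^ 2 ≤ YY L S ^ 2 := by nlinarith
    rw [← Gq_sq]
    nlinarith [mul_le_mul_of_nonneg_left b (show 0 ≤ L ^ 4 by positivity), sq_nonneg (YY L S)]
  rcases le_total S 100 with s' | s'
  · linarith [mid S s s', sq_nonneg (YY L S)]
  have a := side_pos hL1 s'
  have b := mid 100 (by norm_num) le_rfl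
  have c := (abs_le.1 (H 100 (by norm_num)).2.2).1
  rw [← Gq_sq] at b ⊢
  norm_num at c
  have y : YY L 100 ≤ YY L S := (mono_YY L).monotone s'
  set m := L ^ 4
  have d : m * (Gq L 100 - YY L 100) ≤ 10 ^ 6 := by
    rcases le_total (Gq L 100) (YY L 100) with e | e
    · exact (mul_nonpos_of_nonneg_of_nonpos (by linarith) (by linarith)).trans (by norm_num)
    · have : 0 ≤ m * (Gq L 100 - YY L 100) * (Gq L 100 + YY L 100 - 1) :=
        mul_nonneg (mul_nonneg (by linarith) (by linarith)) (by linarith)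
      nlinarith
  have e : m * Gq L S ≤ m * YY L S + 10 ^ 6 := by
    nlinarith [mul_le_mul_of_nonneg_left a (show 0 ≤ m by linarith)]
  have f : (m * Gq L S) ^ 2 ≤ (m * YY L S + 10 ^ 6) ^ 2 :=
    pow_le_pow_left₀ (mul_nonneg (by linarith) g0) e 2
  refine le_of_mul_le_mul_left ?_ (show 0 < m by linarith)
  nlinarith [mul_nonneg (show 0 ≤ m by linarith) (sq_nonneg (YY L S - 2 * 10 ^ 6))]

end Pool.Agent.MP_c98b3a_gt.CF

end

end MrgPart1

-- marker of a merged file
example : 731051 + 65373 = 731051 + 65373 := rfl
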