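import Pool.Agent.MP_c98b3a_gt.cf.ONE

/-! Taylor expansions of the profile on bounded sets. -/

open scoped ContDiff
open MeasureTheory Real

noncomputable section

namespace Pool.Agent.MP_c98b3a_gt.CF

namespace OT

theorem mon {S b x D : ℝ} (hS : |S| ≤ D) (hb : |b| ≤ D) (hD : 1 ≤ D) (x0 : 0 ≤ x) (x1 : x ≤ 1)
    (i j k : ℕ) (h : i + j ≤ 4) : |S ^ i * b ^ j * x ^ k| ≤ D ^ 4 := by
  rw [abs_mul, abs_mul, abs_pow, abs_pow, abs_pow, abs_of_nonneg x0]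
  have a1 : |S| ^ i ≤ D ^ i := pow_le_pow_left₀ (abs_nonneg _) hS i
  have a2 : |b| ^ j ≤ D ^ j := pow_le_pow_left₀ (abs_nonneg _) hb j
  have a3 : x ^ k ≤ 1 := pow_le_one₀ x0 x1
  calc |S| ^ i * |b| ^ j * x ^ k ≤ D ^ i * D ^ j * 1 := by gcongr
    _ = D ^ (i + j) := by rw [mul_one, pow_add]
    _ ≤ D ^ 4 := pow_le_pow_right₀ hD h

theorem phi_le {y : ℝ} (h : |y| ≤ 1) :
    exp y - 1 - y ≤ y ^ 2 / 2 + y ^ 3 / 6 + 5 / 96 * y ^ 4 := by
  have a := (abs_le.1 (Real.exp_bound h (n := 4) (by norm_num))).2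
  have e : |y| ^ 4 = y ^ 4 := by rw [← abs_pow]; exact abs_of_nonneg (by positivity)
  rw [e] at a
  simp only [Finset.sum_range_succ, Finset.sum_range_zero, Nat.factorial] at a
  norm_num at a
  linarith

theorem ent_le {a : ℝ} (h : |a| ≤ 1) : exp a - 1 - exp a * a ≤ -a ^ 2 / 2 + |a| ^ 3 := by
  have b := Real.exp_bound h (n := 3) (by norm_num)
  simp only [Finset.sum_range_succ, Finset.sum_range_zero, Nat.factorial] at b
  norm_num at b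
  obtain ⟨r, hr⟩ : ∃ r, r = exp a - (1 + a + a ^ 2 / 2) := ⟨_, rfl⟩
  rw [← hr] at b
  have e : exp a = 1 + a + a ^ 2 / 2 + r := by linarith
  have c1 : (1 - a) * r ≤ 2 * |r| := by
    refine (le_abs_self _).trans ?_
    rw [abs_mul]
    exact mul_le_mul_of_nonneg_right (abs_le.2 ⟨by linarith [(abs_le.1 h).2],
      by linarith [(abs_le.1 h).1]⟩) (abs_nonneg _)
  have c2 : -a ^ 3 ≤ |a| ^ 3 := by rw [← abs_pow]; exact neg_le_abs _
  have c3 : 0 ≤ |a| ^ 3 := by positivity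
  rw [e]
  nlinarith

theorem GG_le {m b S D : ℝ} (hD : 1 ≤ D) (hm : 2 * D ≤ m) (hS : |S| ≤ D) (hb : |b| ≤ D) :
    GG m b S ≤ m * S ^ 2 - 2 / 3 * S ^ 3 + b * S ^ 2 + 6 * D ^ 4 * (1 / m) * S ^ 2 := by
  have m0 : 0 < m := by linarith
  have ha : |b / m| ≤ 1 := by
    rw [abs_div, abs_of_pos m0, div_le_one m0]; linarith
  have hy : |-2 * S / m| ≤ 1 := by
    rw [abs_div, abs_of_pos m0, div_le_one m0, abs_mul]; norm_num; linarith
  have e1 : exp (b / m) ≤ 1 + b / m + (b / m) ^ 2 := by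
    linarith [(abs_le.1 (Real.abs_exp_sub_one_sub_id_le ha)).2]
  have e0 : 0 ≤ exp (-2 * S / m) - 1 + 2 * S / m := by
    have := add_one_le_exp (-2 * S / m)
    have e : -2 * S / m = -(2 * S / m) := by ring
    rw [e] at this ⊢
    linarith
  have e2 : exp (-2 * S / m) - 1 + 2 * S / m ≤
      (-2 * S / m) ^ 2 / 2 + (-2 * S / m) ^ 3 / 6 + 5 / 96 * (-2 * S / m) ^ 4 := by
    have := phi_le hy
    have e : 2 * S / m = -(-2 * S / m) := by ring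
    rw [e]
    linarith
  have p1 : 0 ≤ 1 + b / m + (b / m) ^ 2 := (exp_pos _).le.trans e1
  have key : GG m b S ≤ m ^ 3 / 2 * (1 + b / m + (b / m) ^ 2) *
      ((-2 * S / m) ^ 2 / 2 + (-2 * S / m) ^ 3 / 6 + 5 / 96 * (-2 * S / m) ^ 4) := by
    rw [GG]
    exact mul_le_mul (mul_le_mul_of_nonneg_left e1 (by positivity)) e2 e0 (by positivity)
  refine key.trans ?_
  obtain ⟨x, hx⟩ : ∃ x, x = 1 / m := ⟨_, rfl⟩
  have x0 : 0 ≤ x := by rw [hx]; positivity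
  have x1 : x ≤ 1 := by rw [hx, div_le_one m0]; linarith
  have e : m ^ 3 / 2 * (1 + b / m + (b / m) ^ 2) *
      ((-2 * S / m) ^ 2 / 2 + (-2 * S / m) ^ 3 / 6 + 5 / 96 * (-2 * S / m) ^ 4) =
      m * S ^ 2 - 2 / 3 * S ^ 3 + b * S ^ 2 + (5 / 12 * (S ^ 2 * b ^ 0 * x ^ 0) -
        2 / 3 * (S ^ 1 * b ^ 1 * x ^ 0) + 5 / 12 * (S ^ 2 * b ^ 1 * x ^ 1) +
        S ^ 0 * b ^ 2 * x ^ 0 - 2 / 3 * (S ^ 1 * b ^ 2 * x ^ 1) +
        5 / 12 * (S ^ 2 * b ^ 2 * x ^ 2)) * x * S ^ 2 := by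
    rw [hx]; field_simp; ring
  rw [e, ← hx]
  have M := fun i j k h => abs_le.1 (mon hS hb hD x0 x1 i j k h)
  have D0 : 0 ≤ D ^ 4 := by positivity
  gcongr
  linarith [(M 2 0 0 (by norm_num)).2, (M 1 1 0 (by norm_num)).1, (M 2 1 1 (by norm_num)).2,
    (M 0 2 0 (by norm_num)).2, (M 1 2 1 (by norm_num)).1, (M 2 2 2 (by norm_num)).2]

theorem KK_le {m b D : ℝ} (hD : 1 ≤ D) (hm : 2 * D ≤ m) (hb : |b| ≤ D) :
    KK m b ≤ -b ^ 2 / 2 + |b| ^ 3 * (1 / m) := by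
  have m0 : 0 < m := by linarith
  have ha : |b / m| ≤ 1 := by
    rw [abs_div, abs_of_pos m0, div_le_one m0]; linarith
  refine (mul_le_mul_of_nonneg_left (ent_le ha) (sq_nonneg m)).trans (le_of_eq ?_)
  rw [abs_div, abs_of_pos m0]
  field_simp

theorem YY_near {L S ρ : ℝ} (hL : 1 ≤ L) (hρ : 1 ≤ ρ) (hm : 2 * (2 * ρ ^ 2) ≤ L ^ 4)
    (hS : |S| ≤ ρ) : |YY L S - S| ≤ 2 * ρ ^ 2 * (1 / L ^ 4) * |S| := by
  have h0 : 0 < L := by linarith
  have m0 : 0 < L ^ 4 := by positivity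
  have e : YY L S - S = ∫ x in (0 : ℝ)..S, (uu L x - 1) := by
    rw [intervalIntegral.integral_sub ((cd_uu L).continuous.intervalIntegrable _ _)
      (continuous_const.intervalIntegrable _ _), YY]
    simp
  rw [e]
  have := intervalIntegral.norm_integral_le_of_norm_le_const (a := 0) (b := S)
    (f := fun x => uu L x - 1) (C := 2 * ρ ^ 2 * (1 / L ^ 4)) (fun x hx => by
      have hx' : |x| ≤ ρ := by
        refine le_trans ?_ hS
        have := Set.abs_sub_left_of_mem_uIcc (Set.uIoc_subset_uIcc hx)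
        simpa using this
      have x2 : x ^ 2 ≤ ρ ^ 2 := sq_le_sq' (abs_le.1 hx').1 (abs_le.1 hx').2
      have l1 : 1 / L ≤ 1 := (div_le_one h0).2 hL
      have w : |ww L x| ≤ 2 * ρ ^ 2 := by
        have a1 := le_ww h0 x
        have a2 := ww_le h0 x
        have a3 := BB_le h0 x
        have a4 : (2 + 1 / L) * x ^ 2 ≤ 3 * x ^ 2 :=
          mul_le_mul_of_nonneg_right (by linarith) (sq_nonneg x)
        obtain ⟨b1, b2⟩ := abs_le.1 hx'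
        refine abs_le.2 ⟨by nlinarith, by nlinarith⟩
      have w2 : |ww L x / (2 * L ^ 4)| ≤ ρ ^ 2 * (1 / L ^ 4) := by
        rw [abs_div, abs_of_pos (by positivity : 0 < 2 * L ^ 4), div_le_iff₀ (by positivity)]
        refine w.trans (le_of_eq ?_)
        field_simp
      have w3 : ρ ^ 2 * (1 / L ^ 4) ≤ 1 := by
        rw [mul_one_div, div_le_one m0]; nlinarith
      have := Real.abs_exp_sub_one_le (w2.trans w3)
      rw [Real.norm_eq_abs, uu]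
      linarith)
  simpa using this

end OT

theorem ot : S_OT := by
  intro R δ hR hδ
  obtain ⟨ρ, hρ⟩ : ∃ ρ, ρ = R + 1 := ⟨_, rfl⟩
  have ρ1 : 1 ≤ ρ := by linarith
  obtain ⟨D, hD⟩ : ∃ D, D = 2 * ρ ^ 2 := ⟨_, rfl⟩
  have ρD : ρ + ρ ^ 2 ≤ D := by nlinarith
  have D1 : 1 ≤ D := by nlinarith
  refine ⟨max (2 * D) (8 * D ^ 4 / δ), fun L hL S hS => ?_⟩
  have L1 : 2 * D ≤ L := (le_max_left _ _).trans hL
  have L2 : 8 * D ^ 4 / δ ≤ L := (le_max_right _ _).trans hL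
  have hL1 : 1 ≤ L := by linarith
  have h0 : 0 < L := by linarith
  have L4 : L ≤ L ^ 4 := le_self_pow₀ hL1 (by norm_num)
  have L22 : L ≤ L ^ 2 := le_self_pow₀ hL1 (by norm_num)
  have hm : 2 * D ≤ L ^ 4 := L1.trans L4
  obtain ⟨e, he⟩ : ∃ e, e = 1 / L := ⟨_, rfl⟩
  have e0 : 0 ≤ e := by rw [he]; positivity
  have e4 : 1 / L ^ 4 ≤ e := he ▸ one_div_le_one_div_of_le h0 L4
  have e2 : 1 / L ^ 2 ≤ e := he ▸ one_div_le_one_div_of_le h0 L22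
  have eδ : 8 * D ^ 4 * e ≤ δ := by
    rw [he, mul_one_div, div_le_iff₀ h0]
    rw [div_le_iff₀ hδ] at L2
    linarith
  have Sρ : |S| ≤ ρ := by linarith
  have SD : |S| ≤ D := by linarith [sq_nonneg ρ]
  have S2 : S ^ 2 ≤ ρ ^ 2 := sq_le_sq' (abs_le.1 Sρ).1 (abs_le.1 Sρ).2
  have b1 := le_BB h0 S
  have b2 := BB_le h0 S
  have b3 := BB_le'' h0 S
  have bS : |BB L S| ≤ |S| + S ^ 2 / 4 :=
    abs_le.2 ⟨by linarith [neg_abs_le S], by linarith [le_abs_self S, sq_nonneg S]⟩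
  have bD : |BB L S| ≤ D := by linarith [sq_nonneg ρ]
  have S2D : S ^ 2 ≤ D ^ 2 := sq_le_sq' (abs_le.1 SD).1 (abs_le.1 SD).2
  have D24 : D ^ 2 ≤ D ^ 4 := pow_le_pow_right₀ D1 (by norm_num)
  have D34 : D ^ 3 ≤ D ^ 4 := pow_le_pow_right₀ D1 (by norm_num)
  have D14 : D ≤ D ^ 4 := le_self_pow₀ D1 (by norm_num)
  have s0 := sq_nonneg S
  have hη : S ^ 4 / (16 * L ^ 2) ≤ D ^ 2 * e * S ^ 2 := by
    have : S ^ 4 / (16 * L ^ 2) = S ^ 2 / 16 * (1 / L ^ 2) * S ^ 2 := by field_simp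
    rw [this]
    gcongr
    linarith
  have Ee : 0 ≤ e * S ^ 2 := mul_nonneg e0 s0
  have fin : 8 * D ^ 4 * e * S ^ 2 ≤ δ * S ^ 2 := mul_le_mul_of_nonneg_right eδ s0
  refine ⟨?_, ?_, ?_⟩
  · have g := OT.GG_le D1 hm SD bD
    have y := le_YY_sq h0 S
    rw [← he] at y
    have t1 : 6 * D ^ 4 * (1 / L ^ 4) * S ^ 2 ≤ 6 * D ^ 4 * e * S ^ 2 := by gcongr
    have t2 : BB L S * S ^ 2 ≤ (S - S ^ 2 / 4 + D ^ 2 * e * S ^ 2) * S ^ 2 :=
      mul_le_mul_of_nonneg_right (by linarith) s0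
    have t3 : D ^ 2 * S ^ 2 * (e * S ^ 2) ≤ D ^ 4 * (e * S ^ 2) :=
      mul_le_mul_of_nonneg_right (by linarith [mul_le_mul_of_nonneg_left S2D (sq_nonneg D)]) Ee
    have t4 : S ^ 2 * (e * S ^ 2) ≤ D ^ 4 * (e * S ^ 2) :=
      mul_le_mul_of_nonneg_right (by linarith) Ee
    have t5 : 0 ≤ D ^ 4 * (e * S ^ 2) := by positivity
    linarith
  · have k := OT.KK_le D1 hm bD
    have c1 : |BB L S| ≤ D * |S| := by
      have : S ^ 2 = |S| * |S| := by rw [← sq, sq_abs]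
      have a := mul_le_mul_of_nonneg_right (show 1 + |S| / 4 ≤ D by
        linarith [one_le_pow₀ (n := 2) ρ1]) (abs_nonneg S)
      linarith
    have c2 : |BB L S| ^ 3 ≤ D ^ 3 * S ^ 2 := by
      calc |BB L S| ^ 3 = |BB L S| * |BB L S| ^ 2 := by ring
        _ ≤ D * (D * |S|) ^ 2 := by gcongr
        _ = D ^ 3 * S ^ 2 := by rw [mul_pow, sq_abs]; ring
    have c3 : |BB L S| ^ 3 * (1 / L ^ 4) ≤ D ^ 3 * S ^ 2 * e := by gcongr
    obtain ⟨η, hη'⟩ : ∃ η, η = BB L S - (S - S ^ 2 / 4) := ⟨_, rfl⟩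
    have η0 : 0 ≤ η := by linarith
    have η1 : η ≤ D ^ 2 * e * S ^ 2 := by linarith
    have c4 : -(S - S ^ 2 / 4) ≤ D := by linarith [neg_abs_le S, sq_nonneg ρ]
    have c5 : -(S - S ^ 2 / 4) * η ≤ D * (D ^ 2 * e * S ^ 2) :=
      mul_le_mul c4 η1 η0 (by linarith)
    have c6 : BB L S = S - S ^ 2 / 4 + η := by linarith
    have c7 : -BB L S ^ 2 / 2 ≤ -(S - S ^ 2 / 4) ^ 2 / 2 + -(S - S ^ 2 / 4) * η := by
      rw [c6]; linarith [sq_nonneg η]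
    have c8 : D ^ 3 * (e * S ^ 2) ≤ D ^ 4 * (e * S ^ 2) := mul_le_mul_of_nonneg_right D34 Ee
    have t5 : 0 ≤ D ^ 4 * (e * S ^ 2) := by positivity
    linarith
  · refine (OT.YY_near hL1 ρ1 (hD ▸ hm) Sρ).trans ?_
    rw [← hD]
    refine mul_le_mul_of_nonneg_right ?_ (abs_nonneg _)
    have : D * (1 / L ^ 4) ≤ D ^ 4 * e := by gcongr
    have : 0 ≤ D ^ 4 * e := by positivity
    linarith

end Pool.Agent.MP_c98b3a_gt.CF

end
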