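import Pool.Agent.MP_c98b3a_gt.cf.GAP
import Pool.Agent.MP_c98b3a_gt.cf.OG
import Pool.Agent.MP_c98b3a_gt.cf.GEO
import Pool.Agent.MP_c98b3a_gt.cf.MOM
import Pool.Agent.MP_c98b3a_gt.cf.GAM
import Pool.Agent.MP_c98b3a_gt.cf.OT
import Pool.Agent.MP_c98b3a_gt.cf.OD
import Pool.Agent.MP_c98b3a_gt.cf.MAIN
import Pool.Agent.MP_c98b3a_gt.cf.ONE

/-! The entropy in the conformal class of the round sphere: all rows. -/

namespace Pool.Agent.MP_c98b3a_gt.CF

theorem one_all : S_ONE := one ot (og ot) od two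

theorem geo_all : S_GEO := geo gam_ scal_ (div_ gam_ scal_) qe mass frame ch

end Pool.Agent.MP_c98b3a_gt.CF
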