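import Mathlib.Geometry.Manifold.Instances.Sphere
import Pool.Agent.MP_c98b3a_gt.Defs

/-! The round sphere, and metrics conformal to a pulled back Euclidean metric. -/

open scoped Manifold ContDiff

namespace Pool.Agent.MP_c98b3a_gt

/-- The unit sphere `S^m` in `ℝ^{m+1}`. -/
abbrev Sphere (m : ℕ) : Type := Metric.sphere (0 : Euc (Fin (m + 1))) 1

/-- The inclusion `S^m → ℝ^{m+1}`. -/
def incl {m : ℕ} (x : Sphere m) : Euc (Fin (m + 1)) := x

variable {E H F : Type} [NormedAddCommGroup E] [NormedSpace ℝ E] [TopologicalSpace H]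
  {I : ModelWithCorners ℝ E H} [NormedAddCommGroup F] [InnerProductSpace ℝ F]
  {M : Type} [TopologicalSpace M] [ChartedSpace H M] [IsManifold I ∞ M]

/-- The differential `dX_x(v)` of a map `X` from a manifold to a Euclidean space. -/
noncomputable def dvec (X : M → F) (x : M) (v : TangentSpace I x) : F :=
  mfderiv I 𝓘(ℝ, F) X x v

/-- `g = e^{2 s} X^* g_euclid` with `s` smooth. -/
def Conformal (g : Metrics I M) (X : M → F) (s : M → ℝ) : Prop :=
  ContMDiff I 𝓘(ℝ, ℝ) ∞ s ∧
    ∀ x v w, gin g x v w = Real.exp (2 * s x) * inner ℝ (dvec X x v) (dvec X x w)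

end Pool.Agent.MP_c98b3a_gt
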