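import Mathlib.MeasureTheory.Function.L2Space
import Pool.Agent.MP_c98b3a_gt.cf.GAM

/-! The spectral gap above the harmonics of degree two. -/

open MeasureTheory

noncomputable section

namespace Pool.Agent.MP_c98b3a_gt.CF

namespace GAP

variable {m : ℕ} {M : Type} [TopologicalSpace M] [CompactSpace M] [MeasurableSpace M]
  [BorelSpace M]

section Int

variable (μ : Measure M) [IsProbabilityMeasure μ]

theorem int (f : C(M, ℝ)) : Integrable f μ :=
  f.continuous.integrable_of_hasCompactSupport (HasCompactSupport.of_compactSpace _)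

/-- the integral as a linear functional -/
def I : C(M, ℝ) →ₗ[ℝ] ℝ where
  toFun f := ∫ p, f p ∂μ
  map_add' f g := integral_add (int μ f) (int μ g)
  map_smul' a f := integral_const_mul a f

theorem I_inner (f g : C(M, ℝ)) :
    I μ (f * g) = inner ℝ (ContinuousMap.toLp 2 μ ℝ f) (ContinuousMap.toLp 2 μ ℝ g) := by
  rw [ContinuousMap.inner_toLp]
  exact integral_congr_ae (Filter.Eventually.of_forall fun p => by simp [mul_comm])

theorem null {Q : C(M, ℝ)} (h : I μ (Q * Q) = 0) (F : C(M, ℝ)) : I μ (Q * F) = 0 := by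
  rw [I_inner, inner_self_eq_zero] at h
  rw [I_inner, h, inner_zero_left]

theorem sq_nn (Q : C(M, ℝ)) : 0 ≤ I μ (Q * Q) := by
  rw [I_inner]; exact real_inner_self_nonneg

theorem sq_le (Q : C(M, ℝ)) : I μ (Q * Q) ≤ ‖Q‖ ^ 2 := by
  have := norm_integral_le_of_norm_le_const (μ := μ) (f := fun p => (Q * Q) p) (C := ‖Q‖ ^ 2)
    (Filter.Eventually.of_forall fun p => by
      rw [ContinuousMap.mul_apply, norm_mul, sq]
      exact mul_self_le_mul_self (norm_nonneg _) (Q.norm_coe_le_norm p))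
  rw [probReal_univ, mul_one] at this
  exact (le_abs_self _).trans this

theorem proj (K : Submodule ℝ C(M, ℝ)) [FiniteDimensional ℝ K] (F : C(M, ℝ)) :
    ∃ P ∈ K, ∀ Q ∈ K, I μ (Q * (F - P)) = 0 := by
  obtain ⟨T, hT⟩ : ∃ T : C(M, ℝ) →ₗ[ℝ] Lp ℝ 2 μ, ∀ f g, I μ (f * g) = inner ℝ (T f) (T g) :=
    ⟨(ContinuousMap.toLp 2 μ ℝ).toLinearMap, I_inner μ⟩
  obtain ⟨_, ⟨P, hP, rfl⟩, z, hz, e⟩ := (K.map T).exists_add_mem_mem_orthogonal (T F)
  refine ⟨P, hP, fun Q hQ => ?_⟩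
  rw [hT, map_sub, e, add_sub_cancel_left]
  exact hz _ ⟨Q, hQ, rfl⟩

end Int

variable {μ : Measure M} (c : SC m M μ)

/-- the coordinates -/
def X (i : Fin (m + 1)) : C(M, ℝ) := ⟨c.x i, c.cont (c.xsm i)⟩

open Classical in
/-- the product of gradients as a continuous function -/
def Gm (f g : C(M, ℝ)) : C(M, ℝ) := if h : Continuous (c.Γ f g) then ⟨_, h⟩ else 0

/-- polynomials of degree at most `k` -/
def V : ℕ → Submodule ℝ C(M, ℝ)
  | 0 => Submodule.span ℝ {1}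
  | k + 1 => V k ⊔ ⨆ i, (V k).map (LinearMap.mulLeft ℝ (X c i))

/-- polynomials of degree less than `k` -/
def lo : ℕ → Submodule ℝ C(M, ℝ)
  | 0 => ⊥
  | k + 1 => V c k

variable {c} {f g h : C(M, ℝ)}

omit [CompactSpace M] [BorelSpace M]

theorem sX (i : Fin (m + 1)) : c.Sm (X c i) := c.xsm i
theorem sadd (hf : c.Sm f) (hg : c.Sm g) : c.Sm (f + g : C(M, ℝ)) := c.add hf hg
theorem smul' (hf : c.Sm f) (hg : c.Sm g) : c.Sm (f * g : C(M, ℝ)) := c.mul hf hg
theorem ssm (a : ℝ) (hf : c.Sm f) : c.Sm (a • f : C(M, ℝ)) := c.mul (c.const a) hf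
theorem ssub (hf : c.Sm f) (hg : c.Sm g) : c.Sm (f - g : C(M, ℝ)) := by
  rw [sub_eq_add_neg, ← neg_one_smul ℝ g]
  exact sadd hf (ssm _ hg)

theorem Gm_apply (hf : c.Sm f) (hg : c.Sm g) (p : M) : Gm c f g p = c.Γ f g p := by
  rw [Gm, dif_pos (c.Γcont hf hg)]; rfl

theorem Gm_symm (hf : c.Sm f) (hg : c.Sm g) : Gm c f g = Gm c g f := by
  ext p; rw [Gm_apply hf hg, Gm_apply hg hf, c.Γsymm hf hg]

theorem Gm_add (hf : c.Sm f) (hg : c.Sm g) (hh : c.Sm h) :
    Gm c (f + g) h = Gm c f h + Gm c g h := by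
  ext p
  rw [ContinuousMap.add_apply, Gm_apply (sadd hf hg) hh, Gm_apply hf hh, Gm_apply hg hh]
  exact c.Γadd hf hg hh p

theorem Gm_mul (hf : c.Sm f) (hg : c.Sm g) (hh : c.Sm h) :
    Gm c (f * g) h = f * Gm c g h + g * Gm c f h := by
  ext p
  rw [ContinuousMap.add_apply, ContinuousMap.mul_apply, ContinuousMap.mul_apply,
    Gm_apply (smul' hf hg) hh, Gm_apply hf hh, Gm_apply hg hh]
  exact c.Γmul hf hg hh p

theorem Gm_X (i j : Fin (m + 1)) :
    Gm c (X c i) (X c j) = (if i = j then (1 : ℝ) else 0) • 1 - X c i * X c j := by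
  ext p
  rw [Gm_apply (sX i) (sX j)]
  exact (c.Γx i j p).trans (congrArg (· - c.x i p * c.x j p) (mul_one _).symm)

theorem V0 (hf : f ∈ V c 0) : ∃ a : ℝ, f = a • 1 :=
  let ⟨a, e⟩ := Submodule.mem_span_singleton.1 hf; ⟨a, e.symm⟩

theorem s0 (hf : f ∈ V c 0) : c.Sm f := by
  obtain ⟨a, rfl⟩ := V0 hf
  exact c.const (a • (1 : ℝ))

theorem Gm0 (hf : f ∈ V c 0) (hg : c.Sm g) : Gm c f g = 0 := by
  ext p
  rw [Gm_apply (s0 hf) hg]
  obtain ⟨a, rfl⟩ := V0 hf
  exact c.Γconst (a • (1 : ℝ)) g p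

theorem up {k : ℕ} (hf : f ∈ V c k) : f ∈ V c (k + 1) := Submodule.mem_sup_left hf

theorem upX {k : ℕ} (i : Fin (m + 1)) (hf : f ∈ V c k) : X c i * f ∈ V c (k + 1) :=
  Submodule.mem_sup_right (Submodule.mem_iSup_of_mem i ⟨f, hf, rfl⟩)

theorem V_mono : Monotone (V c) := monotone_nat_of_le_succ fun _ _ => up

theorem V_ind {k : ℕ} {p : C(M, ℝ) → Prop} (h0 : ∀ P ∈ V c k, p P)
    (h1 : ∀ i, ∀ R ∈ V c k, p (X c i * R)) (h2 : ∀ P Q, p P → p Q → p (P + Q)) :
    ∀ P ∈ V c (k + 1), p P := by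
  intro P hP
  obtain ⟨a, ha, b, hb, rfl⟩ := Submodule.mem_sup.1 hP
  refine h2 _ _ (h0 a ha) (Submodule.iSup_induction _ (motive := p) hb ?_ (h0 0 (zero_mem _)) h2)
  rintro i _ ⟨R, hR, rfl⟩
  exact h1 i R hR

instance fin : ∀ k, FiniteDimensional ℝ (V c k)
  | 0 => FiniteDimensional.span_singleton ℝ _
  | k + 1 => by
    have := fin k
    exact Submodule.finiteDimensional_sup _ _

theorem sV : ∀ k, ∀ P ∈ V c k, c.Sm P
  | 0 => fun _ => s0
  | k + 1 => V_ind (sV k) (fun i R hR => smul' (sX i) (sV k R hR)) fun _ _ => sadd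

theorem lo_le : ∀ {k}, f ∈ lo c k → f ∈ V c k ∧ ∀ i, X c i * f ∈ V c k
  | 0 => fun e => by
    obtain rfl : f = 0 := e
    exact ⟨zero_mem _, fun i => by rw [mul_zero]; exact zero_mem _⟩
  | _ + 1 => fun e => ⟨up e, fun i => upX i e⟩

/-- the tangential derivative raises the degree only through the radial term -/
theorem der (i : Fin (m + 1)) : ∀ k, ∀ P ∈ V c k,
    c.Sm P ∧ Gm c P (X c i) + (k : ℝ) • (X c i * P) ∈ V c k
  | 0 => fun P hP => ⟨s0 hP, by rw [Gm0 hP (sX i)]; simp⟩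
  | k + 1 => by
    refine V_ind (fun P hP => ⟨sV k P hP, ?_⟩) (fun j R hR => ⟨smul' (sX j) (sV k R hR), ?_⟩)
      fun P Q a b => ⟨sadd a.1 b.1, ?_⟩
    · convert add_mem (up (der i k P hP).2) (upX i hP) using 1
      push_cast
      module
    · convert add_mem (upX j (der i k R hR).2)
        (Submodule.smul_mem _ (if j = i then (1 : ℝ) else 0) (up hR)) using 1
      rw [Gm_mul (sX j) (sV k R hR) (sX i), Gm_X]
      generalize (if j = i then (1 : ℝ) else 0) = t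
      ext p
      simp
      ring
    · convert add_mem a.2 b.2 using 1
      rw [Gm_add a.1 b.1 (sX i), mul_add]
      module

theorem dense [CompactSpace M] [T2Space M] (F : C(M, ℝ)) {ε : ℝ} (hε : 0 < ε) :
    ∃ k, ∃ Q ∈ V c k, ‖Q - F‖ < ε := by
  obtain ⟨⟨Q, hQ⟩, e⟩ := ContinuousMap.exists_mem_subalgebra_near_continuousMap_of_separatesPoints
    (Algebra.adjoin ℝ (Set.range (X c))) (fun p p' hne => by
      by_contra k
      push Not at k
      exact hne (c.sep p p' fun i => k _ ⟨X c i, Algebra.subset_adjoin ⟨i, rfl⟩, rfl⟩)) F ε hε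
  suffices ∃ k, Q ∈ V c k from let ⟨k, a⟩ := this; ⟨k, Q, a, e⟩
  clear e
  rw [← Subalgebra.mem_toSubmodule, Algebra.adjoin_eq_span] at hQ
  induction hQ using Submodule.span_induction with
  | mem g hg =>
    induction hg using Submonoid.closure_induction_left with
    | one => exact ⟨0, Submodule.mem_span_singleton_self _⟩
    | mul_left x hx y _ ih =>
      obtain ⟨i, rfl⟩ := hx
      obtain ⟨k, a⟩ := ih
      exact ⟨k + 1, upX i a⟩
  | zero => exact ⟨0, zero_mem _⟩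
  | add x y _ _ a b =>
    obtain ⟨k, a⟩ := a
    obtain ⟨l, b⟩ := b
    exact ⟨max k l, add_mem (V_mono (le_max_left _ _) a) (V_mono (le_max_right _ _) b)⟩
  | smul t x _ a =>
    obtain ⟨k, a⟩ := a
    exact ⟨k, Submodule.smul_mem _ _ a⟩

variable [CompactSpace M] [BorelSpace M] [IsProbabilityMeasure μ]

theorem E_eq (hf : c.Sm f) (hg : c.Sm g) : I μ (Gm c f g) = ∫ p, c.Γ f g p ∂μ :=
  integral_congr_ae (Filter.Eventually.of_forall (Gm_apply hf hg))

theorem stein (i : Fin (m + 1)) (hf : c.Sm f) : I μ (Gm c (X c i) f) = m * I μ (X c i * f) :=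
  (E_eq (sX i) hf).trans (c.stein i hf)

/-- the Laplacian is triangular for the degree filtration -/
theorem tri : ∀ k : ℕ, ∀ P ∈ V c k, c.Sm P ∧ ∃ P' ∈ lo c k, ∀ F : C(M, ℝ), c.Sm F →
    I μ (Gm c P F) = k * (k + m - 1) * I μ (P * F) + I μ (P' * F)
  | 0 => fun P hP => ⟨s0 hP, 0, zero_mem _, fun F hF => by rw [Gm0 hP hF]; simp⟩
  | k + 1 => by
    refine V_ind (fun P hP => ?_) (fun j R hR => ?_) ?_
    · obtain ⟨a, P', b, e⟩ := tri k P hP
      refine ⟨a, P' - (2 * k + m : ℝ) • P, sub_mem (lo_le b).1 (Submodule.smul_mem _ _ hP),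
        fun F hF => ?_⟩
      rw [e F hF, sub_mul, smul_mul_assoc, map_sub, map_smul, smul_eq_mul]
      push_cast
      ring
    · obtain ⟨a, R', b, e⟩ := tri k R hR
      refine ⟨smul' (sX j) a, X c j * R' - (2 : ℝ) • (Gm c R (X c j) + (k : ℝ) • (X c j * R)),
        sub_mem ((lo_le b).2 j) (Submodule.smul_mem _ _ (der j k R hR).2), fun F hF => ?_⟩
      have e1 : Gm c (X c j * R) F = Gm c R (X c j * F) + Gm c (X c j) (R * F) -
          (2 : ℝ) • (Gm c R (X c j) * F) := by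
        rw [Gm_symm a (smul' (sX j) hF), Gm_symm (sX j) (smul' a hF), Gm_mul (sX j) a hF,
          Gm_mul (sX j) hF a, Gm_mul a hF (sX j), Gm_symm hF a, Gm_symm hF (sX j),
          Gm_symm (sX j) a, two_smul]
        ring
      rw [e1, map_sub, map_add, e _ (smul' (sX j) hF), stein j (smul' a hF), sub_mul,
        smul_mul_assoc, add_mul, smul_mul_assoc, mul_left_comm R, mul_left_comm R', mul_assoc,
        mul_assoc, mul_assoc]
      simp only [map_sub, map_add, map_smul, smul_eq_mul]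
      push_cast
      ring_nf
    · rintro P Q ⟨a, P', b, e⟩ ⟨a', Q', b', e'⟩
      refine ⟨sadd a a', P' + Q', add_mem b b', fun F hF => ?_⟩
      rw [Gm_add a a' hF, add_mul, add_mul, map_add, map_add, map_add, e F hF, e' F hF]
      ring

/-- harmonics are eigenfunctions -/
theorem eig {k : ℕ} {D : C(M, ℝ)} (hD : D ∈ V c (k + 1)) (ho : ∀ Q ∈ V c k, I μ (Q * D) = 0)
    {F : C(M, ℝ)} (hF : c.Sm F) : I μ (Gm c D F) = (k + 1) * (k + m) * I μ (D * F) := by
  obtain ⟨a, P, b, e⟩ := tri _ D hD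
  obtain ⟨a', P', b', e'⟩ := tri k P b
  have e1 := e P a'
  rw [Gm_symm a a', e' D a, mul_comm D, ho P b, ho P' (lo_le b').1] at e1
  rw [e F hF, null μ (Q := P) (by linarith), add_zero]
  push_cast
  ring

theorem step {F : C(M, ℝ)} (hF : c.Sm F) (ho : ∀ Q ∈ V c 2, I μ (Q * F) = 0) (k : ℕ) :
    ∃ G : C(M, ℝ), c.Sm G ∧ (∀ Q ∈ V c (k + 2), I μ (Q * G) = 0) ∧ F - G ∈ V c (k + 2) ∧
      3 * (m + 2) * (I μ (F * F) - I μ (G * G)) ≤ I μ (Gm c F F) - I μ (Gm c G G) := by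
  induction k with
  | zero => exact ⟨F, hF, ho, by simp, by simp⟩
  | succ k ih =>
    obtain ⟨G, a, b, e, l⟩ := ih
    obtain ⟨D, hD, o⟩ := proj μ (V c (k + 3)) G
    have sD := sV _ D hD
    obtain ⟨G', rfl⟩ : ∃ G', G = D + G' := ⟨G - D, by abel⟩
    have sG : c.Sm G' := by simpa using ssub a sD
    rw [add_sub_cancel_left] at o
    have o' : ∀ Q ∈ V c (k + 2), I μ (Q * D) = 0 := fun Q hQ => by
      have := b Q hQ
      rwa [mul_add, map_add, o Q (up hQ), add_zero] at this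
    refine ⟨G', sG, o, ?_, ?_⟩
    · convert add_mem (up e) hD using 1
      abel
    · have e1 := eig hD o' sG
      have e2 := eig hD o' sD
      have e3 := o D hD
      rw [Gm_add sD sG a, Gm_symm sD a, Gm_symm sG a, Gm_add sD sG sD, Gm_add sD sG sG,
        Gm_symm sG sD, add_mul, mul_add D, mul_add G', mul_comm G' D] at l
      simp only [map_add, e1, e2, e3] at l
      push_cast at l
      have t : (0 : ℝ) ≤ k * (k + m + 5) := by positivity
      nlinarith [mul_nonneg t (sq_nn μ D)]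

theorem o0 (h0 : I μ f = 0) : ∀ Q ∈ V c 0, I μ (Q * f) = 0 := fun Q hQ => by
  obtain ⟨a, rfl⟩ := V0 hQ
  rw [smul_mul_assoc, one_mul, map_smul, h0, smul_zero]

theorem oS {k : ℕ} (h0 : ∀ Q ∈ V c k, I μ (Q * f) = 0)
    (h1 : ∀ i, ∀ Q ∈ V c k, I μ (Q * (f * X c i)) = 0) : ∀ Q ∈ V c (k + 1), I μ (Q * f) = 0 :=
  V_ind h0 (fun i R hR => by rw [← h1 i R hR]; congr 1; ring)
    fun P Q a b => by rw [add_mul, map_add, a, b, add_zero]

end GAP

open GAP

theorem gap : S_GAP := by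
  intro m M _ _ _ _ _ μ _ c F0 hF h0 h1 h2
  obtain ⟨F, rfl⟩ : ∃ F : C(M, ℝ), F0 = F := ⟨⟨F0, c.cont hF⟩, rfl⟩
  have a1 : ∀ i, I μ (F * X c i) = 0 := h1
  have a2 : ∀ i j, I μ (F * X c i * X c j) = 0 := fun i j => by rw [mul_assoc]; exact h2 i j
  have ho : ∀ Q ∈ V c 2, I μ (Q * F) = 0 :=
    oS (oS (o0 h0) fun i => o0 (a1 i)) fun i => oS (o0 (a1 i)) fun j => o0 (a2 i j)
  have e0 : ∫ p, F p ^ 2 ∂μ = I μ (F * F) :=
    integral_congr_ae (Filter.Eventually.of_forall fun p => sq (F p))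
  rw [e0, ← E_eq hF hF]
  have hl : (0 : ℝ) < 3 * (m + 2) := by positivity
  refine le_of_forall_pos_le_add fun δ hδ => ?_
  obtain ⟨k, Q, hQ, hn⟩ := dense (c := c) F (Real.sqrt_pos.2 (div_pos hδ hl))
  obtain ⟨G, a, b, e, l⟩ := step hF ho k
  have e1 : 0 ≤ I μ (Gm c G G) := by
    rw [E_eq a a]
    exact integral_nonneg (c.Γnonneg a)
  have e2 : I μ (G * G) ≤ δ / (3 * (m + 2)) := by
    have m1 : Q - (F - G) ∈ V c (k + 2) := sub_mem (V_mono (by omega) hQ) e
    have b1 := b _ m1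
    have b2 := sq_nn μ (Q - (F - G))
    have b3 := sq_le μ (Q - F)
    have b4 := pow_le_pow_left₀ (norm_nonneg _) hn.le 2
    rw [Real.sq_sqrt (div_pos hδ hl).le] at b4
    have b5 : (Q - (F - G)) * (Q - (F - G)) + G * G =
        (Q - F) * (Q - F) + (2 : ℝ) • ((Q - (F - G)) * G) := by
      rw [two_smul]; ring
    have b6 := congrArg (I μ) b5
    simp only [map_add, map_smul, b1, smul_zero] at b6
    linarith
  rw [le_div_iff₀' hl] at e2
  linarith

end Pool.Agent.MP_c98b3a_gt.CF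

end
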